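import Pool.Agent.Lib.DI.D.SpecA

set_option autoImplicit false

open scoped Pointwise

noncomputable section

namespace Pool.Agent.DI.D

open Pool.Agent.MuZ Pool.Agent.FW Pool.Agent.DI Pool.Agent.DI.E

private theorem D1c_mul {a b : OO} (h : Pr2 a b) : a * b = ((2 : ℕ) : OO) := by
  rcases h with ⟨rfl, rfl⟩ | ⟨rfl, rfl⟩ <;>
  · apply OO.ext'
    · rw [re_mul, re_nat]
      rfl
    · rw [im_mul, im_nat]
      rfl

private theorem D1c_add {a b : OO} (h : Pr2 a b) : a + b = 1 := by
  rcases h with ⟨rfl, rfl⟩ | ⟨rfl, rfl⟩ <;>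
  · apply OO.ext' <;> rfl

private theorem D1c_symm {a b : OO} (h : Pr2 a b) : Pr2 b a := by
  rcases h with ⟨rfl, rfl⟩ | ⟨rfl, rfl⟩
  · exact Or.inr ⟨rfl, rfl⟩
  · exact Or.inl ⟨rfl, rfl⟩

private theorem D1c_Nm {a b : OO} (h : Pr2 a b) : Nm a = 2 := by
  rcases h with ⟨rfl, rfl⟩ | ⟨rfl, rfl⟩ <;> rfl

private theorem D1c_pO (s : OO) : pO ∣ s ∨ pO ∣ s - 1 := by
  rcases Int.even_or_odd' s.re with ⟨k, hk | hk⟩
  · left
    refine ⟨⟨s.im + k, -k⟩, ?_⟩
    apply OO.ext'
    · rw [re_mul, hk]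
      change 2 * k = 0 * (s.im + k) - 2 * 1 * -k
      ring
    · rw [im_mul]
      change s.im = 0 * -k + 1 * (s.im + k) + 1 * -k
      ring
  · right
    refine ⟨⟨s.im + k, -k⟩, ?_⟩
    apply OO.ext'
    · rw [re_mul]
      change s.re - 1 = 0 * (s.im + k) - 2 * 1 * -k
      rw [hk]
      ring
    · rw [im_mul]
      change s.im - 0 = 0 * -k + 1 * (s.im + k) + 1 * -k
      ring

private theorem D1c_dich {a b : OO} (h : Pr2 a b) (s : OO) : a ∣ s ∨ a ∣ s - 1 := by
  rcases h with ⟨rfl, rfl⟩ | ⟨rfl, rfl⟩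
  · exact D1c_pO s
  · have h1 : cjO pO = pbO := rfl
    rw [← h1]
    rcases D1c_pO (cjO s) with h2 | h2
    · left
      have h3 := dvd_cjO h2
      rwa [cjO_cjO] at h3
    · right
      have h3 := dvd_cjO h2
      have h4 : cjO (1 : OO) = 1 := by
        have h5 := cjO_nat 1
        rwa [Nat.cast_one] at h5
      rwa [cjO_sub, cjO_cjO, h4] at h3

/-- Reduction above `2`: the additional facts. -/
theorem tD1c (hXOm : S_XOm) (hA0 : S_A0) (hB1 : S_B1) : S_D1c := by
  intro a b hab P hP hPa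
  obtain ⟨hper, hneg, hadd, hdbl, hmulw, hT, hhalf⟩ := hXOm
  haveI hPr : P.IsPrime := hP.1
  have hmul := D1c_mul hab
  have hC : toC a * toC b = 2 := by
    rw [← map_mul, hmul, map_natCast]
    norm_num
  have hO : toO a * toO b = 2 := by
    rw [← map_mul, hmul, map_natCast]
    norm_num
  have hS : toO a + toO b = 1 := by
    rw [← map_add, D1c_add hab, map_one]
  have hCa : toC a ≠ 0 := by
    intro h
    rw [h, zero_mul] at hC
    norm_num at hC
  have hCb : toC b ≠ 0 := by
    intro h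
    rw [h, mul_zero] at hC
    norm_num at hC
  have hOa : toO a ≠ 0 := by
    intro h
    rw [h, zero_mul] at hO
    norm_num at hO
  have hVa : VP P (toO a) := hPa.vp
  have hVb : VP P (toO b) := by
    have h1 : toO b = 1 - toO a := by rw [← hS]; ring
    rw [h1]
    exact VP.one.sub hVa
  have hM2 : MP P (2 : Om) := by
    rw [← hO]
    exact MP.mul_right hPa hVb
  have hUb : UP P (toO b) := by
    refine ⟨hVb, fun h => MP.one_not (P := P) ?_⟩
    rw [← hS]
    exact hPa.add h
  have hx1 : xO (1 / toC a) = toO b / toO a ^ 2 := hT a b hab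
  have hx2 : xO (1 / toC b) = toO a / toO b ^ 2 := hT b a (D1c_symm hab)
  have hnV : ¬ VP P (xO (1 / toC a)) := by
    intro h
    apply hUb.2
    have h1 : toO b = xO (1 / toC a) * (toO a ^ 2) := by
      rw [hx1]
      field_simp
    rw [h1, pow_two]
    exact MP.mul_left h (MP.mul_left hVa hPa)
  have hnL : ∀ c d : OO, Pr2 c d → ∀ v : OO, c * v ≠ 1 := by
    intro c d hcd v h
    have h1 := congrArg Nm h
    rw [Nm_mul, D1c_Nm hcd, Nm_one] at h1
    omega
  have hI : ∀ z : ℂ, Tor z → ¬ I2 P z → ¬ Lat z ∧ VP P (xO z) := by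
    intro z hz h
    constructor
    · intro h1
      exact h ⟨hz, Or.inl h1⟩
    · by_contra h1
      exact h ⟨hz, Or.inr h1⟩
  refine ⟨?_, ?_, ?_, ?_, ?_⟩
  · intro z hz h
    obtain ⟨hL, hX⟩ := hI z hz h
    have hc : yO z ^ 2 + xO z * yO z = xO z ^ 3 - xO z ^ 2 - 2 * xO z - 1 := by
      apply io_inj
      simp only [map_add, map_sub, map_mul, map_pow, map_one, map_ofNat, (hA0 z hz).1,
        (hA0 z hz).2.1]
      exact hB1 z hL
    by_contra hY
    obtain ⟨hY0, hYm⟩ := VP.not_iff.1 hY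
    have hR : VP P (xO z ^ 3 - xO z ^ 2 - 2 * xO z - 1) :=
      (((hX.pow 3).sub (hX.pow 2)).sub (hM2.vp.mul hX)).sub VP.one
    have h1 : (1 : Om) = -xO z * (yO z)⁻¹ +
        (xO z ^ 3 - xO z ^ 2 - 2 * xO z - 1) * ((yO z)⁻¹ * (yO z)⁻¹) := by
      rw [← hc]
      field_simp
      ring
    apply MP.one_not (P := P)
    rw [h1]
    exact (MP.mul_left hX.neg hYm).add (MP.mul_left hR (MP.mul_left hYm.vp hYm))
  · intro z hz h
    obtain ⟨hL, hX⟩ := hI z hz h
    have hLa : ¬ Lat (toC a * z) := by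
      rintro ⟨s, hs⟩
      rcases D1c_dich hab s with ⟨t, rfl⟩ | ⟨t, ht⟩
      · apply hL
        refine ⟨t, ?_⟩
        rw [map_mul] at hs
        exact mul_left_cancel₀ hCa hs
      · apply hnV
        have h1 : s = 1 + a * t := by
          rw [← ht]
          ring
        rw [h1, map_add, map_mul, map_one] at hs
        have h2 : z = 1 / toC a + toC t := by
          apply mul_left_cancel₀ hCa
          rw [hs]
          field_simp
        rw [h2, hper] at hX
        exact hX
    have hD : UP P (toO a ^ 2 * xO z - toO b) := by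
      refine UP.congr hUb.neg ?_
      have h1 : toO a ^ 2 * xO z - toO b - -toO b = toO a * (toO a * xO z) := by ring
      rw [h1]
      exact MP.mul_right hPa (hVa.mul hX)
    have hD0 := hD.ne_zero
    have hmain := hmulw a b hab z hz hL hLa
    have hV1 : VP P (xO (toC a * z)) := by
      have h1 : xO (toC a * z) = (xO z ^ 2 - toO a) * (toO a ^ 2 * xO z - toO b)⁻¹ := by
        rw [← hmain]
        field_simp
      rw [h1]
      exact ((hX.pow 2).sub hVa).mul hD.inv.1
    have h1b : MP P (1 + toO b) := by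
      have h1 : 1 + toO b = 2 - toO a := by
        rw [← hS]
        linear_combination 2 * hS
      rw [h1]
      exact hM2.sub hPa
    refine ⟨?_, ?_⟩
    · rintro ⟨-, h1 | h1⟩
      · exact hLa h1
      · exact h1 hV1
    · have h1 : xO (toC a * z) - xO z ^ 2 =
          (xO z ^ 2 * (1 + toO b) - toO a - toO a * (toO a * xO z ^ 3)) *
            (toO a ^ 2 * xO z - toO b)⁻¹ := by
        rw [eq_mul_inv_iff_mul_eq₀ hD0]
        linear_combination hmain
      rw [h1]
      exact MP.mul_right (((MP.mul_left (hX.pow 2) h1b).sub hPa).sub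
        (MP.mul_right hPa (hVa.mul (hX.pow 3)))) hD.inv.1
  · refine ⟨?_, Or.inr hnV⟩
    have h1 : 1 / toC a = toC b / ((2 : ℕ) : ℂ) := by
      rw [Nat.cast_ofNat, ← hC]
      field_simp
    rw [h1]
    exact tor_div two_pos b
  · rintro ⟨-, ⟨v, hv⟩ | h⟩
    · apply hnL b a (D1c_symm hab) v
      apply toC_inj
      rw [map_mul, map_one, ← hv]
      field_simp
    · apply h
      rw [hx2]
      exact hVa.mul (hUb.pow 2).inv.1
  · rintro ⟨-, ⟨v, hv⟩ | h⟩
    · apply hnL a b hab (b * v)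
      apply toC_inj
      rw [← mul_assoc, hmul, map_mul, map_natCast, map_one, ← hv]
      norm_num
    · apply h
      rw [hhalf]
      exact hM2.vp

end Pool.Agent.DI.D
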