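import Pool.Agent.Lib.DI.D.SpecA

set_option autoImplicit false

/-!
# Theorem DI, part D-A: annihilators (`S_KAnn`)
-/

open scoped Pointwise

noncomputable section

namespace Pool.Agent.DI.D

open Pool.Agent.MuZ Pool.Agent.FW Pool.Agent.DI Pool.Agent.DI.E

theorem tKAnn (hUPid : S_UPid) : S_KAnn := by
  obtain ⟨hdom, hpir, -⟩ := hUPid
  intro z hz
  let J : Ideal OO :=
    { carrier := {β | Lat (toC β * z)}
      add_mem' := fun {a b} ha hb => by
        show Lat (toC (a + b) * z)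
        rw [map_add, add_mul]
        exact lat_add ha hb
      zero_mem' := by
        show Lat (toC 0 * z)
        rw [map_zero, zero_mul]
        exact lat_zero
      smul_mem' := fun c a ha => by
        show Lat (toC (c * a) * z)
        rw [map_mul, mul_assoc]
        exact lat_mul c ha }
  have hJ : ∀ β, β ∈ J ↔ Lat (toC β * z) := fun β => Iff.rfl
  obtain ⟨δ, hδ⟩ := (hpir.principal J).principal
  have hδ' : ∀ β, Lat (toC β * z) ↔ δ ∣ β := by
    intro β
    rw [← hJ, hδ]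
    exact Ideal.mem_span_singleton
  have hδ0 : δ ≠ 0 := by
    rintro rfl
    obtain ⟨v, n, hn, rfl⟩ := hz
    have hn' : (n : ℂ) ≠ 0 := by exact_mod_cast hn.ne'
    have h1 : Lat (toC (n : OO) * (toC v / n)) := ⟨v, by
      rw [map_natCast]
      field_simp⟩
    have h2 := congrArg toC (zero_dvd_iff.1 ((hδ' (n : OO)).1 h1))
    rw [map_natCast, map_zero] at h2
    exact hn' h2
  have hδL : Lat (toC δ * z) := (hδ' δ).2 dvd_rfl
  refine ⟨δ, hδ0, hδL, fun β hβ => (hδ' β).1 hβ, ?_⟩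
  obtain ⟨w, hw⟩ := hδL
  -- `δ` and `w` are coprime
  obtain ⟨p, q, hpq⟩ : ∃ p q : OO, w * p + δ * q = 1 := by
    obtain ⟨ρ, hρ⟩ := (hpir.principal (Ideal.span {δ, w})).principal
    have hρ' : ∀ x, x ∈ Ideal.span {δ, w} ↔ ρ ∣ x := by
      intro x
      rw [hρ]
      exact Ideal.mem_span_singleton
    obtain ⟨δ', hd⟩ := (hρ' δ).1 (Ideal.subset_span (by simp))
    obtain ⟨w', hw'⟩ := (hρ' w).1 (Ideal.subset_span (by simp))
    have hρ0 : ρ ≠ 0 := by
      rintro rfl
      exact hδ0 (by rw [hd, zero_mul])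
    have hδ'0 : δ' ≠ 0 := by
      rintro rfl
      exact hδ0 (by rw [hd, mul_zero])
    have h1 : toC δ' * z = toC w' := by
      refine mul_left_cancel₀ (toC_ne hρ0) ?_
      rw [← mul_assoc, ← map_mul, ← map_mul, ← hd, ← hw', hw]
    obtain ⟨k, hk⟩ := (hδ' δ').1 ⟨w', h1⟩
    have h2 : ρ * k = 1 := by
      refine mul_left_cancel₀ hδ'0 ?_
      calc δ' * (ρ * k) = (ρ * δ') * k := by ring
        _ = δ * k := by rw [← hd]
        _ = δ' * 1 := by rw [← hk, mul_one]
    obtain ⟨a, b, hab⟩ := Ideal.mem_span_pair.1 ((hρ' ρ).2 dvd_rfl)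
    refine ⟨b * k, a * k, ?_⟩
    calc w * (b * k) + δ * (a * k) = (a * δ + b * w) * k := by ring
      _ = 1 := by rw [hab, h2]
  intro u hu
  obtain ⟨s, hs⟩ := hu
  refine ⟨s * p, s * q, ?_⟩
  refine mul_left_cancel₀ (toC_ne hδ0) ?_
  have h3 : toC w * toC p + toC δ * toC q = 1 := by
    rw [← map_mul, ← map_mul, ← map_add, hpq, map_one]
  rw [map_mul, map_mul]
  linear_combination hs - toC s * toC p * hw - toC s * h3

end Pool.Agent.DI.D
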