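import Pool.Agent.Lib.DI.D.SpecA

set_option autoImplicit false

/-!
# Theorem DI, part D-A: the Kummer datum of `X` above `2` (`S_KDX`)
-/

open scoped Pointwise

noncomputable section

namespace Pool.Agent.DI.D

open Pool.Agent.MuZ Pool.Agent.FW Pool.Agent.DI Pool.Agent.DI.E

private theorem KDX_vp (Q : Ideal ZZ) [hQ : Q.IsPrime] (v : OO) : VP Q (toO v) := by
  have hwI : IsIntegral ℤ wO := by
    refine ⟨Polynomial.X ^ 2 - Polynomial.X + Polynomial.C 2, ?_, ?_⟩
    · monicity!
    · simp only [Polynomial.eval₂_add, Polynomial.eval₂_sub, Polynomial.eval₂_pow,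
        Polynomial.eval₂_X, Polynomial.eval₂_C, wO_sq]
      simp
  have h1 : toO v = (v.re : Om) + v.im * wO := rfl
  rw [h1]
  exact (VP.int v.re).add ((VP.int v.im).mul (VP.integral hwI))

private theorem KDX_pq {a b : OO} (h : Pr2 a b) : toO a * toO b = 2 ∧ toO a + toO b = 1 := by
  rcases h with ⟨rfl, rfl⟩ | ⟨rfl, rfl⟩
  · rw [toO_pO, toO_pbO]
    exact ⟨by linear_combination -wO_sq, by ring⟩
  · rw [toO_pO, toO_pbO]
    exact ⟨by linear_combination -wO_sq, by ring⟩

private theorem KDX_swap {a b : OO} (h : Pr2 a b) : Pr2 b a := by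
  rcases h with ⟨h1, h2⟩ | ⟨h1, h2⟩
  · exact Or.inr ⟨h2, h1⟩
  · exact Or.inl ⟨h2, h1⟩

theorem tKDX (hXOm : S_XOm) (hXPr : S_XPr) : S_KDX := by
  intro a b hab P hNP hPa
  obtain ⟨x1, x2, x3, x4, x5, x6, -⟩ := hXOm
  have hP : P.IsPrime := hNP.1
  obtain ⟨hab2, hab1⟩ := KDX_pq hab
  have hVa : VP P (toO a) := KDX_vp P a
  have hVb : VP P (toO b) := KDX_vp P b
  have h2 : MP P 2 := by
    rw [← hab2]
    exact hPa.mul_right hVb
  have hUb : UP P (toO b) := by
    apply UP.congr UP.one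
    have h1 : toO b - 1 = -toO a := by linear_combination hab1
    rw [h1]
    exact hPa.neg
  have h7 : UP P 7 := by
    apply UP.congr UP.one
    have h1 : (7 : Om) - 1 = 2 * ((3 : ℕ) : Om) := by
      push_cast
      norm_num
    rw [h1]
    exact h2.mul_right (VP.nat 3)
  have hVx : VP P (xO (1 / toC b)) := by
    rw [x6 b a (KDX_swap hab)]
    exact (hVa.mul (hUb.pow 2).inv.1 : VP P (toO a * (toO b ^ 2)⁻¹))
  have hi : ∀ n : ℤ, VP P (n : Om) := fun n => VP.int n
  have hVm1 : VP P (-1 : Om) := by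
    have h1 := hi (-1)
    push_cast at h1
    exact h1
  have hVm3 : VP P (-3 : Om) := by
    have h1 := hi (-3)
    push_cast at h1
    exact h1
  have hVm4 : VP P (-4 : Om) := by
    have h1 := hi (-4)
    push_cast at h1
    exact h1
  have hpO : Pr2 pO pbO := Or.inl ⟨rfl, rfl⟩
  refine ⟨hNP, hVm3, hVm4, hVm4, hVm1, x1, x2, ?_, ?_, ?_, ?_, ?_, ?_⟩
  · intro z z' h1 h2' h3 h4 h5 h6
    obtain ⟨e1, e2⟩ := x3 z z' h1 h2' h3 h4 h5 h6
    exact ⟨by linear_combination e1, by linear_combination e2⟩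
  · intro z h1 h3
    have e1 := x4 z h1 h3
    linear_combination e1
  · intro t ht hG hF
    have h343 : (343 : Om) = (48 * t ^ 2 - 24 * t - 137) *
        (t ^ 4 - (-4) * t ^ 2 - 2 * (-4) * t - (-1)) +
        (-(12 * t ^ 3 + 3 * t ^ 2 + 40 * t + 120)) *
        (4 * t ^ 3 + (-3) * t ^ 2 + 2 * (-4) * t + (-4)) := by ring
    have hn : ∀ n : ℕ, VP P (n : Om) := fun n => VP.nat n
    have v1 : VP P (48 * t ^ 2 - 24 * t - 137) := by
      have a1 := hn 48
      have a2 := hn 24
      have a3 := hn 137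
      push_cast at a1 a2 a3
      exact ((a1.mul (ht.pow 2)).sub (a2.mul ht)).sub a3
    have v2 : VP P (-(12 * t ^ 3 + 3 * t ^ 2 + 40 * t + 120)) := by
      have a1 := hn 12
      have a2 := hn 3
      have a3 := hn 40
      have a4 := hn 120
      push_cast at a1 a2 a3 a4
      exact ((((a1.mul (ht.pow 3)).add (a2.mul (ht.pow 2))).add (a3.mul ht)).add a4).neg
    have h1 : MP P (343 : Om) := by
      rw [h343]
      exact (MP.mul_left v1 hF).add (MP.mul_left v2 hG)
    have h3 : MP P ((7 : Om) ^ 3) := by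
      have h4 : (7 : Om) ^ 3 = 343 := by norm_num
      rw [h4]
      exact h1
    exact h7.2 (MP.of_pow h3)
  · refine ⟨toO pO ^ 2, -toO pbO, 0, -toO pO, (KDX_vp P pO).pow 2, (KDX_vp P pbO).neg, VP.zero,
      (KDX_vp P pO).neg, ?_⟩
    intro z h1 h3 h4
    rw [← toC_pO] at h4
    have e1 := x5 pO pbO hpO z h1 h3 h4
    rw [toC_pO] at e1
    linear_combination e1
  · intro p hp hnp
    have hpb : p = b := by
      rcases hab with ⟨rfl, rfl⟩ | ⟨rfl, rfl⟩
      · rcases hp with rfl | rfl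
        · exact absurd hPa hnp
        · rfl
      · rcases hp with rfl | rfl
        · rfl
        · exact absurd hPa hnp
    rw [hpb]
    exact hVx
  · intro α R hα _ hR
    have hc := hXPr a b hab α R hα hR
    refine ⟨xO (1 / toC b), _, hVx, ?_, rfl⟩
    apply UP.of_pow (n := 2) (by norm_num)
    rw [hc]
    apply UP.prod
    intro u _
    split_ifs
    · exact UP.one
    · exact h7.neg.div (hUb.pow 4)

end Pool.Agent.DI.D
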