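import Pool.Agent.Lib.DI.D.SpecA

/-!
# Theorem DI, part D-A, module KDZ: the Kummer datum of `Z` outside `2`
-/

set_option autoImplicit false

open scoped Pointwise

noncomputable section

namespace Pool.Agent.DI.D

open Pool.Agent.MuZ Pool.Agent.FW Pool.Agent.DI Pool.Agent.DI.E

private theorem KDZ_int : IsIntegral ℤ wO := by
  refine ⟨Polynomial.X ^ 2 - Polynomial.X + Polynomial.C 2, ?_, ?_⟩
  · monicity!
  · rw [Polynomial.eval₂_add, Polynomial.eval₂_sub, Polynomial.eval₂_pow, Polynomial.eval₂_X,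
      Polynomial.eval₂_C, wO_sq]
    simp

private theorem KDZ_s7 : toO s7 = 2 * wO - 1 := by
  change ((-1 : ℤ) : Om) + ((2 : ℤ) : Om) * wO = 2 * wO - 1
  push_cast
  ring

/-- Addition formulas, algebra. -/
private theorem KDZ_add {r A B Z Z' : Om} (hr0 : r ≠ 0) (hr : r ^ 2 = -7)
    (h1 : ((r * A + 1 / 4) + (r * B + 1 / 4)) * ((r * Z + 1 / 4) - (r * Z' + 1 / 4)) ^ 2 =
      2 * (r * Z + 1 / 4) * (r * Z' + 1 / 4) * ((r * Z + 1 / 4) + (r * Z' + 1 / 4)) -
        3 * (r * Z + 1 / 4) * (r * Z' + 1 / 4) - 4 * ((r * Z + 1 / 4) + (r * Z' + 1 / 4)) - 4)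
    (h2 : (r * A + 1 / 4) * (r * B + 1 / 4) * ((r * Z + 1 / 4) - (r * Z' + 1 / 4)) ^ 2 =
      (r * Z + 1 / 4) ^ 2 * (r * Z' + 1 / 4) ^ 2 + 4 * (r * Z + 1 / 4) * (r * Z' + 1 / 4) +
        4 * ((r * Z + 1 / 4) + (r * Z' + 1 / 4)) + 1) :
    (A + B) * (Z - Z') ^ 2 = 2 * Z * Z' * (Z + Z') + 5 / 8 * (Z + Z') + -r / 8 ∧
      A * B * (Z - Z') ^ 2 =
        Z ^ 2 * Z' ^ 2 - 5 / 8 * Z * Z' - -r / 8 * (Z + Z') - -25 / 256 := by
  have k1 : (A + B) * (Z - Z') ^ 2 = 2 * Z * Z' * (Z + Z') + 5 / 8 * (Z + Z') + -r / 8 := by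
    refine mul_left_cancel₀ (pow_ne_zero 3 hr0) ?_
    linear_combination h1 + (-(5 / 8) * r * (Z + Z') + 1 / 8 * (r ^ 2 - 7)) * hr
  refine ⟨k1, ?_⟩
  refine mul_left_cancel₀ (pow_ne_zero 4 hr0) ?_
  linear_combination h2 - r ^ 3 / 4 * k1 + (5 / 8 * r ^ 2 * (Z * Z') -
    1 / 32 * r * (Z + Z') * (4 * r ^ 2 - 23) - 17 / 256 * (r ^ 2 - 7)) * hr

/-- Duplication, algebra. -/
private theorem KDZ_dbl {r A Z : Om} (hr0 : r ≠ 0) (hr : r ^ 2 = -7)
    (h : (r * A + 1 / 4) * (4 * (r * Z + 1 / 4) ^ 3 - 3 * (r * Z + 1 / 4) ^ 2 -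
      8 * (r * Z + 1 / 4) - 4) =
      (r * Z + 1 / 4) ^ 4 + 4 * (r * Z + 1 / 4) ^ 2 + 8 * (r * Z + 1 / 4) + 1) :
    A * (4 * Z ^ 3 + 0 * Z ^ 2 + 2 * (5 / 8) * Z + -r / 8) =
      Z ^ 4 - 5 / 8 * Z ^ 2 - 2 * (-r / 8) * Z - -25 / 256 := by
  refine mul_left_cancel₀ (pow_ne_zero 4 hr0) ?_
  linear_combination h - ((r * A + 1 / 4) * (-(5 / 4) * r * Z + 1 / 8 * (r ^ 2 - 7)) -
    (5 / 8 * r ^ 2 * Z ^ 2 - 1 / 16 * r * Z * (4 * r ^ 2 - 23) - 17 / 256 * (r ^ 2 - 7))) * hr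

/-- Multiplication by `w`, algebra. -/
private theorem KDZ_mulw {w A Z : Om} (hr0 : 2 * w - 1 ≠ 0) (hw : w ^ 2 = w - 2)
    (h : ((2 * w - 1) * A + 1 / 4) * (w ^ 2 * ((2 * w - 1) * Z + 1 / 4) - (1 - w)) =
      ((2 * w - 1) * Z + 1 / 4) ^ 2 - w) :
    A * (w ^ 2 * Z + (2 + w) / 4) = Z ^ 2 + -w / 4 * Z + -(1 - 3 * w) / 16 := by
  have e1 : w ^ 2 * ((2 * w - 1) * Z + 1 / 4) - (1 - w) =
      (2 * w - 1) * (w ^ 2 * Z + (2 + w) / 4) := by
    linear_combination (-(1 / 4) : Om) * hw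
  rw [e1] at h
  refine mul_left_cancel₀ (pow_ne_zero 2 hr0) ?_
  linear_combination h + ((2 * w - 1) / 4 * Z - 3 / 4 * w + 1 / 8) * hw

theorem tKDZ (hXOm : S_XOm) (hXPr : S_XPr) : S_KDZ := by
  classical
  intro Q hQ h2
  have hP : Q.IsPrime := hQ.1
  obtain ⟨hper, hneg, hadd, hdbl, hmul, hval, -⟩ := hXOm
  have hw : wO ^ 2 = wO - 2 := wO_sq
  have hr1 : toO s7 = 2 * wO - 1 := KDZ_s7
  have hr : toO s7 ^ 2 = -7 := by
    rw [hr1]
    linear_combination (4 : Om) * hw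
  have hr0 : toO s7 ≠ 0 := by
    intro h0
    rw [h0] at hr
    norm_num at hr
  have hx : ∀ z : ℂ, xO z = toO s7 * zO z + 1 / 4 := by
    intro z
    unfold zO
    field_simp
    ring
  have hV2 : VP Q (2 : Om) := by
    have := VP.nat (P := Q) 2
    exact_mod_cast this
  have hU2 : UP Q (2 : Om) := ⟨hV2, h2⟩
  have hVw : VP Q wO := VP.integral KDZ_int
  have hhalf : VP Q (2 : Om)⁻¹ := hU2.inv.1
  have hq : ∀ (y : Om) (k : ℕ), VP Q y → VP Q (y / 2 ^ k) := by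
    intro y k hy
    rw [div_eq_mul_inv, ← inv_pow]
    exact hy.mul (hhalf.pow k)
  have hn : ∀ n : ℤ, VP Q (n : Om) := VP.int
  have hr' : VP Q (toO s7) := by
    rw [hr1]
    exact (hV2.mul hVw).sub VP.one
  have hVwb : VP Q (1 - wO) := VP.one.sub hVw
  have hwwb : wO * (1 - wO) = 2 := by linear_combination (-1 : Om) * hw
  have hUw : UP Q wO := by
    refine ⟨hVw, fun h => h2 ?_⟩
    rw [← hwwb]
    exact MP.mul_right h hVwb
  have hUwb : UP Q (1 - wO) := by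
    refine ⟨hVwb, fun h => h2 ?_⟩
    rw [← hwwb]
    exact MP.mul_left hVw h
  have v4 : VP Q (5 / 8 : Om) := by
    have := hq _ 3 (hn 5)
    norm_num at this
    exact this
  have v6 : VP Q (-toO s7 / 8) := by
    have := hq _ 3 hr'.neg
    norm_num at this
    exact this
  have v8 : VP Q (-25 / 256 : Om) := by
    have := hq _ 8 (hn (-25))
    push_cast at this
    have e : (-25 / 256 : Om) = -25 / 2 ^ 8 := by norm_num
    rw [e]
    exact this
  have htwo : ∀ p : OO, p = pO ∨ p = pbO → VP Q (zO (1 / toC p)) := by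
    intro p hp
    rcases hp with rfl | rfl
    · have k := hval pO pbO (Or.inl ⟨rfl, rfl⟩)
      rw [toO_pO, toO_pbO, hx, hr1] at k
      have hw0 : wO ≠ 0 := hUw.ne_zero
      have e : zO (1 / toC pO) = -((2 + wO) / 2 ^ 2 * (wO⁻¹) ^ 2) := by
        have hr0' : 2 * wO - 1 ≠ 0 := by rw [← hr1]; exact hr0
        refine mul_left_cancel₀ hr0' ?_
        have k' : (2 * wO - 1) * zO (1 / toC pO) = (1 - wO) * (wO⁻¹) ^ 2 - 1 / 4 := by
          linear_combination k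
        rw [k']
        have hj := mul_inv_cancel₀ hw0
        linear_combination (wO⁻¹ ^ 2 / 4) * hw + 1 / 4 * (wO * wO⁻¹ + 1) * hj
      rw [e]
      exact ((hq _ 2 (hV2.add hVw)).mul (hUw.inv.1.pow 2)).neg
    · have k := hval pbO pO (Or.inr ⟨rfl, rfl⟩)
      rw [toO_pO, toO_pbO, hx, hr1] at k
      have hw0 : 1 - wO ≠ 0 := hUwb.ne_zero
      have e : zO (1 / toC pbO) = (3 - wO) / 2 ^ 2 * ((1 - wO)⁻¹) ^ 2 := by
        have hr0' : 2 * wO - 1 ≠ 0 := by rw [← hr1]; exact hr0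
        refine mul_left_cancel₀ hr0' ?_
        have k' : (2 * wO - 1) * zO (1 / toC pbO) = wO * ((1 - wO)⁻¹) ^ 2 - 1 / 4 := by
          have k2 : wO / (1 - wO) ^ 2 = wO * ((1 - wO)⁻¹) ^ 2 := by rw [div_eq_mul_inv, inv_pow]
          rw [k2] at k
          linear_combination k
        rw [k']
        have hj := mul_inv_cancel₀ hw0
        linear_combination ((1 - wO)⁻¹ ^ 2 / 4) * hw +
          1 / 4 * ((1 - wO) * (1 - wO)⁻¹ + 1) * hj
      have a := hn 3
      push_cast at a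
      rw [e]
      exact (hq _ 2 (a.sub hVw)).mul (hUwb.inv.1.pow 2)
  refine ⟨hQ, VP.zero, v4, v6, v8, ?_, ?_, ?_, ?_, ?_, ?_, ?_, ?_⟩
  · intro z v
    unfold zO
    rw [hper]
  · intro z
    unfold zO
    rw [hneg]
  · intro z z' hz hz' h1 h2 h3 h4
    obtain ⟨k1, k2⟩ := hadd z z' hz hz' h1 h2 h3 h4
    rw [hx (z + z'), hx (z - z'), hx z, hx z'] at k1 k2
    obtain ⟨q1, q2⟩ := KDZ_add hr0 hr k1 k2
    constructor
    · rw [q1]
      ring
    · rw [q2]
  · intro z hz h1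
    have k := hdbl z hz h1
    rw [hx (2 * z), hx z] at k
    exact KDZ_dbl hr0 hr k
  · intro t ht hG hF
    have k : -1 = (48 * t ^ 2 + 20) *
        (t ^ 4 - 5 / 8 * t ^ 2 - 2 * (-toO s7 / 8) * t - -25 / 256) -
        (12 * t ^ 3 - 25 / 4 * t + 27 / 8 * toO s7) *
        (4 * t ^ 3 + 0 * t ^ 2 + 2 * (5 / 8) * t + -toO s7 / 8) := by
      linear_combination (-(27 / 64) : Om) * hr
    have c1 : VP Q (48 * t ^ 2 + 20) := by
      have a := hn 48
      have b := hn 20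
      push_cast at a b
      exact (a.mul (ht.pow 2)).add b
    have c2 : VP Q (12 * t ^ 3 - 25 / 4 * t + 27 / 8 * toO s7) := by
      have a := hn 12
      have b := hq _ 2 (hn 25)
      have c := hq _ 3 (hn 27)
      norm_num at a b c
      exact ((a.mul (ht.pow 3)).sub (b.mul ht)).add (c.mul hr')
    have k2 : MP Q (-1) := by
      rw [k]
      exact (MP.mul_left c1 hF).sub (MP.mul_left c2 hG)
    have k3 := k2.neg
    rw [neg_neg] at k3
    exact MP.one_not k3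
  · refine ⟨wO ^ 2, (2 + wO) / 4, -wO / 4, -(1 - 3 * wO) / 16, hVw.pow 2, ?_, ?_, ?_, ?_⟩
    · have := hq _ 2 (hV2.add hVw)
      norm_num at this
      exact this
    · have := hq _ 2 hVw.neg
      norm_num at this
      exact this
    · have a := hn 3
      push_cast at a
      have := hq _ 4 (VP.one.sub (a.mul hVw)).neg
      norm_num at this ⊢
      exact this
    · intro z hz h1 h2
      have k := hmul pO pbO (Or.inl ⟨rfl, rfl⟩) z hz h1 (by rw [toC_pO]; exact h2)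
      rw [toC_pO, toO_pO, toO_pbO, hx (wC * z), hx z, hr1] at k
      exact KDZ_mulw (by rw [← hr1]; exact hr0) hw k
  · intro p hp _
    exact htwo p hp
  · intro α R hα hαM hR
    refine ⟨zO (1 / toC pbO), toO α ^ 2 * ∏ u ∈ R, (if Lat u then 1 else zO u - zO (1 / toC pbO)),
      ?_, ?_, rfl⟩
    · exact htwo pbO (Or.inr rfl)
    · have k := hXPr pO pbO (Or.inl ⟨rfl, rfl⟩) α R hα hR
      refine UP.of_pow (n := 2) (by norm_num) ?_
      have e1 : ∀ u ∈ R, (if Lat u then (1 : Om) else zO u - zO (1 / toC pbO)) =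
          (if Lat u then (1 : Om) else xO u - xO (1 / toC pbO)) *
            (if Lat u then (1 : Om) else (toO s7)⁻¹) := by
        intro u _
        split_ifs
        · rw [mul_one]
        · rw [hx u, hx (1 / toC pbO)]
          field_simp
          ring
      have e2 : (toO α ^ 2 * ∏ u ∈ R, (if Lat u then 1 else zO u - zO (1 / toC pbO))) ^ 2 =
          ∏ u ∈ R, (if Lat u then (1 : Om) else ((1 - wO)⁻¹) ^ 4) := by
        rw [Finset.prod_congr rfl e1, Finset.prod_mul_distrib, ← mul_assoc, mul_pow, k,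
          ← Finset.prod_pow, ← Finset.prod_mul_distrib]
        refine Finset.prod_congr rfl fun u _ => ?_
        split_ifs
        · ring
        · rw [toO_pbO, inv_pow, inv_pow, hr]
          field_simp
      rw [e2]
      refine UP.prod R _ fun u _ => ?_
      split_ifs
      · exact UP.one
      · exact hUwb.inv.pow 4

end Pool.Agent.DI.D
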