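import Pool.Agent.Lib.DI.D.SpecA

/-!
# Theorem DI, part D-A: the kernel of reduction is an `O`-submodule (module `KMul`)
-/

set_option autoImplicit false

open scoped Pointwise

noncomputable section

namespace Pool.Agent.DI.D

open Pool.Agent.MuZ Pool.Agent.FW Pool.Agent.DI Pool.Agent.DI.E

private theorem KMul_lat {Q : Ideal ZZ} {x : ℂ → Om} {z : ℂ} (hz : Lat z) : IK Q x z := by
  refine ⟨?_, Or.inl hz⟩
  obtain ⟨v, rfl⟩ := hz
  exact ⟨v, 1, one_pos, by simp⟩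

private theorem KMul_neg {Q : Ideal ZZ} {x : ℂ → Om} {b2 b4 b6 b8 : Om} (kd : KD Q x b2 b4 b6 b8)
    {z : ℂ} (hz : IK Q x z) : IK Q x (-z) := by
  obtain ⟨tz, h⟩ := hz
  refine ⟨tor_neg tz, ?_⟩
  rcases h with h | h
  · exact Or.inl (lat_neg h)
  · right
    rw [kd.neg]
    exact h

private theorem KMul_nat (hSub : S_KSub) {Q : Ideal ZZ} {x : ℂ → Om} {b2 b4 b6 b8 : Om}
    (kd : KD Q x b2 b4 b6 b8) {z : ℂ} (hz : IK Q x z) (n : ℕ) : IK Q x ((n : ℂ) * z) := by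
  induction n with
  | zero =>
    rw [Nat.cast_zero, zero_mul]
    exact KMul_lat lat_zero
  | succ n ih =>
    rw [Nat.cast_succ, add_mul, one_mul]
    exact hSub Q x b2 b4 b6 b8 kd _ _ ih hz

private theorem KMul_int (hSub : S_KSub) {Q : Ideal ZZ} {x : ℂ → Om} {b2 b4 b6 b8 : Om}
    (kd : KD Q x b2 b4 b6 b8) {z : ℂ} (hz : IK Q x z) (m : ℤ) : IK Q x ((m : ℂ) * z) := by
  rcases Int.eq_nat_or_neg m with ⟨n, rfl | rfl⟩
  · rw [Int.cast_natCast]
    exact KMul_nat hSub kd hz n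
  · rw [Int.cast_neg, Int.cast_natCast, neg_mul]
    exact KMul_neg kd (KMul_nat hSub kd hz n)

private theorem KMul_w {Q : Ideal ZZ} {x : ℂ → Om} {b2 b4 b6 b8 : Om}
    (kd : KD Q x b2 b4 b6 b8) {z : ℂ} (hz : IK Q x z) : IK Q x (wC * z) := by
  have hP : Q.IsPrime := kd.pr.1
  obtain ⟨tz, h⟩ := hz
  have tw : Tor (wC * z) := by
    rw [← toC_pO]
    exact tor_mul pO tz
  refine ⟨tw, ?_⟩
  by_cases lz : Lat z
  · left
    rw [← toC_pO]
    exact lat_mul pO lz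
  by_cases lw : Lat (wC * z)
  · exact Or.inl lw
  right
  intro vs
  have vz : ¬ VP Q (x z) := by
    rcases h with h | h
    · exact absurd h lz
    · exact h
  obtain ⟨c1, c2, c3, c4, v1, v2, v3, v4, hw⟩ := kd.mulw
  have h1 := hw z tz lz lw
  obtain ⟨hx0, hm⟩ := VP.not_iff.1 vz
  have hone : (1 : Om) =
      (x (wC * z) * c1 - c3) * (x z)⁻¹ + (x (wC * z) * c2 - c4) * ((x z)⁻¹ * (x z)⁻¹) := by
    have e : x z * (x z)⁻¹ = 1 := mul_inv_cancel₀ hx0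
    have e2 : x z ^ 2 * ((x z)⁻¹ * (x z)⁻¹) = 1 := by
      rw [pow_two]
      calc x z * x z * ((x z)⁻¹ * (x z)⁻¹) = (x z * (x z)⁻¹) * (x z * (x z)⁻¹) := by ring
        _ = 1 := by rw [e, one_mul]
    have e3 : x z * ((x z)⁻¹ * (x z)⁻¹) = (x z)⁻¹ := by
      rw [← mul_assoc, e, one_mul]
    linear_combination (-((x z)⁻¹ * (x z)⁻¹)) * h1 - e2 + (x (wC * z) * c1 - c3) * e3
  apply MP.one_not (P := Q)
  rw [hone]
  exact MP.add (MP.mul_left (VP.sub (VP.mul vs v1) v3) hm)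
    (MP.mul_left (VP.sub (VP.mul vs v2) v4) (MP.mul_left hm.vp hm))

/-- **The kernel is an `O`-submodule.** -/
theorem tKMul (hSub : S_KSub) : S_KMul := by
  intro Q x b2 b4 b6 b8 kd
  refine ⟨fun z hz => KMul_lat hz, fun v z hz => ?_⟩
  have e : toC v * z = (v.re : ℂ) * z + (v.im : ℂ) * (wC * z) := by
    rw [toC_apply]
    ring
  rw [e]
  exact hSub Q x b2 b4 b6 b8 kd _ _ (KMul_int hSub kd hz v.re)
    (KMul_int hSub kd (KMul_w kd hz) v.im)

end Pool.Agent.DI.D
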