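import Pool.Agent.Lib.DI.D.SpecA

/-!
# Theorem DI, part D-A: the kernel has only `Q`-primary torsion (`S_KQp`)
-/

set_option autoImplicit false

open scoped Pointwise

noncomputable section

namespace Pool.Agent.DI.D

open Pool.Agent.MuZ Pool.Agent.FW Pool.Agent.DI Pool.Agent.DI.E

private theorem KQp_int : IsIntegral ℤ wO := by
  refine ⟨Polynomial.X ^ 2 - Polynomial.X + 2, ?_, ?_⟩
  · monicity!
  · simp only [Polynomial.eval₂_add, Polynomial.eval₂_sub, Polynomial.eval₂_pow,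
      Polynomial.eval₂_X, Polynomial.eval₂_ofNat, wO_sq]
    ring

private theorem KQp_vpO {Q : Ideal ZZ} (hQ : Q.IsPrime) (v : OO) : VP Q (toO v) := by
  change VP Q ((v.re : Om) + v.im * wO)
  exact (VP.int v.re).add ((VP.int v.im).mul (VP.integral KQp_int))

private theorem KQp_lat_of_sub {z u : ℂ} (h : Lat (z - u)) (hu : Lat u) : Lat z := by
  have h1 := lat_add h hu
  rwa [sub_add_cancel] at h1

/-- The case of an annihilator prime to `2`. -/
private theorem KQp_odd (hSub : S_KSub) (hMul : S_KMul) (hUEx : S_UEx) {Q : Ideal ZZ}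
    {x : ℂ → Om} {b2 b4 b6 b8 : Om} (K : KD Q x b2 b4 b6 b8) {z' : ℂ} (hz' : IK Q x z') {δ : OO}
    (hδ0 : δ ≠ 0) (hδL : Lat (toC δ * z'))
    (hδu : ∀ u : ℂ, Lat (toC δ * u) → ∃ v : OO, Lat (u - toC v * z'))
    (hδm : ¬ MP Q (toO δ)) (hcop : IsCoprime δ 2) : Lat z' := by
  classical
  have hP : Q.IsPrime := K.pr.1
  by_contra hnl
  obtain ⟨hM0, hM1⟩ := hMul Q x b2 b4 b6 b8 K
  obtain ⟨R, hR⟩ := hUEx.1 δ hδ0
  obtain ⟨e, c, he, hc, hceq⟩ := K.prod δ R hcop hδm hR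
  have hker : ∀ u ∈ R, IK Q x u := by
    intro u hu
    obtain ⟨v, hv⟩ := hδu u (hR.mem u hu)
    have h1 := hSub Q x b2 b4 b6 b8 K (u - toC v * z') (toC v * z') (hM0 _ hv) (hM1 v z' hz')
    rwa [sub_add_cancel] at h1
  have hm : ∀ u ∈ R, ¬ Lat u → MP Q (x u - e)⁻¹ := by
    intro u hu hl
    have h1 : ¬ VP Q (x u) := (hker u hu).2.resolve_left hl
    have h2 : ¬ VP Q (x u - e) := by
      intro h3
      apply h1
      have h4 := h3.add he
      rwa [sub_add_cancel] at h4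
    exact (VP.not_iff.1 h2).2
  obtain ⟨u₀, hu₀, hlu₀⟩ := hR.ex z' hδL
  have hn₀ : ¬ Lat u₀ := fun h => hnl (KQp_lat_of_sub hlu₀ h)
  have hg : ∀ u ∈ R, VP Q (if Lat u then 1 else x u - e : Om)⁻¹ := by
    intro u hu
    by_cases hl : Lat u
    · rw [if_pos hl, inv_one]
      exact VP.one
    · rw [if_neg hl]
      exact (hm u hu hl).vp
  have hg₀ : MP Q (if Lat u₀ then 1 else x u₀ - e : Om)⁻¹ := by
    rw [if_neg hn₀]
    exact hm u₀ hu₀ hn₀
  have hδV : VP Q (toO δ ^ 2)⁻¹ := by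
    have h1 : UP Q (toO δ) := ⟨KQp_vpO hP δ, hδm⟩
    exact (h1.pow 2).inv.1
  have hcinv : c⁻¹ = (toO δ ^ 2)⁻¹ * ((if Lat u₀ then 1 else x u₀ - e : Om)⁻¹ *
      ∏ u ∈ R.erase u₀, (if Lat u then 1 else x u - e : Om)⁻¹) := by
    rw [Finset.mul_prod_erase R (fun u => (if Lat u then 1 else x u - e : Om)⁻¹) hu₀,
      Finset.prod_inv_distrib, ← mul_inv, hceq]
  have h5 : MP Q c⁻¹ := by
    rw [hcinv]
    refine MP.mul_left hδV (MP.mul_right hg₀ (VP.prod _ _ ?_))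
    intro u hu
    exact hg u (Finset.mem_of_mem_erase hu)
  exact hc.inv.2 h5

/-- The case of an annihilator divisible by a prime above `2`. -/
private theorem KQp_even (hMul : S_KMul) (hUCop : S_UCop) {Q : Ideal ZZ}
    {x : ℂ → Om} {b2 b4 b6 b8 : Om} (K : KD Q x b2 b4 b6 b8) {z' : ℂ} (hz' : IK Q x z') {δ : OO}
    (hδ0 : δ ≠ 0) (hδL : Lat (toC δ * z')) (hδd : ∀ β : OO, Lat (toC β * z') → δ ∣ β)
    (hδm : ¬ MP Q (toO δ)) (p : OO) (hp : p = pO ∨ p = pbO) (hpδ : p ∣ δ) : False := by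
  have hP : Q.IsPrime := K.pr.1
  obtain ⟨hM0, hM1⟩ := hMul Q x b2 b4 b6 b8 K
  obtain ⟨δ', hδ'⟩ := hpδ
  have hNp : Nm p = 2 := by
    rcases hp with rfl | rfl <;> simp [Nm, pO, pbO]
  have hp0 : p ≠ 0 := by
    rintro rfl
    simp [Nm] at hNp
  have hδ'0 : δ' ≠ 0 := by
    rintro rfl
    exact hδ0 (by rw [hδ', mul_zero])
  have hpm : ¬ MP Q (toO p) := by
    intro h
    apply hδm
    rw [hδ', map_mul]
    exact MP.mul_right h (KQp_vpO hP δ')
  have hz2 : IK Q x (toC δ' * z') := hM1 δ' z' hz'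
  have hL2 : Lat (toC p * (toC δ' * z')) := by
    rw [← mul_assoc, ← map_mul, ← hδ']
    exact hδL
  have hn2 : ¬ Lat (toC δ' * z') := by
    intro h
    obtain ⟨k, hk⟩ := hδd δ' h
    have h1 : toC δ' * 1 = toC δ' * (toC p * toC k) := by
      have h2 := congrArg toC hk
      rw [hδ', map_mul, map_mul] at h2
      rw [mul_one]
      calc toC δ' = toC p * toC δ' * toC k := h2
        _ = toC δ' * (toC p * toC k) := by ring
    have h3 := mul_left_cancel₀ (toC_ne hδ'0) h1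
    have h4 : p * k = 1 := by
      apply toC_inj
      rw [map_mul, map_one]
      exact h3.symm
    have h5 := congrArg Nm h4
    rw [Nm_mul, Nm_one, hNp] at h5
    omega
  obtain ⟨s, hs⟩ := hL2
  have hps : ¬ p ∣ s := by
    rintro ⟨s', hs'⟩
    apply hn2
    refine ⟨s', mul_left_cancel₀ (toC_ne hp0) ?_⟩
    rw [hs, hs', map_mul]
  have hps1 : p ∣ s - 1 := by
    obtain ⟨-, -, -, -, -, -, -, hd⟩ := hUCop
    have hre : (s - 1).re = s.re - 1 := by
      rw [QuadraticAlgebra.re_sub, re_one]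
    have him : (s - 1).im = s.im := by
      rw [QuadraticAlgebra.im_sub, im_one, sub_zero]
    rcases hp with rfl | rfl
    · rw [(hd _).1] at hps ⊢
      rw [hre]
      omega
    · rw [(hd _).2] at hps ⊢
      rw [hre, him]
      omega
  obtain ⟨k, hk⟩ := hps1
  have hz3 : toC δ' * z' = 1 / toC p + toC k := by
    apply mul_left_cancel₀ (toC_ne hp0)
    rw [hs, mul_add, mul_one_div_cancel (toC_ne hp0), ← map_mul, ← hk, map_sub, map_one]
    ring
  have hx : x (toC δ' * z') = x (1 / toC p) := by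
    rw [hz3, K.per]
  have hV := K.two p hp hpm
  rw [← hx] at hV
  rcases hz2.2 with h | h
  · exact hn2 h
  · exact h hV

theorem tKQp (hSub : S_KSub) (hMul : S_KMul) (hAnn : S_KAnn) (hUCop : S_UCop) (hUEx : S_UEx) :
    S_KQp := by
  intro Q x b2 b4 b6 b8 K z hz α β hα hL
  have hP : Q.IsPrime := K.pr.1
  have hz' : IK Q x (toC β * z) := (hMul Q x b2 b4 b6 b8 K).2 β z hz
  have hL' : Lat (toC α * (toC β * z)) := by
    rw [← mul_assoc, ← map_mul]
    exact hL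
  obtain ⟨δ, hδ0, hδL, hδd, hδu⟩ := hAnn (toC β * z) hz'.1
  obtain ⟨γ, hγ⟩ := hδd α hL'
  have hδm : ¬ MP Q (toO δ) := by
    intro h
    apply hα
    rw [hγ, map_mul]
    exact MP.mul_right h (KQp_vpO hP γ)
  by_cases hcop : IsCoprime δ 2
  · exact KQp_odd hSub hMul hUEx K hz' hδ0 hδL hδu hδm hcop
  · exfalso
    have hdd : pO ∣ δ ∨ pbO ∣ δ := by
      by_contra hcon
      rw [not_or] at hcon
      apply hcop
      obtain ⟨-, -, -, -, -, h6, h7, -⟩ := hUCop
      exact (h7 δ).2 ((h6 δ).2 hcon)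
    rcases hdd with h | h
    · exact KQp_even hMul hUCop K hz' hδ0 hδL hδd hδm pO (Or.inl rfl) h
    · exact KQp_even hMul hUCop K hz' hδ0 hδL hδd hδm pbO (Or.inr rfl) h

end Pool.Agent.DI.D
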