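import Pool.Agent.Lib.DI.D.SpecA

/-!
# Theorem DI, part D-A: injectivity of the reduction (module `KSep`)
-/

set_option autoImplicit false

open scoped Pointwise

noncomputable section

namespace Pool.Agent.DI.D

open Pool.Agent.MuZ Pool.Agent.FW Pool.Agent.DI Pool.Agent.DI.E

private theorem KSep_not {Q : Ideal ZZ} {x : ℂ → Om} {z : ℂ} (hz : Tor z) (h : ¬ IK Q x z) :
    ¬ Lat z ∧ VP Q (x z) := by
  constructor
  · intro h1
    exact h ⟨hz, Or.inl h1⟩
  · by_contra h1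
    exact h ⟨hz, Or.inr h1⟩

/-- **The reduction is injective modulo the sign and the kernel.** -/
theorem tKSep : S_KSep := by
  intro Q x b2 b4 b6 b8 kd z z' tz tz' nz nz' hm
  have hP : Q.IsPrime := kd.pr.1
  by_contra hcon
  rw [not_or] at hcon
  obtain ⟨ha, hb⟩ := hcon
  obtain ⟨lz, vz⟩ := KSep_not tz nz
  obtain ⟨lz', vz'⟩ := KSep_not tz' nz'
  obtain ⟨la, va⟩ := KSep_not (tor_add tz tz') ha
  obtain ⟨lb, vb⟩ := KSep_not (tor_sub tz tz') hb
  obtain ⟨h1, h2⟩ := kd.add z z' tz tz' lz lz' la lb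
  have v2 : VP Q (2 : Om) := VP.nat 2
  have v6 : VP Q (6 : Om) := VP.nat 6
  have hD2 : MP Q ((x z - x z') ^ 2) := by
    rw [pow_two]
    exact MP.mul_left hm.vp hm
  have hG : MP Q (4 * x z ^ 3 + b2 * x z ^ 2 + 2 * b4 * x z + b6) := by
    have e : 4 * x z ^ 3 + b2 * x z ^ 2 + 2 * b4 * x z + b6 =
        (x (z + z') + x (z - z')) * (x z - x z') ^ 2 +
          (6 * x z ^ 2 - 2 * x z * (x z - x z') + b2 * x z + b4) * (x z - x z') := by
      linear_combination -h1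
    rw [e]
    refine MP.add (MP.mul_left (va.add vb) hD2) (MP.mul_left ?_ hm)
    exact VP.add (VP.add (VP.sub (VP.mul v6 (vz.pow 2)) (VP.mul (VP.mul v2 vz) (VP.sub vz vz')))
      (VP.mul kd.v2 vz)) kd.v4
  refine kd.bez (x z) vz hG ?_
  have e : x z ^ 4 - b4 * x z ^ 2 - 2 * b6 * x z - b8 =
      (x (z + z') * x (z - z')) * (x z - x z') ^ 2 +
        (2 * x z ^ 3 - x z ^ 2 * (x z - x z') - b4 * x z - b6) * (x z - x z') := by
    linear_combination -h2
  rw [e]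
  refine MP.add (MP.mul_left (va.mul vb) hD2) (MP.mul_left ?_ hm)
  exact VP.sub (VP.sub (VP.sub (VP.mul v2 (vz.pow 3)) (VP.mul (vz.pow 2) (VP.sub vz vz')))
    (VP.mul kd.v4 vz)) kd.v6

end Pool.Agent.DI.D
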