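import Pool.Agent.Lib.DI.D.SpecA

set_option autoImplicit false

open scoped Pointwise

noncomputable section

namespace Pool.Agent.DI.D

open Pool.Agent.MuZ Pool.Agent.FW Pool.Agent.DI Pool.Agent.DI.E

/-- The case of a lattice point. -/
private theorem KSub_lat {Q : Ideal ZZ} {x : ℂ → Om} {b2 b4 b6 b8 : Om} (K : KD Q x b2 b4 b6 b8)
    {z z' : ℂ} (hz : Lat z) (hz' : IK Q x z') (ht : Tor (z + z')) : IK Q x (z + z') := by
  refine ⟨ht, ?_⟩
  obtain ⟨v, rfl⟩ := hz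
  rcases hz'.2 with h | h
  · exact Or.inl (lat_add (lat_toC v) h)
  · right
    rw [add_comm, K.per]
    exact h

/-- Everything with two non lattice points. -/
private theorem KSub_dbl {Q : Ideal ZZ} [hP : Q.IsPrime] {b2 b4 b6 b8 X s : Om}
    (v2 : VP Q b2) (v4 : VP Q b4) (v6 : VP Q b6) (v8 : VP Q b8) (hX : ¬ VP Q X)
    (h : s * (4 * X ^ 3 + b2 * X ^ 2 + 2 * b4 * X + b6) =
      X ^ 4 - b4 * X ^ 2 - 2 * b6 * X - b8) : ¬ VP Q s := by
  intro hs
  obtain ⟨h0, ha⟩ := VP.not_iff.1 hX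
  set a : Om := X⁻¹ with hadef
  have hXa : X * a = 1 := mul_inv_cancel₀ h0
  have hav := ha.vp
  have h4 : VP Q (4 : Om) := by exact_mod_cast VP.nat (P := Q) 4
  have h2 : VP Q (2 : Om) := by exact_mod_cast VP.nat (P := Q) 2
  have h1 : (1 : Om) = s * (a * (4 + b2 * a + 2 * b4 * a ^ 2 + b6 * a ^ 3)) +
      a * (b4 * a + 2 * b6 * a ^ 2 + b8 * a ^ 3) := by
    have e1 : X ^ 4 * a ^ 4 = 1 := by rw [← mul_pow, hXa, one_pow]
    have e2 : X ^ 3 * a ^ 4 = a := by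
      calc X ^ 3 * a ^ 4 = (X * a) ^ 3 * a := by ring
        _ = a := by rw [hXa]; ring
    have e3 : X ^ 2 * a ^ 4 = a ^ 2 := by
      calc X ^ 2 * a ^ 4 = (X * a) ^ 2 * a ^ 2 := by ring
        _ = a ^ 2 := by rw [hXa]; ring
    have e4 : X * a ^ 4 = a ^ 3 := by
      calc X * a ^ 4 = (X * a) * a ^ 3 := by ring
        _ = a ^ 3 := by rw [hXa]; ring
    have h5 := congrArg (fun t => t * a ^ 4) h
    linear_combination -h5 - e1 + 4 * s * e2 + s * b2 * e3 + 2 * s * b4 * e4 + b4 * e3 + 2 * b6 * e4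
  apply MP.one_not (P := Q)
  rw [h1]
  refine MP.add (MP.mul_left hs (MP.mul_right ha ?_)) (MP.mul_right ha ?_)
  · exact (((h4.add (v2.mul hav)).add ((h2.mul v4).mul (hav.pow 2))).add (v6.mul (hav.pow 3)))
  · exact (((v4.mul hav).add ((h2.mul v6).mul (hav.pow 2))).add (v8.mul (hav.pow 3)))

private theorem KSub_add {Q : Ideal ZZ} [hP : Q.IsPrime] {b2 b4 b6 b8 X X' s t : Om}
    (v2 : VP Q b2) (v4 : VP Q b4) (v6 : VP Q b6) (v8 : VP Q b8) (hX : ¬ VP Q X) (hX' : ¬ VP Q X')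
    (h : (s + t) * (X - X') ^ 2 = 2 * X * X' * (X + X') + b2 * X * X' + b4 * (X + X') + b6)
    (h' : s * t * (X - X') ^ 2 = X ^ 2 * X' ^ 2 - b4 * X * X' - b6 * (X + X') - b8) :
    ¬ VP Q s := by
  intro hs
  obtain ⟨h0, ha⟩ := VP.not_iff.1 hX
  obtain ⟨h0', hb⟩ := VP.not_iff.1 hX'
  set a : Om := X⁻¹ with hadef
  set b : Om := X'⁻¹ with hbdef
  have hXa : X * a = 1 := mul_inv_cancel₀ h0
  have hXb : X' * b = 1 := mul_inv_cancel₀ h0'
  have hav := ha.vp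
  have hbv := hb.vp
  have h2 : VP Q (2 : Om) := by exact_mod_cast VP.nat (P := Q) 2
  have e1 : (X - X') ^ 2 * (a ^ 2 * b ^ 2) = (b - a) ^ 2 := by
    calc (X - X') ^ 2 * (a ^ 2 * b ^ 2) = ((X * a) * b - (X' * b) * a) ^ 2 := by ring
      _ = (b - a) ^ 2 := by rw [hXa, hXb]; ring
  have e2 : (s + t) * (b - a) ^ 2 = 2 * (a + b) + b2 * a * b + b4 * a * b * (a + b) +
      b6 * a ^ 2 * b ^ 2 := by
    calc (s + t) * (b - a) ^ 2 = ((s + t) * (X - X') ^ 2) * (a ^ 2 * b ^ 2) := by rw [← e1]; ring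
      _ = 2 * (X * a) * (X' * b) * ((X * a) * b + (X' * b) * a) + b2 * (X * a) * (X' * b) * a * b
        + b4 * ((X * a) * b + (X' * b) * a) * a * b + b6 * a ^ 2 * b ^ 2 := by rw [h]; ring
      _ = _ := by rw [hXa, hXb]; ring
  have e3 : s * t * (b - a) ^ 2 = 1 - (b4 * a * b + b6 * a * b * (a + b) +
      b8 * a ^ 2 * b ^ 2) := by
    calc s * t * (b - a) ^ 2 = (s * t * (X - X') ^ 2) * (a ^ 2 * b ^ 2) := by rw [← e1]; ring
      _ = (X * a) ^ 2 * (X' * b) ^ 2 - b4 * (X * a) * (X' * b) * a * b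
        - b6 * ((X * a) * b + (X' * b) * a) * a * b - b8 * a ^ 2 * b ^ 2 := by rw [h']; ring
      _ = _ := by rw [hXa, hXb]; ring
  have hn : MP Q (2 * (a + b) + b2 * a * b + b4 * a * b * (a + b) + b6 * a ^ 2 * b ^ 2) := by
    refine MP.add (MP.add (MP.add (MP.mul_left h2 (ha.add hb)) ?_) ?_) ?_
    · exact MP.mul_right (MP.mul_left v2 ha) hbv
    · exact MP.mul_right (MP.mul_right (MP.mul_left v4 ha) hbv) (hav.add hbv)
    · rw [pow_two a, show b6 * (a * a) * b ^ 2 = (b6 * a * b ^ 2) * a by ring]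
      exact MP.mul_left ((v6.mul hav).mul (hbv.pow 2)) ha
  have hn' : MP Q (b4 * a * b + b6 * a * b * (a + b) + b8 * a ^ 2 * b ^ 2) := by
    refine MP.add (MP.add ?_ ?_) ?_
    · exact MP.mul_right (MP.mul_left v4 ha) hbv
    · exact MP.mul_right (MP.mul_right (MP.mul_left v6 ha) hbv) (hav.add hbv)
    · rw [pow_two a, show b8 * (a * a) * b ^ 2 = (b8 * a * b ^ 2) * a by ring]
      exact MP.mul_left ((v8.mul hav).mul (hbv.pow 2)) ha
  have hq : MP Q ((b - a) ^ 2) := by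
    rw [pow_two]
    exact MP.mul_right (hb.sub ha) (hbv.sub hav)
  have h3 : (1 : Om) = s * ((2 * (a + b) + b2 * a * b + b4 * a * b * (a + b) +
      b6 * a ^ 2 * b ^ 2) - s * (b - a) ^ 2) + (b4 * a * b + b6 * a * b * (a + b) +
      b8 * a ^ 2 * b ^ 2) := by
    linear_combination s * e2 - e3
  apply MP.one_not (P := Q)
  rw [h3]
  exact MP.add (MP.mul_left hs (hn.sub (MP.mul_left hs hq))) hn'

/-- **The kernel is closed under addition.** -/
theorem tKSub : S_KSub := by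
  intro Q x b2 b4 b6 b8 K z z' hz hz'
  have hP : Q.IsPrime := K.pr.1
  have ht : Tor (z + z') := tor_add hz.1 hz'.1
  by_cases hl : Lat z
  · exact KSub_lat K hl hz' ht
  by_cases hl' : Lat z'
  · rw [add_comm] at ht ⊢
    exact KSub_lat K hl' hz ht
  refine ⟨ht, ?_⟩
  by_cases hs : Lat (z + z')
  · exact Or.inl hs
  right
  have hX : ¬ VP Q (x z) := hz.2.resolve_left hl
  have hX' : ¬ VP Q (x z') := hz'.2.resolve_left hl'
  by_cases hd : Lat (z - z')
  · obtain ⟨v, hv⟩ := hd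
    have e : z + z' = 2 * z + toC (-v) := by
      rw [map_neg, ← hv]
      ring
    have h2 : ¬ Lat (2 * z) := by
      intro h
      apply hs
      rw [e]
      exact lat_add h (lat_toC _)
    rw [e, K.per]
    exact KSub_dbl K.v2 K.v4 K.v6 K.v8 hX (K.dbl z hz.1 h2)
  · obtain ⟨h1, h2⟩ := K.add z z' hz.1 hz'.1 hl hl' hs hd
    exact KSub_add K.v2 K.v4 K.v6 K.v8 hX hX' h1 h2

end Pool.Agent.DI.D
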