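import Pool.Agent.Lib.DI.D.SpecA

/-!
# Theorem DI, part D-A: the formulas of the Kummer line for `X`, over `ℂ` (`S_XAdd`)
-/

set_option autoImplicit false

open scoped Pointwise

noncomputable section

namespace Pool.Agent.DI.D

open Pool.Agent.MuZ Pool.Agent.FW Pool.Agent.DI Pool.Agent.DI.E

/-- The algebra of the first part. -/
private theorem XAdd_alg {X X' Y Y' l l' : ℂ} (hd : X - X' ≠ 0)
    (E : Y ^ 2 + X * Y = X ^ 3 - X ^ 2 - 2 * X - 1)
    (E' : Y' ^ 2 + X' * Y' = X' ^ 3 - X' ^ 2 - 2 * X' - 1)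
    (hl : l * (X - X') = Y - Y') (hl' : l' * (X - X') = Y + Y' + X') :
    ((l ^ 2 + l + 1 - X - X') + (l' ^ 2 + l' + 1 - X - X')) * (X - X') ^ 2 =
      2 * X * X' * (X + X') - 3 * X * X' - 4 * (X + X') - 4 ∧
    (l ^ 2 + l + 1 - X - X') * (l' ^ 2 + l' + 1 - X - X') * (X - X') ^ 2 =
      X ^ 2 * X' ^ 2 + 4 * X * X' + 4 * (X + X') + 1 := by
  constructor
  · have e : ((l ^ 2 + l + 1 - X - X') + (l' ^ 2 + l' + 1 - X - X')) * (X - X') ^ 2 =
        (l * (X - X')) ^ 2 + l * (X - X') * (X - X') + (l' * (X - X')) ^ 2 +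
          l' * (X - X') * (X - X') + 2 * (1 - X - X') * (X - X') ^ 2 := by ring
    rw [e, hl, hl']
    linear_combination 2 * E + 2 * E'
  · obtain ⟨s, hs⟩ : ∃ s : ℂ, s = (l + l') * (X - X') := ⟨_, rfl⟩
    obtain ⟨p, hp⟩ : ∃ p : ℂ, p = l * l' * (X - X') := ⟨_, rfl⟩
    have hs1 : s = 2 * Y + X' := by
      rw [hs, add_mul, hl, hl']
      ring
    have hp1 : p = X ^ 2 + X * X' + X' ^ 2 - X - X' - 2 - Y := by
      apply mul_right_cancel₀ hd
      have h1 : p * (X - X') = (l * (X - X')) * (l' * (X - X')) := by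
        rw [hp]
        ring
      rw [h1, hl, hl']
      linear_combination E - E'
    have e : (l ^ 2 + l + 1 - X - X') * (l' ^ 2 + l' + 1 - X - X') * (X - X') ^ 2 =
        p ^ 2 + p * s + (1 - X - X') * (s ^ 2 - 2 * p * (X - X')) + p * (X - X') +
          (1 - X - X') * s * (X - X') + (1 - X - X') ^ 2 * (X - X') ^ 2 := by
      rw [hs, hp]
      ring
    rw [e, hs1, hp1]
    linear_combination (3 - 4 * X - 4 * X') * E

/-- **The formulas of the Kummer line for `X`, over `ℂ`.** -/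
theorem tXAdd (hB1 : S_B1) (hB2 : S_B2) (hB3 : S_B3) (hB4 : S_B4) (hB5 : S_B5) : S_XAdd := by
  constructor
  · intro z z' hz hz' hp hm
    have hz'' : ¬ Lat (-z') := fun h => hz' (lat_neg_iff.1 h)
    have hne : XC z ≠ XC z' := by
      intro h
      rcases (hB3.1 z z' hz hz').1 h with h | h
      · exact hm h
      · exact hp h
    have hd : XC z - XC z' ≠ 0 := sub_ne_zero.2 hne
    obtain ⟨hX, hY, -⟩ := hB2.2 z'
    obtain ⟨l, hl⟩ : ∃ l : ℂ, l = (YC z - YC z') / (XC z - XC z') := ⟨_, rfl⟩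
    obtain ⟨l', hl'⟩ : ∃ l' : ℂ, l' = (YC z - YC (-z')) / (XC z - XC (-z')) := ⟨_, rfl⟩
    have h1 := (hB4 z z' hz hz' hne l hl).1
    have h2 := (hB4 z (-z') hz hz'' (by rw [hX]; exact hne) l' hl').1
    rw [← sub_eq_add_neg, hX] at h2
    rw [h1, h2]
    refine XAdd_alg hd (hB1 z hz) (hB1 z' hz') ?_ ?_
    · rw [hl, div_mul_cancel₀ _ hd]
    · rw [hl', hX, hY, div_mul_cancel₀ _ hd]
      ring
  · intro z h2
    have hz : ¬ Lat z := by
      intro h
      apply h2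
      rw [two_mul]
      exact lat_add h h
    have hd : 2 * YC z + XC z ≠ 0 := fun h => h2 ((hB3.2.1 z hz).1 h)
    have E := hB1 z hz
    obtain ⟨l, hl⟩ : ∃ l : ℂ, l = (3 * XC z ^ 2 - 2 * XC z - 2 - YC z) / (2 * YC z + XC z) := ⟨_, rfl⟩
    have h1 := (hB5 z hz h2 l hl).1
    have hl1 : l * (2 * YC z + XC z) = 3 * XC z ^ 2 - 2 * XC z - 2 - YC z := by
      rw [hl, div_mul_cancel₀ _ hd]
    have hq : 4 * XC z ^ 3 - 3 * XC z ^ 2 - 8 * XC z - 4 = (2 * YC z + XC z) ^ 2 := by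
      linear_combination (-4) * E
    have e : (l ^ 2 + l + 1 - 2 * XC z) * (2 * YC z + XC z) ^ 2 =
        (l * (2 * YC z + XC z)) ^ 2 + l * (2 * YC z + XC z) * (2 * YC z + XC z) +
          (1 - 2 * XC z) * (2 * YC z + XC z) ^ 2 := by ring
    rw [h1, hq, e, hl1]
    linear_combination (3 - 8 * XC z) * E

end Pool.Agent.DI.D
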