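import Pool.Agent.Lib.DI.D.SpecA

/-!
# Theorem DI, part D-A, module XOm: the formulas of the Kummer line in `Om`
-/

set_option autoImplicit false

open scoped Pointwise

noncomputable section

namespace Pool.Agent.DI.D

open Pool.Agent.MuZ Pool.Agent.FW Pool.Agent.DI Pool.Agent.DI.E

private theorem XOm_pr {a b : OO} (h : Pr2 a b) :
    (toC a = wC ∧ toC b = wbC) ∨ (toC a = wbC ∧ toC b = wC) := by
  rcases h with ⟨rfl, rfl⟩ | ⟨rfl, rfl⟩
  · exact Or.inl ⟨toC_pO, toC_pbO⟩
  · exact Or.inr ⟨toC_pbO, toC_pO⟩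

theorem tXOm (hA0 : S_A0) (hB2 : S_B2) (hB6 : S_B6) (hB7 : S_B7) (hXAdd : S_XAdd) : S_XOm := by
  have ix : ∀ z : ℂ, Tor z → io (xO z) = XC z := fun z hz => (hA0 z hz).1
  refine ⟨fun z v => ?_, fun z => ?_, fun z z' hz hz' hL hL' hp hm => ?_, fun z hz hL => ?_,
    fun a b hab z hz hL hL' => ?_, fun a b hab => ?_, ?_⟩
  · unfold xO
    rw [(hB2.1 z v).1]
  · unfold xO
    rw [(hB2.2 z).1]
  · have h := hXAdd.1 z z' hL hL' hp hm
    have i1 := ix z hz
    have i2 := ix z' hz'
    have i3 := ix (z + z') (tor_add hz hz')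
    have i4 := ix (z - z') (tor_sub hz hz')
    constructor
    · apply io_inj
      simp only [map_mul, map_add, map_sub, map_pow, map_ofNat, i1, i2, i3, i4]
      exact h.1
    · apply io_inj
      simp only [map_mul, map_add, map_sub, map_pow, map_ofNat, map_one, i1, i2, i3, i4]
      exact h.2
  · have h := hXAdd.2 z hL
    have i1 := ix z hz
    have i2 : io (xO (2 * z)) = XC (2 * z) := by
      have h2 := ix (z + z) (tor_add hz hz)
      rwa [← two_mul] at h2
    apply io_inj
    simp only [map_mul, map_add, map_sub, map_pow, map_ofNat, map_one, i1, i2]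
    exact h
  · have h := (hB6 (toC a) (toC b) (XOm_pr hab) z hL hL').2.1
    have i1 := ix z hz
    have i2 := ix (toC a * z) (tor_mul a hz)
    apply io_inj
    simp only [map_mul, map_sub, map_pow, io_toO, i1, i2]
    exact h
  · have h := (hB7.2 (toC a) (toC b) (XOm_pr hab)).1
    have hw : wC * (1 - wC) = 2 := by
      have := wC_sq
      linear_combination -this
    have e : 1 / toC a = toC b / (2 : ℕ) := by
      have e2 : toC a * toC b = 2 := by
        rcases hab with ⟨rfl, rfl⟩ | ⟨rfl, rfl⟩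
        · rw [toC_pO, toC_pbO]
          exact hw
        · rw [toC_pO, toC_pbO, mul_comm]
          exact hw
      have e3 : toC a ≠ 0 := by
        intro h0
        rw [h0, zero_mul] at e2
        exact two_ne_zero e2.symm
      rw [div_eq_div_iff e3 (by norm_num)]
      push_cast
      rw [mul_comm (toC b), e2, one_mul]
    have i1 := ix (1 / toC a) ⟨b, 2, two_pos, e⟩
    apply io_inj
    rw [i1, h, map_div₀, map_pow, io_toO, io_toO]
  · have i1 := ix (1 / 2) ⟨1, 2, two_pos, by rw [map_one]; norm_num⟩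
    apply io_inj
    rw [i1, hB7.1, map_ofNat]

end Pool.Agent.DI.D
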