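import Pool.Agent.Lib.DI.D.SpecA
import Pool.Agent.Lib.DI.Util.UCop

/-!
# Theorem DI, part D-A: the constant of the product formula (`S_XPr`)
-/

set_option autoImplicit false

open scoped Pointwise

noncomputable section

namespace Pool.Agent.DI.D

open Pool.Agent.MuZ Pool.Agent.FW Pool.Agent.DI Pool.Agent.DI.E

private theorem XPr_notLat (A : OO) (n : ℤ) (hn : 1 < n) (hA : Nm A = n) : ¬ Lat (1 / toC A) := by
  rintro ⟨v, hv⟩
  have hA0 : toC A ≠ 0 := toC_ne (by rintro rfl; simp [Nm] at hA; omega)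
  have h1 : toC (A * v) = toC 1 := by
    rw [map_mul, ← hv, map_one]
    field_simp
  have h2 := congrArg Nm (toC_inj h1)
  rw [Nm_mul, hA, Nm_one] at h2
  have h3 := Nm_nonneg v
  rcases h3.lt_or_eq with h4 | h4
  · nlinarith
  · rw [← h4, mul_zero] at h2
    omega

open Classical in
private theorem XPr_one (α : OO) (R : Finset ℂ) (hR : IsSys α R) (G g : ℂ → ℂ) (h : ℂ)
    (h1 : ∀ u ∈ R, Lat u → G u = h) (h2 : ∀ u ∈ R, ¬ Lat u → G u = g u) :
    ∏ u ∈ R, G u = h * ∏ u ∈ R, (if Lat u then 1 else g u) := by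
  obtain ⟨u0, hu0, hL⟩ := hR.ex 0 (by rw [mul_zero]; exact lat_zero)
  have hL0 : Lat u0 := by
    have := lat_neg hL
    rwa [neg_sub, sub_zero] at this
  rw [← Finset.mul_prod_erase R G hu0, ← Finset.mul_prod_erase R _ hu0, h1 u0 hu0 hL0, if_pos hL0,
    one_mul]
  congr 1
  refine Finset.prod_congr rfl fun u hu => ?_
  have hu1 := Finset.mem_of_mem_erase hu
  have hu2 : ¬ Lat u := fun h3 =>
    (Finset.ne_of_mem_erase hu) (hR.uni u hu1 u0 hu0 (lat_sub h3 hL0))
  rw [if_neg hu2, h2 u hu1 hu2]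

open Classical in
private theorem XPr_mul (R : Finset ℂ) (g1 g2 : ℂ → ℂ) :
    ∏ u ∈ R, (if Lat u then 1 else g1 u * g2 u) =
      (∏ u ∈ R, (if Lat u then 1 else g1 u)) * ∏ u ∈ R, (if Lat u then 1 else g2 u) := by
  rw [← Finset.prod_mul_distrib]
  refine Finset.prod_congr rfl fun u _ => ?_
  split_ifs
  · rw [one_mul]
  · rfl

open Classical in
private theorem XPr_div (R : Finset ℂ) (g1 g2 : ℂ → ℂ) :
    ∏ u ∈ R, (if Lat u then 1 else g1 u / g2 u) =
      (∏ u ∈ R, (if Lat u then 1 else g1 u)) / ∏ u ∈ R, (if Lat u then 1 else g2 u) := by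
  rw [← Finset.prod_div_distrib]
  refine Finset.prod_congr rfl fun u _ => ?_
  split_ifs
  · rw [div_one]
  · rfl

open Classical in
private theorem XPr_C (hB2 : S_B2) (hB3 : S_B3) (hB15 : S_B15) (A B : OO) (hAB : A * B = 2)
    (hs : A + B = 1) (hNA : Nm A = 2) (hNB : Nm B = 2) (hX2 : XC (1 / 2) = 2)
    (hXA : XC (1 / toC A) = toC B / toC A ^ 2) (hXB : XC (1 / toC B) = toC A / toC B ^ 2)
    (hTA : ∀ z : ℂ, ¬ Lat z → ¬ Lat (toC A * z) →
      XC (z + 1 / toC A) * (toC A ^ 2 * XC z - toC B) = toC B * XC z - toC A ^ 3)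
    (hTB : ∀ z : ℂ, ¬ Lat z → ¬ Lat (toC B * z) →
      XC (z + 1 / toC B) * (toC B ^ 2 * XC z - toC A) = toC A * XC z - toC B ^ 3)
    (α : OO) (R : Finset ℂ) (hα : IsCoprime α 2) (hR : IsSys α R) :
    (toC α ^ 2 * ∏ u ∈ R, (if Lat u then 1 else XC u - XC (1 / toC B))) ^ 2 =
      ∏ u ∈ R, (if Lat u then 1 else -7 / toC B ^ 4) := by
  set a := toC A with ha
  set b := toC B with hb
  have hab : a * b = 2 := by rw [ha, hb, ← map_mul, hAB, map_ofNat]
  have hsum : a + b = 1 := by rw [ha, hb, ← map_add, hs, map_one]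
  have ha0 : a ≠ 0 := by
    rintro h
    rw [h, zero_mul] at hab
    exact two_ne_zero hab.symm
  have hb0 : b ≠ 0 := by
    rintro h
    rw [h, mul_zero] at hab
    exact two_ne_zero hab.symm
  have hbs : b ^ 2 = b - 2 := by
    have h1 : a = 1 - b := by linear_combination hsum
    rw [h1] at hab
    linear_combination -hab
  have has : a ^ 2 = a - 2 := by
    have h1 : b = 1 - a := by linear_combination hsum
    rw [h1] at hab
    linear_combination -hab
  have hne : a - b ≠ 0 := by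
    intro h
    have h1 : (a - b) ^ 2 = -7 := by
      have : (a - b) ^ 2 = (a + b) ^ 2 - 4 * (a * b) := by ring
      rw [this, hsum, hab]
      norm_num
    rw [h] at h1
    norm_num at h1
  have hLA : ¬ Lat (1 / a) := XPr_notLat A 2 (by norm_num) hNA
  have hLB : ¬ Lat (1 / b) := XPr_notLat B 2 (by norm_num) hNB
  have hL2 : ¬ Lat (1 / 2) := by
    have h1 := XPr_notLat (2 : OO) 4 (by norm_num) (by
      have := Nm_nat 2
      push_cast at this
      rw [this])
    rwa [map_ofNat] at h1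
  have hα0 : toC α ≠ 0 := by
    refine toC_ne ?_
    rintro rfl
    obtain ⟨x, y, hxy⟩ := hα
    have h1 : Nm (y * 2) = 1 := by
      have : y * 2 = 1 := by linear_combination hxy
      rw [this, Nm_one]
    have h2 : Nm (2 : OO) = 4 := by
      have := Nm_nat 2
      push_cast at this
      rw [this]
    rw [Nm_mul, h2] at h1
    omega
  -- odd order
  have hodd : ∀ u ∈ R, ¬ Lat u → ¬ Lat (2 * u) := by
    intro u hu hL h2
    obtain ⟨x, y, hxy⟩ := hα
    have h1 : Lat (toC x * (toC α * u) + toC y * (2 * u)) :=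
      lat_add (lat_mul x (hR.mem u hu)) (lat_mul y h2)
    have h3 : toC x * (toC α * u) + toC y * (2 * u) = u := by
      have h4 := congrArg toC hxy
      rw [map_add, map_mul, map_mul, map_one, map_ofNat] at h4
      linear_combination u * h4
    rw [h3] at h1
    exact hL h1
  have hoddA : ∀ u ∈ R, ¬ Lat u → ¬ Lat (a * u) := by
    intro u hu hL h2
    refine hodd u hu hL ?_
    have h1 := lat_mul B h2
    rwa [← mul_assoc, ← hb, mul_comm b a, hab] at h1
  have hoddB : ∀ u ∈ R, ¬ Lat u → ¬ Lat (b * u) := by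
    intro u hu hL h2
    refine hodd u hu hL ?_
    have h1 := lat_mul A h2
    rwa [← mul_assoc, ← ha, hab] at h1
  -- the values
  have hgen : ∀ (t : ℂ) (v : OO), toC v = t → t ≠ 0 → ¬ Lat (1 / t) → ∀ u : ℂ, ¬ Lat u →
      ¬ Lat (t * u) → XC u - XC (1 / t) ≠ 0 := by
    intro t v hv ht hLt u hLu hLtu h
    have h1 : XC u = XC (1 / t) := sub_eq_zero.1 h
    rcases (hB3.1 u (1 / t) hLu hLt).1 h1 with h2 | h2
    · have h3 := lat_mul v h2
      rw [hv, mul_sub, mul_one_div_cancel ht] at h3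
      have h4 := lat_add h3 (lat_toC 1)
      rw [map_one, sub_add_cancel] at h4
      exact hLtu h4
    · have h3 := lat_mul v h2
      rw [hv, mul_add, mul_one_div_cancel ht] at h3
      have h4 := lat_sub h3 (lat_toC 1)
      rw [map_one, add_sub_cancel_right] at h4
      exact hLtu h4
  have hnA : ∀ u ∈ R, ¬ Lat u → XC u - XC (1 / a) ≠ 0 := fun u hu hL =>
    hgen a A rfl ha0 hLA u hL (hoddA u hu hL)
  have hn2 : ∀ u ∈ R, ¬ Lat u → XC u - 2 ≠ 0 := fun u hu hL => by
    have := hgen 2 2 (map_ofNat toC 2) two_ne_zero hL2 u hL (hodd u hu hL)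
    rwa [hX2] at this
  set e := XC (1 / b) with he
  set e' := XC (1 / a) with he'
  have haE : a = 1 - b := by linear_combination hsum
  have hm : b ^ 2 - b + 2 = 0 := by linear_combination hbs
  have heE : e = (b - 3) / 4 := by
    rw [hXB, div_eq_iff (pow_ne_zero 2 hb0), haE]
    linear_combination (-(1 / 4) * b + 1 / 2) * hm
  have he'E : e' = (-b - 2) / 4 := by
    rw [hXA, div_eq_iff (pow_ne_zero 2 ha0), haE]
    linear_combination (1 / 4 * b + 1 / 4) * hm
  have hee : e' - e ≠ 0 := by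
    intro h
    apply hne
    rw [heE, he'E] at h
    rw [haE]
    linear_combination 4 * h
  have hk : (e' - e) * (2 - e) = -7 / b ^ 4 := by
    rw [eq_div_iff (pow_ne_zero 4 hb0), heE, he'E]
    linear_combination (1 / 8 * b ^ 4 - 21 / 16 * b ^ 3 - 7 / 8 * b ^ 2 + 7 / 4 * b + 7 / 2) * hm
  have h2e : 2 - e ≠ 0 := by
    intro h
    rw [h, mul_zero] at hk
    have h1 : (-7 : ℂ) / b ^ 4 ≠ 0 := div_ne_zero (by norm_num) (pow_ne_zero 4 hb0)
    exact h1 hk.symm
  -- translation by `1/a`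
  have hF1 : ∀ u ∈ R, ¬ Lat u →
      XC (1 / a + u) - e = (e' - e) * (XC u - 2) / (XC u - e') := by
    intro u hu hL
    have h1 := hTA u hL (hoddA u hu hL)
    rw [eq_div_iff (hnA u hu hL), add_comm]
    apply mul_left_cancel₀ (pow_ne_zero 2 ha0)
    rw [heE, he'E]
    rw [haE] at h1 ⊢
    linear_combination h1 + (-(1 / 16) * b ^ 2 + 1 / 4 * b * XC u + 1 / 4 * b * XC (u + 1 / (1 - b)) +
      1 / 8 * b + 1 / 4 * XC u + 1 / 4 * XC (u + 1 / (1 - b)) - 1 / 16) * hm
  -- translation by `1/2`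
  have hF2 : ∀ u ∈ R, ¬ Lat u →
      XC (1 / 2 + u) - e = (2 - e) * (XC u - e') / (XC u - 2) := by
    intro u hu hL
    have h1 := hTA u hL (hoddA u hu hL)
    have hL1 : ¬ Lat (u + 1 / a) := by
      intro h
      have h3 := lat_mul A h
      rw [← ha, mul_add, mul_one_div_cancel ha0] at h3
      have h4 := lat_sub h3 (lat_toC 1)
      rw [map_one, add_sub_cancel_right] at h4
      exact hoddA u hu hL h4
    have hL2' : ¬ Lat (b * (u + 1 / a)) := by
      intro h
      have h3 := lat_mul A h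
      have h5 : toC A * (b * (u + 1 / a)) = 2 * u + toC B := by
        rw [← ha, ← hb]
        have : a * (b * (u + 1 / a)) = a * b * u + b * (a * (1 / a)) := by ring
        rw [this, mul_one_div_cancel ha0, hab, mul_one]
      rw [h5] at h3
      have h4 := lat_sub h3 (lat_toC B)
      rw [add_sub_cancel_right] at h4
      exact hodd u hu hL h4
    have h2 := hTB (u + 1 / a) hL1 hL2'
    have h12 : u + 1 / a + 1 / b = 1 / 2 + u := by
      have : 1 / a + 1 / b = (a + b) / (a * b) := by field_simp; ring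
      rw [add_assoc, this, hsum, hab]
      ring
    rw [h12] at h2
    rw [eq_div_iff (hn2 u hu hL)]
    apply mul_left_cancel₀ hne
    rw [heE, he'E]
    set X := XC u
    set X1 := XC (u + 1 / a)
    set X2 := XC (1 / 2 + u)
    rw [haE] at h1 h2 ⊢
    linear_combination ((1 - b) ^ 2 * X - b) * h2 - (X2 * b ^ 2 - (1 - b)) * h1 +
      (-b ^ 3 * X - b ^ 3 * X2 + b ^ 2 * X + 2 * b ^ 2 * X2 - 2 * b * X * X2 + 2 * b * X + b * X2 +
        31 / 8 * b + X * X2 - X - X2 - 31 / 16) * hm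
  -- `α` is `1` modulo `2`
  obtain ⟨k, hk2⟩ := (tUCop.2.2.2.2.1 α).1 ((tUCop.2.2.2.2.2.2.1 α).1 hα)
  have hαk : toC α = 1 + 2 * toC k := by
    have := congrArg toC hk2
    rw [map_sub, map_one, map_mul, map_ofNat] at this
    linear_combination this
  have hαA : toC α * (1 / a) = 1 / a + toC (k * B) := by
    rw [hαk, map_mul, ← hb]
    have h3 : 2 * (1 / a) = b := by
      rw [← hab]
      field_simp
    linear_combination toC k * h3
  have hα2 : toC α * (1 / 2) = 1 / 2 + toC k := by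
    rw [hαk]
    ring
  have hLT : Lat (2 * (1 / b)) := by
    have h3 : 2 * (1 / b) = toC A := by
      rw [← ha, ← hab]
      field_simp
    rw [h3]
    exact lat_toC A
  have hLT' : Lat (2 * (1 / a)) := by
    have h3 : 2 * (1 / a) = toC B := by
      rw [← hb, ← hab]
      field_simp
    rw [h3]
    exact lat_toC B
  have hLT2 : Lat (2 * (1 / 2)) := by
    have h3 : (2 : ℂ) * (1 / 2) = toC 1 := by
      rw [map_one]
      norm_num
    rw [h3]
    exact lat_toC 1
  obtain ⟨c, hc0, hc1, hc2⟩ := hB15 α R hα hR (1 / b) hLT hLB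
  obtain ⟨c', hc0', -, hc2'⟩ := hB15 α R hα hR (1 / a) hLT' hLA
  obtain ⟨c'', hc0'', -, hc2''⟩ := hB15 α R hα hR (1 / 2) hLT2 hL2
  have hnLA : ¬ Lat (toC α * (1 / a)) := by
    rw [hαA, add_comm]
    intro h
    exact hLA ((lat_add_left_iff (lat_toC (k * B))).1 h)
  have hnL2 : ¬ Lat (toC α * (1 / 2)) := by
    rw [hα2, add_comm]
    intro h
    exact hL2 ((lat_add_left_iff (lat_toC k)).1 h)
  have h3 := hc1 (1 / a) hnLA
  have h4 := hc1 (1 / 2) hnL2
  have hXA' : XC (toC α * (1 / a)) = e' := by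
    rw [hαA, (hB2.1 _ _).1]
  have hX2' : XC (toC α * (1 / 2)) = 2 := by
    rw [hα2, (hB2.1 _ _).1, hX2]
  rw [hXA', XPr_one α R hR (fun u => XC (1 / a + u) - XC (1 / b))
    (fun u => (e' - e) * (XC u - 2) / (XC u - e')) (e' - e) (by
      rintro u hu ⟨v, rfl⟩
      rw [(hB2.1 _ _).1]) hF1] at h3
  rw [hX2', XPr_one α R hR (fun u => XC (1 / 2 + u) - XC (1 / b))
    (fun u => (2 - e) * (XC u - e') / (XC u - 2)) (2 - e) (by
      rintro u hu ⟨v, rfl⟩
      rw [(hB2.1 _ _).1, hX2]) hF2] at h4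
  have h5 := mul_left_cancel₀ hee (h3.trans (mul_comm _ _))
  have h6 := mul_left_cancel₀ h2e (h4.trans (mul_comm _ _))
  rw [XPr_div R (fun u => (e' - e) * (XC u - 2)) (fun u => XC u - e'),
    XPr_mul R (fun _ => e' - e) (fun u => XC u - 2)] at h5
  rw [XPr_div R (fun u => (2 - e) * (XC u - e')) (fun u => XC u - 2),
    XPr_mul R (fun _ => 2 - e) (fun u => XC u - e')] at h6
  have h7 := XPr_mul R (fun _ => e' - e) (fun _ => 2 - e)
  simp only [hk] at h7
  rw [h7]
  rw [hX2] at hc2''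
  have hP' : ∏ u ∈ R, (if Lat u then 1 else XC u - e') ≠ 0 := by
    intro h
    rw [h, mul_zero] at hc2'
    exact hc0' hc2'
  have hP2 : ∏ u ∈ R, (if Lat u then 1 else XC u - 2) ≠ 0 := by
    intro h
    rw [h, mul_zero] at hc2''
    exact hc0'' hc2''
  rw [← hc2]
  have h8 : c ^ 2 = c * c := sq c
  rw [h8]
  nth_rewrite 1 [← h5]
  rw [← h6]
  field_simp

open Classical in
theorem tXPr (_hB1 : S_B1) (hB2 : S_B2) (hB3 : S_B3) (_hB4 : S_B4) (hB7 : S_B7) (hB15 : S_B15)
    (hA0 : S_A0) : S_XPr := by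
  intro a b hab α R hα hR
  have hN1 : Nm pO = 2 := by simp [Nm, pO]
  have hN2 : Nm pbO = 2 := by simp [Nm, pbO]
  have hAB : pO * pbO = 2 := by
    have h1 : (2 : OO).re = 2 := by
      have := re_nat 2
      exact_mod_cast this
    have h2 : (2 : OO).im = 0 := by
      have := im_nat 2
      exact_mod_cast this
    apply OO.ext'
    · rw [re_mul, h1]
      simp [pO, pbO]
    · rw [im_mul, h2]
      simp [pO, pbO]
  have hs : pO + pbO = 1 := by
    apply OO.ext'
    · rw [QuadraticAlgebra.re_add, re_one]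
      simp [pO, pbO]
    · rw [QuadraticAlgebra.im_add, im_one]
      simp [pO, pbO]
  have hC1 : toC pO = wC := toC_pO
  have hC2 : toC pbO = wbC := toC_pbO
  have h : (toC α ^ 2 * ∏ u ∈ R, (if Lat u then 1 else XC u - XC (1 / toC b))) ^ 2 =
      ∏ u ∈ R, (if Lat u then 1 else -7 / toC b ^ 4) := by
    rcases hab with ⟨rfl, rfl⟩ | ⟨rfl, rfl⟩
    · have h1 := hB7.2 wC wbC (Or.inl ⟨rfl, rfl⟩)
      have h2 := hB7.2 wbC wC (Or.inr ⟨rfl, rfl⟩)
      rw [← hC1, ← hC2] at h1 h2
      exact XPr_C hB2 hB3 hB15 pO pbO hAB hs hN1 hN2 hB7.1 h1.1 h2.1 h1.2 h2.2 α R hα hR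
    · have h1 := hB7.2 wC wbC (Or.inl ⟨rfl, rfl⟩)
      have h2 := hB7.2 wbC wC (Or.inr ⟨rfl, rfl⟩)
      rw [← hC1, ← hC2] at h1 h2
      exact XPr_C hB2 hB3 hB15 pbO pO (by rw [mul_comm]; exact hAB) (by rw [add_comm]; exact hs)
        hN2 hN1 hB7.1 h2.1 h1.1 h2.2 h1.2 α R hα hR
  have hα0 : α ≠ 0 := by
    rintro rfl
    obtain ⟨x, y, hxy⟩ := hα
    have h1 : Nm (y * 2) = 1 := by
      have : y * 2 = 1 := by linear_combination hxy
      rw [this, Nm_one]
    have h2 : Nm (2 : OO) = 4 := by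
      have := Nm_nat 2
      push_cast at this
      rw [this]
    rw [Nm_mul, h2] at h1
    omega
  have hTb : Tor (1 / toC b) := by
    rcases hab with ⟨rfl, rfl⟩ | ⟨rfl, rfl⟩
    · refine tor_of_lat (δ := pbO) (by rintro h; rw [h] at hN2; simp [Nm] at hN2) ?_
      rw [mul_one_div_cancel (toC_ne (by rintro h; rw [h] at hN2; simp [Nm] at hN2))]
      exact ⟨1, by rw [map_one]⟩
    · refine tor_of_lat (δ := pO) (by rintro h; rw [h] at hN1; simp [Nm] at hN1) ?_
      rw [mul_one_div_cancel (toC_ne (by rintro h; rw [h] at hN1; simp [Nm] at hN1))]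
      exact ⟨1, by rw [map_one]⟩
  apply io_inj
  rw [map_pow, map_mul, map_pow, io_toO, map_prod, map_prod]
  have h1 : ∏ u ∈ R, io (if Lat u then 1 else xO u - xO (1 / toC b)) =
      ∏ u ∈ R, (if Lat u then 1 else XC u - XC (1 / toC b)) := by
    refine Finset.prod_congr rfl fun u hu => ?_
    split_ifs
    · rw [map_one]
    · rw [map_sub, (hA0 _ hTb).1, (hA0 u (tor_of_lat hα0 (hR.mem u hu))).1]
  have h2 : ∏ u ∈ R, io (if Lat u then 1 else -7 / toO b ^ 4) =
      ∏ u ∈ R, (if Lat u then 1 else -7 / toC b ^ 4) := by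
    refine Finset.prod_congr rfl fun u hu => ?_
    split_ifs
    · rw [map_one]
    · rw [map_div₀, map_pow, io_toO, map_neg, map_ofNat]
  rw [h1, h2]
  exact h

end Pool.Agent.DI.D
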