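import Pool.Agent.Lib.DI.D.AsmA
import Pool.Agent.Lib.DI.D.KSub
import Pool.Agent.Lib.DI.D.KRed
import Pool.Agent.Lib.DI.D.KSep
import Pool.Agent.Lib.DI.D.KMul
import Pool.Agent.Lib.DI.D.KAnn
import Pool.Agent.Lib.DI.D.KQp
import Pool.Agent.Lib.DI.D.XAdd
import Pool.Agent.Lib.DI.D.XOm
import Pool.Agent.Lib.DI.D.XPr
import Pool.Agent.Lib.DI.D.KDX
import Pool.Agent.Lib.DI.D.KDZ
import Pool.Agent.Lib.DI.D.D1c
import Pool.Agent.Lib.DI.B.All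
import Pool.Agent.Lib.DI.Util.UCop
import Pool.Agent.Lib.DI.Util.UEx
import Pool.Agent.Lib.DI.Util.UPid

/-!
# Theorem DI, part D-A: `tD1 : S_D1` and `tD2 : S_D2`
-/

set_option autoImplicit false

noncomputable section

namespace Pool.Agent.DI

open Pool.Agent.MuZ

namespace D

theorem aKAnn : S_KAnn := tKAnn tUPid

theorem aKMul : S_KMul := tKMul tKSub

theorem aKQp : S_KQp := tKQp tKSub aKMul aKAnn tUCop tUEx

theorem aXAdd : S_XAdd := tXAdd tB1 tB2 tB3 tB4 tB5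

theorem aXOm : S_XOm := tXOm tA0 tB2 tB6 tB7 aXAdd

theorem aXPr : S_XPr := tXPr tB1 tB2 tB3 tB4 tB7 tB15 tA0

theorem aKDX : S_KDX := tKDX aXOm aXPr

theorem aKDZ : S_KDZ := tKDZ aXOm aXPr

theorem aD1c : S_D1c := tD1c aXOm tA0 tB1

end D

/-- `S_D1`: reduction above `2`. -/
theorem tD1 : S_D1 := D.asmD1 D.tKSub D.tKRed D.tKSep D.aKMul D.aKQp D.aKDX D.aD1c

/-- `S_D2`: reduction outside `2`. -/
theorem tD2 : S_D2 := D.asmD2 D.tKSub D.tKRed D.tKSep D.aKMul D.aKQp D.aKDZ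

end Pool.Agent.DI
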