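import Pool.Agent.Lib.DI.D.SpecC

/-!
# Theorem DI, part D: `S_D7`, the constant of the distribution relation is a unit (helper27)
-/

set_option autoImplicit false

open scoped Pointwise Topology

noncomputable section

namespace Pool.Agent.DI.DC

open Pool.Agent.MuZ Pool.Agent.DI

theorem tD7 : S_D7' := by
  intro hD5 hD8 hNm hEx hPSy hDst hZpt μ S hμ hS α hα hαμ
  obtain ⟨hE1, hE2, hE3, hE4, hE5, hE6, hE7, hE8, hE9, hE10, hE11, hE12, hE13⟩ := hEx
  obtain ⟨hN1, hN2, hN3, hN4, hN5, hN6, hN7, hN8, hN9, hN10, hN11, hN12⟩ := hNm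
  have hμ0 : μ ≠ 0 := by
    intro h0
    rw [h0] at hμ
    have h := isCoprime_zero_left.mp hμ
    rcases (hN12 2).1 h with h1 | h1
    · have h2 := congrArg Nm h1
      have h3 := hN4 2
      have h4 := hN4 1
      simp only [Int.cast_ofNat, Int.cast_one] at h3 h4
      rw [h3, h4] at h2
      norm_num at h2
    · have h2 := congrArg Nm h1
      have h3 := hN4 2
      have h4 := hN4 (-1)
      simp only [Int.cast_ofNat, Int.cast_neg, Int.cast_one] at h3 h4
      rw [h3, h4] at h2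
      norm_num at h2
  obtain ⟨R0, hR0⟩ := hE1 α hα
  obtain ⟨c, hc0, hc⟩ := hDst μ S hμ hS α hα hαμ R0 hR0
  refine ⟨c, hc0, ?_, ?_⟩
  · intro Q hQ
    have hQp : Q.IsPrime := hQ.1
    obtain ⟨z, hz, hzl, hzQ⟩ := hZpt α μ hα hμ0
    obtain ⟨h1, h2⟩ := hzQ Q hQ
    have hU1 : UP Q (∏ v ∈ R0, Theta μ S (z + v)) := by
      apply UP.prod
      intro v hv
      have hT : Tor (z + v) := (hE5 z v hz (hE8 α v hα (hR0.mem v hv))).1
      exact hD5 μ S hμ hS Q hQ (z + v) hT fun u hu => h1 v u (hR0.mem v hv) hu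
    have hU2 : UP Q (Theta μ S (toC α * z)) :=
      hD5 μ S hμ hS Q hQ (toC α * z) (hE6 α z hz) fun u hu => h2 u hu
    have h4 : c = (∏ v ∈ R0, Theta μ S (z + v)) / Theta μ S (toC α * z) := by
      rw [hc z hz hzl, mul_div_assoc, div_self hU2.ne_zero, mul_one]
    rw [h4]
    exact hU1.div hU2
  · intro R hR z hz hzl
    rw [← hc z hz hzl]
    apply hPSy α R R0 (fun v => Theta μ S (z + v)) hR hR0
    intro v hv w
    have hT : Tor (z + v) := (hE5 z v hz (hE8 α v hα hv)).1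
    have h5 := (hD8 μ S S hS hS (z + v) hT).2.2.1 w
    change Theta μ S (z + (v + toC w)) = Theta μ S (z + v)
    rw [← add_assoc]
    exact h5

end Pool.Agent.DI.DC
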