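import Pool.Agent.Lib.DI.D.SpecC

/-!
# Theorem DI, part D: distribution of `Theta` over `Om` (`S_Dst`)
-/

set_option autoImplicit false

open scoped Pointwise Topology

noncomputable section

namespace Pool.Agent.DI.DC

open Pool.Agent.MuZ Pool.Agent.DI

private theorem Dst_mu (μ : OO) (h : IsCoprime μ 2) (hN : S_UNm) : μ ≠ 0 := by
  rintro rfl
  have h1 : IsUnit (2 : OO) := isCoprime_zero_left.1 h
  rcases (hN.2.2.2.2.2.2.2.2.2.2.2 2).1 h1 with h2 | h2
  · have h3 := congrArg QuadraticAlgebra.re h2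
    have h4 : (2 : OO).re = 2 := by
      have := QuadraticAlgebra.re_natCast (R := ℤ) (a := -2) (b := 1) 2
      exact_mod_cast this
    have h5 : (1 : OO).re = 1 := rfl
    rw [h4, h5] at h3
    omega
  · have h3 := congrArg QuadraticAlgebra.re h2
    have h4 : (2 : OO).re = 2 := by
      have := QuadraticAlgebra.re_natCast (R := ℤ) (a := -2) (b := 1) 2
      exact_mod_cast this
    have h5 : (-1 : OO).re = -1 := rfl
    rw [h4, h5] at h3
    omega

private theorem Dst_io (hA : S_A0) (μ : OO) (S : Finset ℂ) (hS : ∀ u ∈ S, Tor u) (z : ℂ)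
    (hz : Tor z) : io (Theta μ S z) =
      ((toC μ)⁻¹ * (toC s7) ^ S.card) * ∏ u ∈ S, (XC z - XC u)⁻¹ := by
  unfold Theta zO
  rw [map_mul, map_inv₀, io_toO, map_prod, mul_assoc, ← Finset.prod_const, ← Finset.prod_mul_distrib]
  congr 1
  refine Finset.prod_congr rfl fun u hu => ?_
  rw [map_inv₀, map_sub, map_div₀, map_div₀, map_sub, map_sub, io_toO, (hA z hz).1, (hA u (hS u hu)).1]
  rw [← sub_div]
  rw [inv_div, div_eq_mul_inv]
  congr 2
  ring

theorem tDst : S_Dst := by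
  intro hB hA hD8 hN hX hZ μ S hμ2 hS α hα hαμ R hR
  have hμ : μ ≠ 0 := Dst_mu μ hμ2 hN
  have hinj : Function.Injective toC := hN.2.2.2.2.2.2.2.2.1
  have hTorU : ∀ (v : OO) (z : ℂ), v ≠ 0 → Lat (toC v * z) → Tor z := hX.2.2.2.2.2.2.2.1
  have hTadd : ∀ z z' : ℂ, Tor z → Tor z' → Tor (z + z') := fun z z' h h' =>
    (hX.2.2.2.2.1 z z' h h').1
  have hTmul : ∀ (v : OO) (z : ℂ), Tor z → Tor (toC v * z) := hX.2.2.2.2.2.1
  have hST : ∀ u ∈ S, Tor u := fun u hu => hTorU μ u hμ (hS.mem u hu).1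
  have hRT : ∀ v ∈ R, Tor v := fun v hv => hTorU α v hα (hR.mem v hv)
  set k : ℂ := (toC μ)⁻¹ * (toC s7) ^ S.card with hk
  have hμC : toC μ ≠ 0 := fun h => hμ (hinj (by rw [h, map_zero]))
  have hs7 : toC s7 ≠ 0 := fun h => by
    have h1 : s7 = 0 := hinj (by rw [h, map_zero])
    have h2 := congrArg QuadraticAlgebra.im h1
    have h3 : s7.im = 2 := rfl
    have h4 : (0 : OO).im = 0 := rfl
    rw [h3, h4] at h2
    omega
  have hk0 : k ≠ 0 := mul_ne_zero (inv_ne_zero hμC) (pow_ne_zero _ hs7)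
  obtain ⟨c0, hc0, hc⟩ := hB α μ R S hα hαμ hμ2 hR hS
  set C : ℂ := k ^ R.card * c0 / k with hC
  have hC0 : C ≠ 0 := div_ne_zero (mul_ne_zero (pow_ne_zero _ hk0) hc0) hk0
  have key : ∀ z : ℂ, Tor z → ¬ Lat (toC (α * μ) * z) →
      io (∏ v ∈ R, Theta μ S (z + v)) = C * io (Theta μ S (toC α * z)) := by
    intro z hz hL
    rw [map_prod, Dst_io hA μ S hST (toC α * z) (hTmul α z hz)]
    have h1 : ∀ v ∈ R, io (Theta μ S (z + v)) = k * ∏ u ∈ S, (XC (z + v) - XC u)⁻¹ := fun v hv =>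
      Dst_io hA μ S hST (z + v) (hTadd z v hz (hRT v hv))
    rw [Finset.prod_congr rfl h1, Finset.prod_mul_distrib, Finset.prod_const, hc z hL, hC, ← hk]
    field_simp
  obtain ⟨z0, hz0, hL0, -⟩ := hZ α μ hα hμ
  have hT0 : Theta μ S (toC α * z0) ≠ 0 := by
    refine (hD8 μ S S hS hS (toC α * z0) (hTmul α z0 hz0)).2.2.2 fun h => hL0 ?_
    rw [map_mul, mul_comm (toC α) (toC μ), mul_assoc]
    exact h
  refine ⟨(∏ v ∈ R, Theta μ S (z0 + v)) / Theta μ S (toC α * z0), ?_, fun z hz hL => ?_⟩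
  · intro h
    have h1 : io ((∏ v ∈ R, Theta μ S (z0 + v)) / Theta μ S (toC α * z0)) = C := by
      rw [map_div₀, key z0 hz0 hL0]
      exact mul_div_cancel_right₀ _ (fun h2 => hT0 (io_inj (by rw [h2, map_zero])))
    rw [h, map_zero] at h1
    exact hC0 h1.symm
  · apply io_inj
    rw [key z hz hL, map_mul, map_div₀, key z0 hz0 hL0,
      mul_div_cancel_right₀ _ (fun h2 => hT0 (io_inj (by rw [h2, map_zero])))]

end Pool.Agent.DI.DC
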