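import Pool.Agent.Lib.DI.D.SpecC

/-!
# Theorem DI, part D: products over systems of representatives
-/

set_option autoImplicit false

open scoped Pointwise Topology

noncomputable section

namespace Pool.Agent.DI.DC

open Pool.Agent.MuZ Pool.Agent.DI

private lemma PSy_sub {x y : ℂ} (hx : Lat x) (hy : Lat y) : Lat (x - y) := by
  obtain ⟨v, rfl⟩ := hx
  obtain ⟨w, rfl⟩ := hy
  exact ⟨v - w, (map_sub toC v w).symm⟩

/-- **PSy.** The product of a periodic function over a system of representatives. -/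
theorem tPSy : S_PSy := by
  intro α R R' F hR hR' hF
  have key : ∀ v : ℂ, ∃ v' : ℂ, v ∈ R → v' ∈ R' ∧ Lat (v - v') := by
    intro v
    by_cases hv : v ∈ R
    · obtain ⟨v', h1, h2⟩ := hR'.ex v (hR.mem v hv)
      exact ⟨v', fun _ => ⟨h1, h2⟩⟩
    · exact ⟨0, fun h => absurd h hv⟩
  choose φ hφ using key
  refine Finset.prod_bij (fun v _ => φ v) (fun v hv => (hφ v hv).1) ?_ ?_ ?_
  · intro v1 h1 v2 h2 h
    have e1 := (hφ v1 h1).2
    have e2 := (hφ v2 h2).2
    have h' : φ v1 = φ v2 := h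
    rw [h'] at e1
    have e3 := PSy_sub e1 e2
    rw [sub_sub_sub_cancel_right] at e3
    exact hR.uni v1 h1 v2 h2 e3
  · intro v' hv'
    obtain ⟨v, h1, h2⟩ := hR.ex v' (hR'.mem v' hv')
    refine ⟨v, h1, ?_⟩
    obtain ⟨h3, h4⟩ := hφ v h1
    have h5 : Lat (φ v - v') := by
      have h6 : Lat ((0 : ℂ) - 0) := ⟨0, by rw [map_zero, sub_zero]⟩
      have h7 := PSy_sub (PSy_sub h6 h2) h4
      have h8 : (0 : ℂ) - 0 - (v' - v) - (v - φ v) = φ v - v' := by ring
      rw [h8] at h7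
      exact h7
    exact hR'.uni _ h3 _ hv' h5
  · intro v hv
    obtain ⟨w, hw⟩ := (hφ v hv).2
    have h1 : v = φ v + toC w := by rw [← hw]; ring
    have h2 : Lat (toC α * φ v) := hR'.mem _ (hφ v hv).1
    have h3 := hF (φ v) h2 w
    rw [← h1] at h3
    exact h3

end Pool.Agent.DI.DC
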