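import Pool.Agent.Lib.DI.D.SpecC

/-!
# Theorem DI, part D: a torsion point of mixed order (`S_Zpt`)
-/

set_option autoImplicit false

open scoped Pointwise Topology

noncomputable section

namespace Pool.Agent.DI.DC

open Pool.Agent.MuZ Pool.Agent.DI

private theorem Zpt_nd (hN : S_UNm) (γ : OO) (hγ : γ ≠ 0) (q : ℕ) (hq : (Nm γ).toNat < q) :
    ¬ (q : OO) ∣ γ := by
  rintro ⟨w, hw⟩
  have h0 : 0 ≤ Nm γ := hN.2.1 γ
  have hw0 : 0 ≤ Nm w := hN.2.1 w
  have h1 : Nm γ ≠ 0 := fun h => hγ ((hN.2.2.1 γ).1 h)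
  have h2 : Nm γ = (q : ℤ) ^ 2 * Nm w := by
    have h3 : Nm (q : OO) = (q : ℤ) ^ 2 := by
      have := hN.2.2.2.1 (q : ℤ)
      rw [← this]
      congr 1
    rw [hw, hN.1, h3]
  have h3 : 1 ≤ Nm w := by
    rcases hw0.lt_or_eq with h | h
    · omega
    · rw [← h, mul_zero] at h2
      exact absurd h2 h1
  have h4 : Nm γ < q := by
    have := Int.toNat_of_nonneg h0
    omega
  nlinarith

private theorem Zpt_core (hX : S_UEx) (Q : Ideal ZZ) (q q' : ℕ) (hq0 : 0 < q) (hq0' : 0 < q')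
    (γ δ : OO) (w l : ℂ) (hq : ¬ MP Q (toO (q : OO))) (hQp : Qp Q w) (hl : Lat l)
    (hw : toC δ * w = toC γ / (q * q' : ℕ) + l) (hnd : ¬ (q : OO) ∣ γ) : False := by
  have hadd : ∀ z z' : ℂ, Lat z → Lat z' → Lat (z + z') := fun z z' h h' =>
    (hX.2.2.2.2.2.2.2.2.1 z z' h h').1
  have hsub : ∀ z z' : ℂ, Lat z → Lat z' → Lat (z - z') := fun z z' h h' =>
    (hX.2.2.2.2.2.2.2.2.1 z z' h h').2.1
  have hmul : ∀ (v : OO) (z : ℂ), Lat z → Lat (toC v * z) := hX.2.2.2.2.2.2.2.2.2.1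
  have hdiv : Lat (toC γ / q) ↔ (q : OO) ∣ γ := hX.2.2.2.2.2.2.2.2.2.2.2.1 γ q hq0
  have hqC : (q : ℂ) ≠ 0 := by exact_mod_cast hq0.ne'
  have hqC' : (q' : ℂ) ≠ 0 := by exact_mod_cast hq0'.ne'
  have h1 : toC ((q : OO) * (δ * q')) * w = toC γ + toC ((q : OO) * q') * l := by
    have h2 : toC ((q : OO) * (δ * q')) * w = q * q' * (toC δ * w) := by
      rw [map_mul, map_mul, map_natCast, map_natCast]
      ring
    rw [h2, hw, map_mul, map_natCast, map_natCast]
    push_cast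
    field_simp
  have h3 : Lat (toC ((q : OO) * (δ * q')) * w) := by
    rw [h1]
    exact hadd _ _ ⟨γ, rfl⟩ (hmul _ _ hl)
  have h4 := hQp (q : OO) (δ * q') hq h3
  have h5 : toC (δ * q') * w = toC γ / q + toC (q' : OO) * l := by
    have h2 : toC (δ * q') * w = q' * (toC δ * w) := by
      rw [map_mul, map_natCast]
      ring
    rw [h2, hw, map_natCast]
    push_cast
    field_simp
  rw [h5] at h4
  have h6 := hsub _ _ h4 (hmul (q' : OO) l hl)
  rw [add_sub_cancel_right] at h6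
  exact hnd (hdiv.1 h6)

theorem tZpt : S_Zpt := by
  intro hN hX α μ hα hμ
  have hadd : ∀ z z' : ℂ, Lat z → Lat z' → Lat (z + z') := fun z z' h h' =>
    (hX.2.2.2.2.2.2.2.2.1 z z' h h').1
  have hmul : ∀ (v : OO) (z : ℂ), Lat z → Lat (toC v * z) := hX.2.2.2.2.2.2.2.2.2.1
  have hγ : α * μ ≠ 0 := by
    intro h
    have h1 := hN.1 α μ
    rw [h, (hN.2.2.1 0).2 rfl] at h1
    rcases mul_eq_zero.1 h1.symm with h2 | h2
    · exact hα ((hN.2.2.1 α).1 h2)
    · exact hμ ((hN.2.2.1 μ).1 h2)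
  obtain ⟨p, hp1, hp⟩ := Nat.exists_infinite_primes ((Nm (α * μ)).toNat + 1)
  obtain ⟨p', hp1', hp'⟩ := Nat.exists_infinite_primes (p + 1)
  have hnd : ¬ (p : OO) ∣ α * μ := Zpt_nd hN _ hγ p (by omega)
  have hnd' : ¬ (p' : OO) ∣ α * μ := Zpt_nd hN _ hγ p' (by omega)
  have hpp : 0 < p * p' := Nat.mul_pos hp.pos hp'.pos
  refine ⟨toC 1 / (p * p' : ℕ), ⟨1, p * p', hpp, rfl⟩, ?_, ?_⟩
  · rw [← mul_div_assoc, ← map_mul, mul_one, hX.2.2.2.2.2.2.2.2.2.2.2.1 _ _ hpp]
    intro h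
    refine hnd (dvd_trans ?_ h)
    push_cast
    exact dvd_mul_right _ _
  · intro Q hQ
    haveI : Q.IsPrime := hQ.1
    have hor : ¬ MP Q (toO (p : OO)) ∨ ¬ MP Q (toO (p' : OO)) := by
      by_contra h
      push Not at h
      obtain ⟨h1, h2⟩ := h
      rw [map_natCast] at h1 h2
      have hco : Nat.Coprime p p' := (Nat.coprime_primes hp hp').2 (by omega)
      obtain ⟨x, y, hxy⟩ := Nat.isCoprime_iff_coprime.2 hco
      have h3 : MP Q (((x : ℤ) : Om) * (p : Om) + ((y : ℤ) : Om) * (p' : Om)) :=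
        (MP.mul_left (VP.int x) h1).add (MP.mul_left (VP.int y) h2)
      have h4 : ((x : ℤ) : Om) * (p : Om) + ((y : ℤ) : Om) * (p' : Om) = 1 := by
        have := congrArg (fun t : ℤ => (t : Om)) hxy
        push_cast at this
        exact this
      rw [h4] at h3
      exact MP.one_not h3
    have hcomm : (toC 1 / (p * p' : ℕ) : ℂ) = toC 1 / (p' * p : ℕ) := by rw [mul_comm p p']
    constructor
    · intro v u hv hu hQp
      have hl : Lat (toC μ * (toC α * v) + toC α * (toC μ * u)) :=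
        hadd _ _ (hmul _ _ hv) (hmul _ _ hu)
      rcases hor with h | h
      · refine Zpt_core hX Q p p' hp.pos hp'.pos (α * μ) (α * μ) _ _ h hQp hl ?_ hnd
        rw [map_mul, map_one]
        ring
      · rw [hcomm] at hQp
        refine Zpt_core hX Q p' p hp'.pos hp.pos (α * μ) (α * μ) _ _ h hQp hl ?_ hnd'
        rw [map_mul, map_one]
        ring
    · intro u hu hQp
      rcases hor with h | h
      · refine Zpt_core hX Q p p' hp.pos hp'.pos (α * μ) μ _ _ h hQp hu ?_ hnd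
        rw [map_mul, map_one]
        ring
      · rw [hcomm] at hQp
        refine Zpt_core hX Q p' p hp'.pos hp.pos (α * μ) μ _ _ h hQp hu ?_ hnd'
        rw [map_mul, map_one]
        ring

end Pool.Agent.DI.DC
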