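import Pool.Agent.Lib.DI.D.D8
import Pool.Agent.Lib.DI.D.D7
import Pool.Agent.Lib.DI.D.PSy
import Pool.Agent.Lib.DI.D.Zpt
import Pool.Agent.Lib.DI.D.Dst
import Pool.Agent.Lib.DI.B.All
import Pool.Agent.Lib.DI.Util.UNm
import Pool.Agent.Lib.DI.Util.UEx

/-!
# Theorem DI, part D: `tD8 : S_D8` and `tD7 : S_D5 → S_D7`
-/

set_option autoImplicit false

noncomputable section

namespace Pool.Agent.DI

open Pool.Agent.MuZ

/-- `S_D8`. -/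
theorem tD8 : S_D8 := DC.tD8 tB2 tB3 tA0 tUNm tUEx

/-- `S_D7` from `S_D5`. -/
theorem tD7 (D5 : S_D5) : S_D7 :=
  DC.tD7 D5 tD8 tUNm tUEx DC.tPSy (DC.tDst tB16 tA0 tD8 tUNm tUEx (DC.tZpt tUNm tUEx))
    (DC.tZpt tUNm tUEx)

end Pool.Agent.DI
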