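import Pool.Agent.Lib.DI.D.SpecB
import Pool.Agent.Lib.DI.E.Base

set_option autoImplicit false

noncomputable section

namespace Pool.Agent.DI.DB

open Pool.Agent.MuZ Pool.Agent.DI Pool.Agent.DI.D Pool.Agent.DI.E

/-- Generators of the torsion of prime norm. -/
theorem tCyc : S_Cyc := by
  intro hCop _ la l hl hN u u' hu hnu hu'
  obtain ⟨s, hs⟩ := hu
  obtain ⟨s', hs'⟩ := hu'
  obtain ⟨h0, -, -, h4, -⟩ := hCop la l hl hN
  have hla : toC la ≠ 0 := toC_ne h0
  have hd : ¬ la ∣ s := by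
    rintro ⟨k, rfl⟩
    apply hnu
    refine ⟨k, ?_⟩
    rw [map_mul] at hs
    exact mul_left_cancel₀ hla hs
  obtain ⟨k, j, hj⟩ := h4 s hd
  refine ⟨s' * k, -(s' * j), ?_⟩
  apply mul_left_cancel₀ hla
  have h1 : toC (s * k - 1) = toC (la * j) := by rw [hj]
  simp only [map_mul, map_sub, map_one, map_neg] at h1 ⊢
  linear_combination hs' - toC s' * toC k * hs - toC s' * h1

end Pool.Agent.DI.DB
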