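import Pool.Agent.Lib.DI.D.SpecB
import Pool.Agent.Lib.DI.Val
import Pool.Agent.Lib.DI.E.Base

/-!
# Theorem DI, part D-B, module BD3: the `la`-torsion is in the kernel
-/

set_option autoImplicit false

open scoped Pointwise

noncomputable section

namespace Pool.Agent.DI.DB

open Pool.Agent.MuZ Pool.Agent.FW Pool.Agent.DI Pool.Agent.DI.E Pool.Agent.DI.D

private theorem BD3_w : IsIntegral ℤ wO := by
  refine ⟨Polynomial.X ^ 2 - Polynomial.X + Polynomial.C 2, ?_, ?_⟩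
  · monicity!
  · rw [Polynomial.eval₂_add, Polynomial.eval₂_sub, Polynomial.eval₂_pow, Polynomial.eval₂_X,
      Polynomial.eval₂_C, wO_sq]
    simp

private theorem BD3_vp {Q : Ideal ZZ} [hP : Q.IsPrime] (v : OO) : VP Q (toO v) := by
  change VP Q ((v.re : Om) + v.im * wO)
  exact (VP.int _).add ((VP.int _).mul (VP.integral BD3_w))

/-- `2` is not in the maximal ideal. -/
private theorem BD3_two {la : OO} {l : ℕ} (hl : l.Prime) (hl2 : l ≠ 2) (h : (l : OO) = la * cjO la)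
    {Q : Ideal ZZ} [hP : Q.IsPrime] (hla : MP Q (toO la)) : ¬ MP Q 2 := by
  intro h2
  have h1 : (l : Om) = toO la * toO (cjO la) := by
    rw [← map_mul, ← h, map_natCast]
  have h3 : MP Q (l : Om) := by
    rw [h1]
    exact MP.mul_right hla (BD3_vp _)
  obtain ⟨k, hk⟩ := hl.odd_of_ne_two hl2
  have h4 : MP Q ((l : Om) - k * 2) := h3.sub (MP.mul_left (VP.nat k) h2)
  have h5 : (l : Om) - k * 2 = 1 := by
    rw [hk]
    push_cast
    ring
  rw [h5] at h4
  exact MP.one_not h4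

/-- The number of nonzero classes. -/
private theorem BD3_card {la : OO} {l : ℕ} {R : Finset ℂ} (hR : IsSys la R) (hc : R.card = l)
    [DecidablePred Lat] : (R.filter fun u => ¬ Lat u).card = l - 1 := by
  have h0 : Lat (toC la * 0) := by
    rw [mul_zero]
    exact lat_zero
  obtain ⟨u0, hu0, hl0⟩ := hR.ex 0 h0
  have hl0' : Lat u0 := by
    have := lat_neg hl0
    simpa using this
  have h1 : R.filter (fun u => Lat u) = {u0} := by
    ext u
    rw [Finset.mem_filter, Finset.mem_singleton]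
    constructor
    · rintro ⟨h, h'⟩
      exact hR.uni u h u0 hu0 (lat_sub h' hl0')
    · rintro rfl
      exact ⟨hu0, hl0'⟩
  have h2 := Finset.card_filter_add_card_filter_not (s := R) (fun u => Lat u)
  rw [h1, Finset.card_singleton, hc] at h2
  omega

theorem tBD3 : S_BD3 := by
  classical
  intro hCop hCyc hRef hEun hKDZ hD2 hUEx la l hl hl2 hl7 hNm Q hQ hla u hu hLu
  have hP : Q.IsPrime := hQ.1
  obtain ⟨hSys, -, -, -, -, -, hLT, hTor, -, -, -, -, hcard⟩ := hUEx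
  obtain ⟨la0, hlaeq, -, -, -, hco⟩ := hCop la l hl hNm
  have hco2 := hco hl2
  have h2 : ¬ MP Q 2 := BD3_two hl hl2 hlaeq hla
  obtain ⟨R, hR⟩ := hSys la la0
  have hRc : R.card = l := by
    have := hcard la R la0 hR
    rw [hNm] at this
    exact_mod_cast this
  obtain ⟨heV, -, -, -, -, -, -, -, -, hU⟩ := hEun Q hQ h2
  have hc := hU la R hco2 hR
  have hK := hKDZ Q hQ h2
  obtain ⟨hD1, hDm, -, -, -⟩ := hD2 Q hQ h2
  have hT : ∀ u' : ℂ, Lat (toC la * u') → Tor u' := fun u' h => hTor la u' la0 h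
  -- the values are not in `V`
  have hNV : ∀ u1 : ℂ, Lat (toC la * u1) → ¬ Lat u1 → ¬ VP Q (zO u1) := by
    intro u1 hu1 hL1 hV
    have hall : ∀ u' ∈ R, ¬ Lat u' → VP Q (zO u') := by
      intro u' hu' hL'
      by_contra hne
      obtain ⟨v, hv⟩ := hCyc la l hl hNm u' u1 (hR.mem u' hu') hL' hu1
      have i1 : IZ Q u' := ⟨hT u' (hR.mem u' hu'), Or.inr hne⟩
      have i2 : IZ Q (u1 - toC v * u') := ⟨hLT _ hv, Or.inl hv⟩
      have i3 := hD1 _ _ (hDm v u' i1) i2
      rw [add_sub_cancel] at i3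
      rcases i3.2 with h | h
      · exact hL1 h
      · exact h hV
    refine hc.2 ?_
    rw [sq]
    refine MP.mul_right (MP.mul_left (BD3_vp la) hla) (VP.prod _ _ fun u' hu' => ?_)
    split_ifs with hL'
    · exact VP.one
    · exact (hall u' hu' hL').sub heV
  -- quotients
  have hquo : ∀ u1 u2 : ℂ, Lat (toC la * u1) → ¬ Lat u1 → Lat (toC la * u2) → ¬ Lat u2 →
      VP Q (zO u1 / zO u2) := by
    intro u1 u2 hu1 hL1 hu2 hL2
    obtain ⟨n1, m1⟩ := VP.not_iff.1 (hNV u1 hu1 hL1)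
    obtain ⟨hadd, hmul⟩ := hRef Q zO _ _ _ _ hK (zO u1)⁻¹ m1
    have j1 : JK Q zO (zO u1)⁻¹ u1 := ⟨hT u1 hu1, Or.inr ⟨n1, 1, VP.one, by rw [mul_one]⟩⟩
    obtain ⟨v, hv⟩ := hCyc la l hl hNm u1 u2 hu1 hL1 hu2
    have j2 : JK Q zO (zO u1)⁻¹ (u2 - toC v * u1) := ⟨hLT _ hv, Or.inl hv⟩
    have j3 := hadd _ _ (hmul v u1 j1) j2
    rw [add_sub_cancel] at j3
    rcases j3.2 with h | ⟨-, y, hy, he⟩
    · exact absurd h hL2
    · rw [div_eq_mul_inv, he, mul_inv_cancel_left₀ n1]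
      exact hy
  have hn0 : ∀ u1 : ℂ, Lat (toC la * u1) → ¬ Lat u1 → zO u1 ≠ 0 := fun u1 h h' =>
    (VP.not_iff.1 (hNV u1 h h')).1
  have hun : ∀ u' : ℂ, Lat (toC la * u') → ¬ Lat u' → UP Q ((zO u' - eZ) / zO u) := by
    intro u' hu' hL'
    have a1 : UP Q (zO u' / zO u) := by
      refine UP.iff.2 ⟨div_ne_zero (hn0 u' hu' hL') (hn0 u hu hLu), hquo u' u hu' hL' hu hLu, ?_⟩
      rw [inv_div]
      exact hquo u u' hu hLu hu' hL'
    have a2 : UP Q ((zO u' - eZ) / zO u') := by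
      refine UP.congr UP.one ?_
      have a3 : (zO u' - eZ) / zO u' - 1 = -(eZ * (zO u')⁻¹) := by
        field_simp [hn0 u' hu' hL']
        ring
      rw [a3]
      exact (MP.mul_left heV (VP.not_iff.1 (hNV u' hu' hL')).2).neg
    have a4 : (zO u' - eZ) / zO u = (zO u' - eZ) / zO u' * (zO u' / zO u) :=
      (div_mul_div_cancel₀ (hn0 u' hu' hL')).symm
    rw [a4]
    exact a2.mul a1
  refine ⟨⟨hT u hu, Or.inr (hNV u hu hLu)⟩, ?_⟩
  have hz := hn0 u hu hLu
  have e1 : ∏ u' ∈ R, (if Lat u' then (1 : Om) else zO u' - eZ) =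
      zO u ^ (l - 1) * ∏ u' ∈ R, (if Lat u' then (1 : Om) else (zO u' - eZ) / zO u) := by
    have e2 : ∏ u' ∈ R, (if Lat u' then (1 : Om) else zO u) = zO u ^ (l - 1) := by
      rw [Finset.prod_ite, Finset.prod_const_one, one_mul, Finset.prod_const, BD3_card hR hRc]
    rw [← e2, ← Finset.prod_mul_distrib]
    refine Finset.prod_congr rfl fun u' _ => ?_
    split_ifs
    · rw [one_mul]
    · rw [mul_div_cancel₀ _ hz]
  rw [e1, ← mul_assoc] at hc
  have hq : UP Q (∏ u' ∈ R, (if Lat u' then (1 : Om) else (zO u' - eZ) / zO u)) := by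
    refine UP.prod _ _ fun u' hu' => ?_
    split_ifs with hL'
    · exact UP.one
    · exact hun u' (hR.mem u' hu') hL'
  have h3 := hc.div hq
  rw [mul_div_cancel_right₀ _ hq.ne_zero] at h3
  refine UP.of_pow (n := 2) two_pos ?_
  obtain ⟨k, hk⟩ := hl.odd_of_ne_two hl2
  have e3 : (l - 1) / 2 = k := by omega
  have e4 : l - 1 = k * 2 := by omega
  rw [e3, mul_pow, ← pow_mul, ← e4]
  exact h3

end Pool.Agent.DI.DB
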