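import Pool.Agent.Lib.DI.D.SpecB
import Pool.Agent.Lib.DI.Val
import Pool.Agent.Lib.DI.E.Base

/-!
# Theorem DI, part D-B, module BD4: the Frobenius congruence
-/

set_option autoImplicit false

open scoped Pointwise

noncomputable section

namespace Pool.Agent.DI.DB

open Pool.Agent.MuZ Pool.Agent.FW Pool.Agent.DI Pool.Agent.DI.D Pool.Agent.DI.E

private theorem bd4_int : IsIntegral ℤ wO := by
  refine ⟨Polynomial.X ^ 2 - Polynomial.X + Polynomial.C 2, ?_, ?_⟩
  · monicity!
  · rw [Polynomial.eval₂_add, Polynomial.eval₂_sub, Polynomial.eval₂_pow, Polynomial.eval₂_X,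
      Polynomial.eval₂_C, wO_sq]
    simp

private theorem bd4_vp {Q : Ideal ZZ} [hP : Q.IsPrime] (v : OO) : VP Q (toO v) := by
  change VP Q ((v.re : Om) + v.im * wO)
  exact (VP.int _).add ((VP.int _).mul (VP.integral bd4_int))

/-- Products of elements which are congruent to `a`. -/
private theorem bd4_prod {Q : Ideal ZZ} [hP : Q.IsPrime] (R : Finset ℂ) (F : ℂ → Om) (a : Om)
    (ha : VP Q a) (h : ∀ u ∈ R, MP Q (F u - a)) : MP Q (∏ u ∈ R, F u - a ^ R.card) := by
  classical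
  induction R using Finset.induction_on with
  | empty =>
    rw [Finset.prod_empty, Finset.card_empty, pow_zero, sub_self]
    exact MP.zero
  | insert u R hu ih =>
    rw [Finset.prod_insert hu, Finset.card_insert_of_notMem hu]
    have h1 := h u (Finset.mem_insert_self u R)
    have h2 := ih fun i hi => h i (Finset.mem_insert_of_mem hi)
    have h3 : VP Q (F u) := by
      have := ha.add h1.vp
      rwa [add_sub_cancel] at this
    have e : F u * ∏ x ∈ R, F x - a ^ (R.card + 1) =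
        F u * (∏ x ∈ R, F x - a ^ R.card) + (F u - a) * a ^ R.card := by ring
    rw [e]
    exact (MP.mul_left h3 h2).add (MP.mul_right h1 (ha.pow _))

private theorem bd4_two : toO pO * toO pbO = 2 := by
  rw [toO_pO, toO_pbO]
  linear_combination -(wO_sq)

private theorem bd4_twoC : toC pO * toC pbO = 2 := by
  rw [toC_pO, toC_pbO]
  linear_combination -(wC_sq)

private theorem bd4_s7 : toO s7 * toO s7 = -7 := by
  rw [← map_mul, s7_sq, map_intCast]
  norm_num

/-- The denominator of `eZ` is a unit. -/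
private theorem bd4_den {Q : Ideal ZZ} [hP : Q.IsPrime] (h2 : ¬ MP Q 2) (h7 : ¬ MP Q 7) :
    ¬ MP Q (toO (4 * pbO ^ 2 * s7)) := by
  have e4 : toO (4 : OO) = 2 * 2 := by
    rw [map_ofNat]
    norm_num
  have hb : ¬ MP Q (toO pbO) := fun h => h2 (by
    rw [← bd4_two]
    exact MP.mul_left (bd4_vp pO) h)
  have hv2 : VP Q (2 : Om) := VP.nat 2
  intro h
  rw [map_mul, map_mul, map_pow, e4] at h
  rcases MP.mul_cases ((hv2.mul hv2).mul ((bd4_vp pbO).pow 2)) (bd4_vp s7) h with h1 | h1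
  · rcases MP.mul_cases (hv2.mul hv2) ((bd4_vp pbO).pow 2) h1 with h3 | h3
    · rcases MP.mul_cases hv2 hv2 h3 with h4 | h4
      · exact h2 h4
      · exact h2 h4
    · exact hb (MP.of_pow h3)
  · apply h7
    have h3 := (MP.mul_left (bd4_vp s7) h1).neg
    rw [bd4_s7, neg_neg] at h3
    exact h3

/-- `la - 1` is even: `la / π - 1 / π` is in the lattice. -/
private theorem bd4_tra {la : OO} (h : (2 : OO) ∣ la - 1) :
    ∃ k : OO, toC la * (1 / toC pO) = 1 / toC pO + toC k := by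
  obtain ⟨k, hk⟩ := h
  have h0 : toC pO ≠ 0 := by
    intro h0
    have h1 := bd4_twoC
    rw [h0, zero_mul] at h1
    norm_num at h1
  have h1 : toC la = 1 + 2 * toC k := by
    have h2 := congrArg toC hk
    rw [map_sub, map_one, map_mul, map_ofNat] at h2
    linear_combination h2
  refine ⟨pbO * k, ?_⟩
  rw [h1, map_mul]
  field_simp
  linear_combination (-toC k) * bd4_twoC

theorem tBD4 : S_BD4 := by
  intro hCop hFer hEun hPrF hXOm hD2 hD3 hUCop hUEx la l hl hl2 hl7 hNm Q hQ hla z hz hIz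
  have hP : Q.IsPrime := hQ.1
  obtain ⟨hla0, -, -, -, -, hcop⟩ := hCop la l hl hNm
  have hlacop : IsCoprime la 2 := hcop hl2
  obtain ⟨-, hnm, hquo, hbin⟩ := hFer la l hl hl2 hNm Q hQ hla
  have h2 : ¬ MP Q 2 := by
    have h := hnm 2 (fun h => hl2 ((Nat.prime_dvd_prime_iff_eq hl Nat.prime_two).1
      (by exact_mod_cast h)))
    push_cast at h
    exact h
  have h7 : ¬ MP Q 7 := by
    have h := hnm 7 (fun h => hl7 ((Nat.prime_dvd_prime_iff_eq hl (by norm_num)).1
      (by exact_mod_cast h)))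
    push_cast at h
    exact h
  obtain ⟨hUR, -, -, -, -, -, hLT, hLT', -, -, -, -, hcard⟩ := hUEx
  obtain ⟨R, hR⟩ := hUR la hla0
  have hRc : R.card = l := by
    have h := hcard la R hla0 hR
    rw [hNm] at h
    exact_mod_cast h
  obtain ⟨heV, -, -, -, -, hT, hIT, hT4, heQ, hun⟩ := hEun Q hQ h2
  obtain ⟨c, hc, hpr⟩ : ∃ c : Om, UP Q c ∧ ∀ z : ℂ, Tor z → ¬ Lat (toC la * z) →
      ∏ u ∈ R, (zO (z + u) - eZ) = c * (zO (toC la * z) - eZ) :=
    ⟨_, hun la R hlacop hR, hPrF la R hlacop hR⟩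
  have hRI : ∀ u ∈ R, IZ Q u := by
    intro u hu
    have h1 := hR.mem u hu
    by_cases hLu : Lat u
    · exact ⟨hLT u hLu, Or.inl hLu⟩
    · exact (hD3 la l hl hl2 hl7 hNm Q hQ hla u h1 hLu).1
  have key : ∀ y : ℂ, Tor y → ¬ IZ Q y → ¬ Lat (toC la * y) ∧ VP Q (zO y) ∧
      MP Q ((zO y - eZ) ^ l - c * (zO (toC la * y) - eZ)) := by
    intro y hy hIy
    have h1 : ¬ Lat y := fun h => hIy ⟨hy, Or.inl h⟩
    have h3 : VP Q (zO y) := by
      by_contra h
      exact hIy ⟨hy, Or.inr h⟩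
    have h4 : ¬ Lat (toC la * y) := fun h =>
      hIy (hD3 la l hl hl2 hl7 hNm Q hQ hla y h h1).1
    refine ⟨h4, h3, ?_⟩
    have h5 := bd4_prod R (fun u => zO (y + u) - eZ) (zO y - eZ) (h3.sub heV) (by
      intro u hu
      have h6 := (hD2 Q hQ h2).2.2.2.1 y u hy hIy (hRI u hu)
      have e : zO (y + u) - eZ - (zO y - eZ) = zO (y + u) - zO y := by ring
      change MP Q (zO (y + u) - eZ - (zO y - eZ))
      rw [e]
      exact h6)
    have h6 : ∏ u ∈ R, (fun u => zO (y + u) - eZ) u = c * (zO (toC la * y) - eZ) := hpr y hy h4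
    rw [h6, hRc] at h5
    have h7 := h5.neg
    rw [neg_sub] at h7
    exact h7
  -- the constant
  have hv4 : VP Q (4 : Om) := VP.nat 4
  have h4 : ¬ MP Q (toO 4) := by
    rw [map_ofNat]
    intro h
    have e : (4 : Om) = 2 * 2 := by norm_num
    have h2' : VP Q (2 : Om) := VP.nat 2
    rw [e] at h
    rcases MP.mul_cases h2' h2' h with h' | h'
    · exact h2 h'
    · exact h2 h'
  have hc1 : MP Q (c - 1) := by
    obtain ⟨-, -, h5⟩ := key _ hT hIT
    obtain ⟨k, hk⟩ := bd4_tra ((hUCop.2.2.2.2.1 la).1 ((hUCop.2.2.2.2.2.2.1 la).1 hlacop))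
    have h6 : zO (toC la * (1 / toC pO)) = zO (1 / toC pO) := by
      rw [hk]
      unfold zO
      rw [hXOm.1]
    rw [h6, hT4] at h5
    have h8 := hquo 1 4 h4
    rw [map_one, map_ofNat] at h8
    have h9 := MP.mul_left hv4 (h8.sub h5)
    have e : 4 * ((1 / 4 : Om) ^ l - 1 / 4 - ((1 / 4) ^ l - c * (1 / 4))) = c - 1 := by ring
    rw [e] at h9
    exact h9
  obtain ⟨hLz, hVz, h5⟩ := key z hz hIz
  have hVc : VP Q (c * (zO (toC la * z) - eZ)) := by
    have h := ((hVz.sub heV).pow l).sub h5.vp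
    rwa [sub_sub_cancel] at h
  have hVd : VP Q (zO (toC la * z) - eZ) := by
    have h := hc.inv.1.mul hVc
    rwa [inv_mul_cancel_left₀ hc.ne_zero] at h
  have hVy : VP Q (zO (toC la * z)) := by
    have h := hVd.add heV
    rwa [sub_add_cancel] at h
  refine ⟨?_, ?_⟩
  · rintro ⟨-, h | h⟩
    · exact hLz h
    · exact h hVy
  have h6 := MP.mul_right hc1 hVd
  have h8 := hbin (zO z) eZ hVz heV
  have h9 : MP Q (eZ ^ l - eZ) := by
    have h := hquo (4 * pO - pbO ^ 2) (4 * pbO ^ 2 * s7) (bd4_den h2 h7)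
    rw [← heQ] at h
    exact h
  have h11 := ((h8.sub h5).sub h6).sub h9
  have e : (zO z - eZ) ^ l - (zO z ^ l - eZ ^ l) - ((zO z - eZ) ^ l - c * (zO (toC la * z) - eZ)) -
      (c - 1) * (zO (toC la * z) - eZ) - (eZ ^ l - eZ) = zO (toC la * z) - zO z ^ l := by ring
  rw [e] at h11
  exact h11

end Pool.Agent.DI.DB
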