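import Pool.Agent.Lib.DI.D.SpecB
import Pool.Agent.Lib.DI.E.Base
import Pool.Agent.Lib.DI.Val

/-!
# Theorem DI, part D-B, module BD5: theta units
-/

set_option autoImplicit false

open scoped Pointwise

noncomputable section

namespace Pool.Agent.DI.DB

open Pool.Agent.MuZ Pool.Agent.DI Pool.Agent.DI.D

private theorem bd5_pO : toO pO = wO := by
  change ((0 : ℤ) : Om) + ((1 : ℤ) : Om) * wO = wO
  rw [Int.cast_zero, Int.cast_one, zero_add, one_mul]

private theorem bd5_pbO : toO pbO = 1 - wO := by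
  change ((1 : ℤ) : Om) + ((-1 : ℤ) : Om) * wO = 1 - wO
  rw [Int.cast_one, Int.cast_neg, Int.cast_one]
  ring

private theorem bd5_s7 : toO s7 = 2 * wO - 1 := by
  change ((-1 : ℤ) : Om) + ((2 : ℤ) : Om) * wO = 2 * wO - 1
  push_cast
  ring

private theorem bd5_int : IsIntegral ℤ wO := by
  refine ⟨Polynomial.X ^ 2 - Polynomial.X + Polynomial.C 2, ?_, ?_⟩
  · monicity!
  · simp only [Polynomial.eval₂_add, Polynomial.eval₂_sub, Polynomial.eval₂_pow,
      Polynomial.eval₂_X, Polynomial.eval₂_C, wO_sq]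
    simp

private theorem bd5_vp {Q : Ideal ZZ} [hP : Q.IsPrime] (c : OO) : VP Q (toO c) := by
  change VP Q ((c.re : Om) + c.im * wO)
  exact (VP.int _).add ((VP.int _).mul (VP.integral bd5_int))

private theorem bd5_ne {μ : OO} (hμ : IsCoprime μ 2) : μ ≠ 0 := by
  rintro rfl
  rw [isCoprime_zero_left] at hμ
  obtain ⟨u, hu⟩ := hμ.exists_right_inv
  have h1 : ((2 : ℕ) : OO) ∣ 1 := ⟨u, by rw [Nat.cast_ofNat]; exact hu.symm⟩
  have h2 := ((E.nat_dvd_iff 2 1).1 h1).1
  rw [E.re_one] at h2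
  norm_num at h2

theorem tBD5 : S_BD5 := by
  classical
  intro hMu hDif hD1 hEx μ S hμ hS Q hQ z hz hnq
  have hP : Q.IsPrime := hQ.1
  have hμ0 : μ ≠ 0 := bd5_ne hμ
  by_cases h2 : MP Q 2
  · have hab : ∃ a b : OO, Pr2 a b ∧ MP Q (toO a) := by
      have e : (2 : Om) = toO pO * toO pbO := by
        rw [bd5_pO, bd5_pbO]
        linear_combination wO_sq
      have h2' := h2
      rw [e] at h2'
      rcases MP.mul_cases (bd5_vp _) (bd5_vp _) h2' with h | h
      · exact ⟨pO, pbO, Or.inl ⟨rfl, rfl⟩, h⟩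
      · exact ⟨pbO, pO, Or.inr ⟨rfl, rfl⟩, h⟩
    obtain ⟨a, b, hp, ha⟩ := hab
    obtain ⟨d1, d2, d3, d4, d5, d6, d7, d8, d9, d10⟩ := hD1 a b hp Q hQ ha
    have hμu : UP Q (toO μ) := by
      refine ⟨bd5_vp _, fun h => ?_⟩
      obtain ⟨x, y, hxy⟩ := hμ
      have h3 := congrArg toO hxy
      rw [map_add, map_mul, map_mul, map_ofNat, map_one] at h3
      apply MP.one_not (P := Q)
      rw [← h3]
      exact (MP.mul_left (bd5_vp _) h).add (MP.mul_left (bd5_vp _) h2)
    have hs : UP Q (toO s7) := by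
      refine ⟨bd5_vp _, fun h => ?_⟩
      have e1 : (1 : Om) = toO s7 * toO s7 + ((4 : ℤ) : Om) * 2 := by
        rw [bd5_s7]
        push_cast
        linear_combination (-4 : Om) * wO_sq
      apply MP.one_not (P := Q)
      rw [e1]
      exact (MP.mul_left (bd5_vp _) h).add (MP.mul_left (VP.int 4) h2)
    have hi : ∀ u : ℂ, Lat (toC μ * u) → ¬ I2 Q (z + u) := fun u hu h => hnq u hu (d3 _ h)
    have hi0 : ¬ I2 Q z := by
      have h3 := hi 0 (by rw [mul_zero]; exact E.lat_zero)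
      rwa [add_zero] at h3
    have hI : ∀ u ∈ S, UP Q (zO z - zO u) := by
      intro u hu
      obtain ⟨m1, m2⟩ := hS.mem u hu
      have hu2 : ¬ I2 Q u := by
        intro h
        have h3 := d3 u h μ 1 hμu.2 (by rw [mul_one]; exact m1)
        rw [map_one, one_mul] at h3
        exact m2 h3
      have tu : Tor u := E.tor_of_lat hμ0 m1
      have v1 : VP Q (xO z) := by
        by_contra hh
        exact hi0 ⟨hz, Or.inr hh⟩
      have v2 : VP Q (xO u) := by
        by_contra hh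
        exact hu2 ⟨tu, Or.inr hh⟩
      have hx : UP Q (xO z - xO u) := by
        refine ⟨v1.sub v2, fun hh => ?_⟩
        rcases d5 z u hz tu hi0 hu2 hh with h | h
        · exact hi u m1 h
        · refine hi (-u) ?_ (by rwa [← sub_eq_add_neg])
          rw [mul_neg]
          exact E.lat_neg m1
      have e : zO z - zO u = (xO z - xO u) / toO s7 := by
        unfold zO
        ring
      rw [e]
      exact hx.div hs
    unfold Theta
    exact hμu.inv.mul (UP.prod _ _ fun u hu => (hI u hu).inv)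
  · have hM := hMu μ S hμ hS Q hQ h2
    obtain ⟨hz1, hz2, hz3⟩ := hDif Q hQ h2 μ hμ0 z hz hnq
    have hg : ∀ u ∈ S, UP Q ((zO z - zO u) / (if IZ Q u then zO u else 1)) ∧
        (if IZ Q u then zO u else (1 : Om)) ≠ 0 := by
      intro u hu
      obtain ⟨m1, m2⟩ := hS.mem u hu
      obtain ⟨a1, a2⟩ := hz3 u m1 m2
      by_cases hi : IZ Q u
      · rw [if_pos hi]
        exact ⟨(a2 hi).2, (a2 hi).1⟩
      · rw [if_neg hi, div_one]
        exact ⟨a1 hi, one_ne_zero⟩
    have e : Theta μ S z = (toO μ * ∏ u ∈ S, (if IZ Q u then zO u else 1))⁻¹ *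
        ∏ u ∈ S, ((zO z - zO u) / (if IZ Q u then zO u else 1))⁻¹ := by
      unfold Theta
      rw [mul_inv, ← Finset.prod_inv_distrib, mul_assoc, ← Finset.prod_mul_distrib]
      congr 1
      refine Finset.prod_congr rfl fun u hu => ?_
      rw [inv_div, div_eq_mul_inv, inv_mul_cancel_left₀ (hg u hu).2]
    rw [e]
    exact hM.inv.mul (UP.prod _ _ fun u hu => (hg u hu).1.inv)

end Pool.Agent.DI.DB
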