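import Pool.Agent.Lib.DI.D.SpecB
import Pool.Agent.Lib.DI.Val
import Pool.Agent.Lib.DI.E.Base

/-!
# Theorem DI, part D-B: the factors of the theta function (`S_Dif`)
-/

set_option autoImplicit false

noncomputable section

namespace Pool.Agent.DI.DB

open Pool.Agent.MuZ Pool.Agent.DI Pool.Agent.DI.D

/-- **The factors of the theta function.** -/
theorem tDif : S_Dif := by
  intro hD2 hUEx Q hQ h2 μ hμ z hz hall
  have hP : Q.IsPrime := hQ.1
  obtain ⟨-, -, hQp, -, hsep⟩ := hD2 Q hQ h2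
  obtain ⟨-, -, -, -, -, -, -, hTor, hL, -, hL0, -, -⟩ := hUEx
  have hni : ∀ u, Lat (toC μ * u) → ¬ IZ Q (z + u) := fun u hu h => hall u hu (hQp _ h)
  have hz0 : ¬ IZ Q z := by
    have := hni 0 (by rw [mul_zero]; exact hL0)
    rwa [add_zero] at this
  have hVz : VP Q (zO z) := by
    by_contra h
    exact hz0 ⟨hz, Or.inr h⟩
  refine ⟨hz0, hVz, fun u hu hul => ?_⟩
  have hTu : Tor u := hTor μ u hμ hu
  refine ⟨fun hnu => ?_, fun hIu => ?_⟩
  · have hVu : VP Q (zO u) := by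
      by_contra h
      exact hnu ⟨hTu, Or.inr h⟩
    refine ⟨VP.sub hVz hVu, fun hm => ?_⟩
    rcases hsep z u hz hTu hz0 hnu hm with h | h
    · exact hni u hu h
    · refine hni (-u) ?_ ?_
      · rw [mul_neg]
        exact (hL _ _ hu hu).2.2
      · rwa [← sub_eq_add_neg]
  · have hVu : ¬ VP Q (zO u) := hIu.2.resolve_left hul
    obtain ⟨h0, hm⟩ := VP.not_iff.1 hVu
    refine ⟨h0, UP.congr (x := -1) UP.one.neg ?_⟩
    have e : (zO z - zO u) / zO u - -1 = zO z * (zO u)⁻¹ := by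
      field_simp
      ring
    rw [e]
    exact MP.mul_left hVz hm

end Pool.Agent.DI.DB
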