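import Pool.Agent.Lib.DI.D.SpecB

/-!
# Theorem DI, part D-B, module BEun: the constant of the product formula is a unit
-/

set_option autoImplicit false

open scoped Pointwise

noncomputable section

namespace Pool.Agent.DI.DB

open Pool.Agent.MuZ Pool.Agent.FW Pool.Agent.DI Pool.Agent.DI.E Pool.Agent.DI.D

private theorem BEun_int : IsIntegral ℤ wO := by
  refine ⟨Polynomial.X ^ 2 - Polynomial.X + Polynomial.C 2, ?_, ?_⟩
  · monicity!
  · rw [Polynomial.eval₂_add, Polynomial.eval₂_sub, Polynomial.eval₂_pow, Polynomial.eval₂_X,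
      Polynomial.eval₂_C, wO_sq]
    simp

private theorem BEun_s7 : toO s7 = 2 * wO - 1 := by
  change ((-1 : ℤ) : Om) + ((2 : ℤ) : Om) * wO = 2 * wO - 1
  push_cast
  ring

private theorem BEun_notLat (A : OO) (n : ℤ) (hn : 1 < n) (hA : Nm A = n) : ¬ Lat (1 / toC A) := by
  rintro ⟨v, hv⟩
  have hA0 : toC A ≠ 0 := toC_ne (by rintro rfl; simp [Nm] at hA; omega)
  have h1 : toC (A * v) = toC 1 := by
    rw [map_mul, ← hv, map_one]
    field_simp
  have h2 := congrArg Nm (toC_inj h1)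
  rw [Nm_mul, hA, Nm_one] at h2
  have h3 := Nm_nonneg v
  rcases h3.lt_or_eq with h4 | h4
  · nlinarith
  · rw [← h4, mul_zero] at h2
    omega

theorem tEun : S_Eun := by
  classical
  intro hXOm hXPr Q hQ h2
  have hP : Q.IsPrime := hQ.1
  obtain ⟨-, -, -, -, -, hval, -⟩ := hXOm
  have hw : wO ^ 2 = wO - 2 := wO_sq
  have hr1 : toO s7 = 2 * wO - 1 := BEun_s7
  have hr : toO s7 ^ 2 = -7 := by
    rw [hr1]
    linear_combination (4 : Om) * hw
  have hr0 : toO s7 ≠ 0 := by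
    intro h0
    rw [h0] at hr
    norm_num at hr
  have hx : ∀ z : ℂ, xO z = toO s7 * zO z + 1 / 4 := by
    intro z
    unfold zO
    field_simp
    ring
  have hV2 : VP Q (2 : Om) := by
    have := VP.nat (P := Q) 2
    exact_mod_cast this
  have hU2 : UP Q (2 : Om) := ⟨hV2, h2⟩
  have hVw : VP Q wO := VP.integral BEun_int
  have hhalf : VP Q (2 : Om)⁻¹ := hU2.inv.1
  have hq : ∀ (y : Om) (k : ℕ), VP Q y → VP Q (y / 2 ^ k) := by
    intro y k hy
    rw [div_eq_mul_inv, ← inv_pow]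
    exact hy.mul (hhalf.pow k)
  have hn : ∀ n : ℤ, VP Q (n : Om) := VP.int
  have hVwb : VP Q (1 - wO) := VP.one.sub hVw
  have hwwb : wO * (1 - wO) = 2 := by linear_combination (-1 : Om) * hw
  have hUw : UP Q wO := by
    refine ⟨hVw, fun h => h2 ?_⟩
    rw [← hwwb]
    exact MP.mul_right h hVwb
  have hUwb : UP Q (1 - wO) := by
    refine ⟨hVwb, fun h => h2 ?_⟩
    rw [← hwwb]
    exact MP.mul_left hVw h
  have hr0' : 2 * wO - 1 ≠ 0 := by rw [← hr1]; exact hr0
  have hw0 : wO ≠ 0 := hUw.ne_zero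
  have hwb0 : 1 - wO ≠ 0 := hUwb.ne_zero
  have hj := mul_inv_cancel₀ hw0
  have hjb := mul_inv_cancel₀ hwb0
  have k1 : (2 * wO - 1) * zO (1 / toC pO) = (1 - wO) * (wO⁻¹) ^ 2 - 1 / 4 := by
    have k := hval pO pbO (Or.inl ⟨rfl, rfl⟩)
    rw [toO_pO, toO_pbO, hx, hr1] at k
    have k2 : (1 - wO) / wO ^ 2 = (1 - wO) * (wO⁻¹) ^ 2 := by rw [div_eq_mul_inv, inv_pow]
    rw [k2] at k
    linear_combination k
  have k2 : (2 * wO - 1) * eZ = wO * ((1 - wO)⁻¹) ^ 2 - 1 / 4 := by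
    have k := hval pbO pO (Or.inr ⟨rfl, rfl⟩)
    rw [toO_pO, toO_pbO, hx, hr1] at k
    have k2 : wO / (1 - wO) ^ 2 = wO * ((1 - wO)⁻¹) ^ 2 := by rw [div_eq_mul_inv, inv_pow]
    rw [k2] at k
    unfold eZ
    linear_combination k
  have e1 : zO (1 / toC pO) = -((2 + wO) / 2 ^ 2 * (wO⁻¹) ^ 2) := by
    refine mul_left_cancel₀ hr0' ?_
    rw [k1]
    linear_combination (wO⁻¹ ^ 2 / 4) * hw + 1 / 4 * (wO * wO⁻¹ + 1) * hj
  have e2 : eZ = (3 - wO) / 2 ^ 2 * ((1 - wO)⁻¹) ^ 2 := by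
    refine mul_left_cancel₀ hr0' ?_
    rw [k2]
    linear_combination ((1 - wO)⁻¹ ^ 2 / 4) * hw + 1 / 4 * ((1 - wO) * (1 - wO)⁻¹ + 1) * hjb
  have v1 : VP Q (zO (1 / toC pO)) := by
    rw [e1]
    exact ((hq _ 2 (hV2.add hVw)).mul (hUw.inv.1.pow 2)).neg
  have v2 : VP Q eZ := by
    have a := hn 3
    push_cast at a
    rw [e2]
    exact (hq _ 2 (a.sub hVw)).mul (hUwb.inv.1.pow 2)
  have hNp : Nm pO = 2 := by simp [Nm, pO]
  have hNb : Nm pbO = 2 := by simp [Nm, pbO]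
  have hppO : pO * pbO = ((2 : ℕ) : OO) := by
    apply OO.ext'
    · rw [re_mul, re_nat]
      simp [pO, pbO]
    · rw [im_mul, im_nat]
      simp [pO, pbO]
  have hpp : toC pO * toC pbO = 2 := by
    rw [← map_mul, hppO, map_natCast]
    norm_num
  have hp0 : toC pO ≠ 0 := by
    intro h
    rw [h, zero_mul] at hpp
    exact two_ne_zero hpp.symm
  have hb0 : toC pbO ≠ 0 := by
    intro h
    rw [h, mul_zero] at hpp
    exact two_ne_zero hpp.symm
  have f1 : 1 / toC pbO = toC pO / (2 : ℕ) := by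
    rw [div_eq_div_iff hb0 (by norm_num), hpp]
    norm_num
  have f2 : 1 / toC pO = toC pbO / (2 : ℕ) := by
    rw [div_eq_div_iff hp0 (by norm_num), mul_comm (toC pbO), hpp]
    norm_num
  have t1 : Tor (1 / toC pbO) := ⟨pO, 2, by norm_num, f1⟩
  have t2 : Tor (1 / toC pO) := ⟨pbO, 2, by norm_num, f2⟩
  have n1 : ¬ Lat (1 / toC pbO) := BEun_notLat pbO 2 (by norm_num) hNb
  have n2 : ¬ Lat (1 / toC pO) := BEun_notLat pO 2 (by norm_num) hNp
  refine ⟨v2, t1, n1, ⟨pO, ?_⟩, ?_, t2, ?_, ?_, ?_, ?_⟩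
  · rw [f1]
    push_cast
    ring
  · rintro ⟨-, h | h⟩
    · exact n1 h
    · exact h v2
  · rintro ⟨-, h | h⟩
    · exact n2 h
    · exact h v1
  · refine mul_left_cancel₀ hr0' ?_
    rw [mul_sub, k1, k2]
    have j1 : wO⁻¹ = (1 - wO) / 2 := by
      rw [eq_div_iff (by norm_num)]
      refine mul_left_cancel₀ hw0 ?_
      linear_combination 2 * hj - hwwb
    have j2 : (1 - wO)⁻¹ = wO / 2 := by
      rw [eq_div_iff (by norm_num)]
      refine mul_left_cancel₀ hwb0 ?_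
      linear_combination 2 * hjb - hwwb
    rw [j1, j2]
    linear_combination (1 / 4 : Om) * (-2 * wO + 1) * hw
  · rw [map_sub, map_mul, map_pow, map_mul, map_mul, map_pow, toO_pO, toO_pbO, map_ofNat,
      eq_div_iff (by
        refine mul_ne_zero (mul_ne_zero (by norm_num) (pow_ne_zero 2 hwb0)) hr0), hr1]
    linear_combination (4 * (1 - wO) ^ 2) * k2 + (4 * wO * ((1 - wO) * (1 - wO)⁻¹ + 1)) * hjb
  · intro α R hα hR
    have k := hXPr pO pbO (Or.inl ⟨rfl, rfl⟩) α R hα hR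
    refine UP.of_pow (n := 2) (by norm_num) ?_
    have e1 : ∀ u ∈ R, (if Lat u then (1 : Om) else zO u - eZ) =
        (if Lat u then (1 : Om) else xO u - xO (1 / toC pbO)) *
          (if Lat u then (1 : Om) else (toO s7)⁻¹) := by
      intro u _
      split_ifs
      · rw [mul_one]
      · rw [hx u, hx (1 / toC pbO)]
        unfold eZ
        field_simp
        ring
    have e2 : (toO α ^ 2 * ∏ u ∈ R, (if Lat u then 1 else zO u - eZ)) ^ 2 =
        ∏ u ∈ R, (if Lat u then (1 : Om) else ((1 - wO)⁻¹) ^ 4) := by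
      rw [Finset.prod_congr rfl e1, Finset.prod_mul_distrib, ← mul_assoc, mul_pow, k,
        ← Finset.prod_pow, ← Finset.prod_mul_distrib]
      refine Finset.prod_congr rfl fun u _ => ?_
      split_ifs
      · ring
      · rw [toO_pbO, inv_pow, inv_pow, hr]
        field_simp
    rw [e2]
    refine UP.prod R _ fun u _ => ?_
    split_ifs
    · exact UP.one
    · exact hUwb.inv.pow 4

end Pool.Agent.DI.DB
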