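import Pool.Agent.Lib.DI.D.SpecB
import Pool.Agent.Lib.DI.Val
import Pool.Agent.Lib.DI.E.Base

/-!
# Theorem DI, part D-B, module BFer: the theorem of Fermat modulo `Q`
-/

set_option autoImplicit false

noncomputable section

namespace Pool.Agent.DI.DB

open Pool.Agent.MuZ Pool.Agent.DI Pool.Agent.DI.D Pool.Agent.DI.E

private theorem BFer_int : IsIntegral ℤ wO := by
  refine ⟨Polynomial.X ^ 2 - Polynomial.X + Polynomial.C 2, ?_, ?_⟩
  · monicity!
  · rw [Polynomial.eval₂_add, Polynomial.eval₂_sub, Polynomial.eval₂_pow, Polynomial.eval₂_X,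
      Polynomial.eval₂_C, wO_sq]
    simp

private theorem BFer_VP {Q : Ideal ZZ} [hP : Q.IsPrime] (v : OO) : VP Q (toO v) := by
  change VP Q ((v.re : Om) + v.im * wO)
  exact (VP.int v.re).add ((VP.int v.im).mul (VP.integral BFer_int))

private theorem BFer_fermat (l : ℕ) (hl : l.Prime) (n : ℤ) : (l : ℤ) ∣ n ^ l - n := by
  have : Fact l.Prime := ⟨hl⟩
  rw [← ZMod.intCast_zmod_eq_zero_iff_dvd]
  push_cast
  rw [ZMod.pow_card, sub_self]

/-- Fermat's theorem modulo `Q`. -/
theorem tFer : S_Fer := by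
  intro hCop la l hl hl2 hN Q hQ hla
  have hP : Q.IsPrime := hQ.1
  obtain ⟨_, hll, hres, -, -, -⟩ := hCop la l hl hN
  have hlM : MP Q (l : Om) := by
    have h1 : (l : Om) = toO la * toO (cjO la) := by
      rw [← map_mul, ← hll, map_natCast]
    rw [h1]
    exact MP.mul_right hla (BFer_VP _)
  have hlZ : ∀ n : ℤ, (l : ℤ) ∣ n → MP Q (n : Om) := by
    rintro n ⟨k, rfl⟩
    push_cast
    exact MP.mul_right hlM (VP.int k)
  have h2 : ∀ n : ℤ, ¬ (l : ℤ) ∣ n → ¬ MP Q (n : Om) := by
    intro n hn hM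
    have hp : Prime (l : ℤ) := Nat.prime_iff_prime_int.1 hl
    have hc : IsCoprime (l : ℤ) n := (hp.coprime_iff_not_dvd).2 hn
    obtain ⟨x, y, hxy⟩ := hc
    have h3 : MP Q ((x : Om) * l + y * n) :=
      (MP.mul_left (VP.int x) hlM).add (MP.mul_left (VP.int y) hM)
    have h4 : (x : Om) * l + y * n = 1 := by
      have := congrArg (fun t : ℤ => (t : Om)) hxy
      push_cast at this
      exact this
    rw [h4] at h3
    exact MP.one_not h3
  have hodd : Odd l := hl.odd_of_ne_two hl2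
  have h3 : ∀ v : OO, MP Q (toO v ^ l - toO v) := by
    intro v
    obtain ⟨n, hn⟩ := hres v
    have hv1 : MP Q (toO v - n) := by
      obtain ⟨j, hj⟩ := hn
      have e : toO v - n = toO la * toO j := by
        rw [← map_mul, ← hj, map_sub, map_intCast]
      rw [e]
      exact MP.mul_right hla (BFer_VP _)
    have hv2 : MP Q (toO v ^ l - (n : Om) ^ l) := by
      obtain ⟨j, hj⟩ : la ∣ v ^ l - (n : OO) ^ l := hn.trans (sub_dvd_pow_sub_pow _ _ _)
      have e : toO v ^ l - (n : Om) ^ l = toO la * toO j := by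
        rw [← map_mul, ← hj, map_sub, map_pow, map_pow, map_intCast]
      rw [e]
      exact MP.mul_right hla (BFer_VP _)
    have hv3 : MP Q ((n : Om) ^ l - n) := by
      have := hlZ _ (BFer_fermat l hl n)
      push_cast at this
      exact this
    have e : toO v ^ l - toO v = (toO v ^ l - (n : Om) ^ l) + ((n : Om) ^ l - n) -
        (toO v - n) := by ring
    rw [e]
    exact (hv2.add hv3).sub hv1
  refine ⟨hlM, h2, ?_, ?_⟩
  · intro v u hu
    have hq : UP Q (toO u) := ⟨BFer_VP u, hu⟩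
    have hq0 := hq.ne_zero
    have e : (toO v / toO u) ^ l - toO v / toO u =
        ((toO v ^ l - toO v) * toO u - (toO u ^ l - toO u) * toO v) *
          (toO u * toO u ^ l)⁻¹ := by
      have hq1 : toO u ^ l ≠ 0 := pow_ne_zero _ hq0
      rw [div_pow, ← div_eq_mul_inv, div_sub_div _ _ hq1 hq0,
        div_eq_div_iff (mul_ne_zero hq1 hq0) (mul_ne_zero hq0 hq1)]
      ring
    rw [e]
    exact MP.mul_right ((MP.mul_right (h3 v) (BFer_VP u)).sub
      (MP.mul_right (h3 u) (BFer_VP v))) (hq.mul (hq.pow l)).inv.1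
  · intro x y hx hy
    have e : (x - y) ^ l - (x ^ l - y ^ l) = (l : Om) *
        ∑ k ∈ Finset.Ioo 0 l, x ^ k * (-y) ^ (l - k) * ((l.choose k / l : ℕ) : Om) := by
      have h4 := add_pow_prime_eq' hl x (-y)
      rw [hodd.neg_pow] at h4
      rw [sub_eq_add_neg x y, h4]
      ring
    rw [e]
    refine MP.mul_right hlM (VP.sum _ _ fun k _ => ?_)
    exact ((hx.pow _).mul (hy.neg.pow _)).mul (VP.nat _)

end Pool.Agent.DI.DB
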