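import Pool.Agent.Lib.DI.D.SpecB
import Pool.Agent.Lib.DI.Val
import Pool.Agent.Lib.DI.E.Base

/-!
# Theorem DI, part D-B, module `BHlf`: products over a half system

Author helper79. The proof is in the docstring of `S_Hlf` (`DI/D/SpecB.lean`).
-/

set_option autoImplicit false

noncomputable section

namespace Pool.Agent.DI.DB

open Pool.Agent.MuZ Pool.Agent.DI Pool.Agent.DI.D Pool.Agent.DI.E

/-- A point of order dividing `μ` and `2` is a lattice point. -/
private theorem Hlf_a {μ : OO} (h : IsCoprime μ 2) {u : ℂ} (hu : Lat (toC μ * u)) (h2 : Lat (2 * u)) :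
    Lat u := by
  obtain ⟨x, y, hxy⟩ := h
  have h3 : Lat (toC 2 * u) := by
    rw [map_ofNat]
    exact h2
  have h1 := lat_add (lat_mul x hu) (lat_mul y h3)
  have h4 : toC x * (toC μ * u) + toC y * (toC 2 * u) = u := by
    have h5 : toC x * toC μ + toC y * toC 2 = 1 := by
      rw [← map_mul, ← map_mul, ← map_add, hxy, map_one]
    linear_combination u * h5
  rwa [h4] at h1

open Classical in
theorem tHlf : S_Hlf := by
  intro _ μ R S hcop hR hS F hF
  have hneg : ∀ u : ℂ, Lat (toC μ * u) → Lat (toC μ * -u) := by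
    intro u hu
    rw [mul_neg]
    exact lat_neg hu
  have hr : ∀ u : ℂ, ∃ v : ℂ, Lat (toC μ * u) → v ∈ R ∧ Lat (u - v) := by
    intro u
    by_cases h : Lat (toC μ * u)
    · obtain ⟨v, hv, hv2⟩ := hR.ex u h
      exact ⟨v, fun _ => ⟨hv, hv2⟩⟩
    · exact ⟨0, fun h' => absurd h' h⟩
  choose r hr using hr
  have hFr : ∀ u : ℂ, Lat (toC μ * u) → F (r u) = F u := by
    intro u hu
    obtain ⟨h1, v, hv⟩ := hr u hu
    have h2 : r u + toC v = u := by
      rw [← hv]
      ring
    rw [← (hF (r u) (hR.mem _ h1)).1 v, h2]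
  have hrl : ∀ u : ℂ, Lat (toC μ * u) → ¬ Lat u → ¬ Lat (r u) := by
    intro u hu hn h1
    apply hn
    have h2 := lat_add (hr u hu).2 h1
    rwa [sub_add_cancel] at h2
  have hinj : ∀ u : ℂ, Lat (toC μ * u) → ∀ u' : ℂ, Lat (toC μ * u') → r u = r u' → Lat (u - u') := by
    intro u hu u' hu' h
    have h2 := lat_sub (hr u hu).2 (hr u' hu').2
    rw [h, sub_sub_sub_cancel_right] at h2
    exact h2
  have hSl : ∀ u ∈ S, Lat (toC μ * u) := fun u hu => (hS.mem u hu).1
  have hi1 : ∀ u ∈ S, ∀ u' ∈ S, r u = r u' → u = u' := by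
    intro u hu u' hu' h
    exact hS.uni u hu u' hu' (Or.inl (hinj u (hSl u hu) u' (hSl u' hu') h))
  have hi2 : ∀ u ∈ S, ∀ u' ∈ S, r (-u) = r (-u') → u = u' := by
    intro u hu u' hu' h
    have h1 := lat_neg (hinj (-u) (hneg u (hSl u hu)) (-u') (hneg u' (hSl u' hu')) h)
    have h2 : -(-u - -u') = u - u' := by ring
    rw [h2] at h1
    exact hS.uni u hu u' hu' (Or.inl h1)
  have hdisj : Disjoint (S.image r) (S.image fun u => r (-u)) := by
    rw [Finset.disjoint_left]
    intro v hv hv'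
    obtain ⟨u, hu, rfl⟩ := Finset.mem_image.1 hv
    obtain ⟨u', hu', h⟩ := Finset.mem_image.1 hv'
    have h1 := hinj u (hSl u hu) (-u') (hneg u' (hSl u' hu')) h.symm
    rw [sub_neg_eq_add] at h1
    have h2 : u = u' := hS.uni u hu u' hu' (Or.inr h1)
    rw [← h2, ← two_mul] at h1
    exact (hS.mem u hu).2 (Hlf_a hcop (hSl u hu) h1)
  have hset : (R.filter fun u => ¬ Lat u) = S.image r ∪ S.image fun u => r (-u) := by
    ext v
    rw [Finset.mem_filter, Finset.mem_union, Finset.mem_image, Finset.mem_image]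
    constructor
    · rintro ⟨hv, hvl⟩
      obtain ⟨u, hu, h | h⟩ := hS.ex v (hR.mem v hv) hvl
      · left
        refine ⟨u, hu, ?_⟩
        obtain ⟨h1, h2⟩ := hr u (hSl u hu)
        apply hR.uni _ h1 _ hv
        have h3 := lat_neg (lat_add h h2)
        have h4 : -(v - u + (u - r u)) = r u - v := by ring
        rwa [h4] at h3
      · right
        refine ⟨u, hu, ?_⟩
        obtain ⟨h1, h2⟩ := hr (-u) (hneg u (hSl u hu))
        apply hR.uni _ h1 _ hv
        have h3 := lat_neg (lat_add h h2)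
        have h4 : -(v + u + (-u - r (-u))) = r (-u) - v := by ring
        rwa [h4] at h3
    · rintro (⟨u, hu, rfl⟩ | ⟨u, hu, rfl⟩)
      · exact ⟨(hr u (hSl u hu)).1, hrl u (hSl u hu) (hS.mem u hu).2⟩
      · exact ⟨(hr _ (hneg u (hSl u hu))).1,
          hrl _ (hneg u (hSl u hu)) fun h => (hS.mem u hu).2 (lat_neg_iff.1 h)⟩
  have h1 : ∏ u ∈ R, (if Lat u then 1 else F u) = ∏ u ∈ R.filter fun u => ¬ Lat u, F u := by
    rw [Finset.prod_filter]
    refine Finset.prod_congr rfl fun u _ => ?_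
    by_cases h : Lat u
    · rw [if_pos h, if_neg (not_not.2 h)]
    · rw [if_neg h, if_pos h]
  rw [h1, hset, Finset.prod_union hdisj, Finset.prod_image hi1, Finset.prod_image hi2, sq]
  congr 1
  · exact Finset.prod_congr rfl fun u hu => hFr u (hSl u hu)
  · refine Finset.prod_congr rfl fun u hu => ?_
    rw [hFr _ (hneg u (hSl u hu)), (hF u (hSl u hu)).2]

end Pool.Agent.DI.DB
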