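import Pool.Agent.Lib.DI.D.SpecB
import Pool.Agent.Lib.DI.Val
import Pool.Agent.Lib.DI.E.Base

/-!
# Theorem DI, part D-B: multiplication of half systems (`S_LaS`)
-/

set_option autoImplicit false

noncomputable section

namespace Pool.Agent.DI.DB

open Pool.Agent.MuZ Pool.Agent.DI Pool.Agent.DI.D Pool.Agent.DI.E

/-- (a) of the proof. -/
private theorem LaS_a {la μ x y : OO} (h : x * la + y * μ = 1) {u : ℂ} (hu : Lat (toC μ * u)) :
    Lat (u - toC x * (toC la * u)) := by
  have h1 := lat_mul y hu
  have h2 : toC x * toC la + toC y * toC μ = 1 := by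
    rw [← map_mul, ← map_mul, ← map_add, h, map_one]
  have h3 : u - toC x * (toC la * u) = toC y * (toC μ * u) := by
    linear_combination -u * h2
  rw [h3]
  exact h1

/-- If `la u` is a lattice point then so is `u`. -/
private theorem LaS_b {la μ x y : OO} (h : x * la + y * μ = 1) {u : ℂ} (hu : Lat (toC μ * u))
    (hl : Lat (toC la * u)) : Lat u := by
  have h1 := lat_add (LaS_a h hu) (lat_mul x hl)
  rwa [sub_add_cancel] at h1

private theorem LaS_sub {la μ x y : OO} (h : x * la + y * μ = 1) {S : Finset ℂ} (hS : IsHalf μ S)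
    {u u' : ℂ} (hu : u ∈ S) (hu' : u' ∈ S) (hl : Lat (toC la * u - toC la * u')) : Lat (u - u') := by
  apply LaS_b h
  · rw [mul_sub]
    exact lat_sub (hS.mem u hu).1 (hS.mem u' hu').1
  · rwa [mul_sub]

private theorem LaS_add {la μ x y : OO} (h : x * la + y * μ = 1) {S : Finset ℂ} (hS : IsHalf μ S)
    {u u' : ℂ} (hu : u ∈ S) (hu' : u' ∈ S) (hl : Lat (toC la * u + toC la * u')) : Lat (u + u') := by
  apply LaS_b h
  · rw [mul_add]
    exact lat_add (hS.mem u hu).1 (hS.mem u' hu').1
  · rwa [mul_add]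

theorem tLaS : S_LaS := by
  intro _ μ S hS la hla
  obtain ⟨x, y, h⟩ := hla
  refine ⟨⟨?_, ?_, ?_⟩, ?_⟩
  · intro v hv
    obtain ⟨u, hu, rfl⟩ := Finset.mem_image.1 hv
    obtain ⟨h1, h2⟩ := hS.mem u hu
    refine ⟨?_, fun h3 => h2 (LaS_b h h1 h3)⟩
    have h4 := lat_mul la h1
    have h5 : toC μ * (toC la * u) = toC la * (toC μ * u) := by ring
    rw [h5]
    exact h4
  · intro z hz hnz
    have hz1 : Lat (toC μ * (toC x * z)) := by
      have h4 := lat_mul x hz
      have h5 : toC μ * (toC x * z) = toC x * (toC μ * z) := by ring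
      rw [h5]
      exact h4
    have hnz1 : ¬ Lat (toC x * z) := by
      intro h3
      apply hnz
      have h4 := lat_add (LaS_a h hz) (lat_mul la h3)
      have h5 : z - toC x * (toC la * z) + toC la * (toC x * z) = z := by ring
      rwa [h5] at h4
    obtain ⟨u, hu, hzu⟩ := hS.ex _ hz1 hnz1
    refine ⟨toC la * u, Finset.mem_image_of_mem _ hu, ?_⟩
    rcases hzu with h3 | h3
    · left
      have h4 := lat_add (LaS_a h hz) (lat_mul la h3)
      have h5 : z - toC x * (toC la * z) + toC la * (toC x * z - u) = z - toC la * u := by ring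
      rwa [h5] at h4
    · right
      have h4 := lat_add (LaS_a h hz) (lat_mul la h3)
      have h5 : z - toC x * (toC la * z) + toC la * (toC x * z + u) = z + toC la * u := by ring
      rwa [h5] at h4
  · intro v hv v' hv' hvv
    obtain ⟨u, hu, rfl⟩ := Finset.mem_image.1 hv
    obtain ⟨u', hu', rfl⟩ := Finset.mem_image.1 hv'
    have h3 : u = u' := by
      apply hS.uni u hu u' hu'
      rcases hvv with h4 | h4
      · exact Or.inl (LaS_sub h hS hu hu' h4)
      · exact Or.inr (LaS_add h hS hu hu' h4)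
    rw [h3]
  · intro u hu u' hu' huu
    apply hS.uni u hu u' hu'
    left
    apply LaS_sub h hS hu hu'
    rw [huu, sub_self]
    exact lat_zero

end Pool.Agent.DI.DB
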