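import Pool.Agent.Lib.DI.D.SpecB
import Pool.Agent.Lib.DI.Val
import Pool.Agent.Lib.DI.E.Base

/-!
# Theorem DI, part D-B, module `BMuU`: the kernel part of the theta function

Author helper27. The proof is in the docstring of `S_MuU` (`DI/D/SpecB.lean`).
-/

set_option autoImplicit false

noncomputable section

namespace Pool.Agent.DI.DB

open Pool.Agent.MuZ Pool.Agent.DI Pool.Agent.DI.D

private theorem ne_zero_of_cop {μ : OO} (h : IsCoprime μ 2) : μ ≠ 0 := by
  rintro rfl
  obtain ⟨a, b, h⟩ := h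
  have h1 : b * ((2 : ℕ) : OO) = 1 := by
    push_cast
    rw [← h]
    ring
  have h2 := congrArg Nm h1
  rw [E.Nm_mul, E.Nm_nat, E.Nm_one] at h2
  push_cast at h2
  omega

theorem tMuU : S_MuU := by
  intro hHlf hEun hX hD2 hU μ S hcop hS Q hQ hQ2
  haveI hP : Q.IsPrime := hQ.1
  obtain ⟨heZ, hT, hTl, h2T, hTI, -, -, -, -, hunit⟩ := hEun Q hQ hQ2
  obtain ⟨hsys, -, -, -, -, -, hlatTor, htor2, -, -, -, -, -⟩ := hU
  obtain ⟨hper, heven, -⟩ := hX
  obtain ⟨hA, hM, -, -, hE⟩ := hD2 Q hQ hQ2
  have hμ : μ ≠ 0 := ne_zero_of_cop hcop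
  obtain ⟨R, hR⟩ := hsys μ hμ
  have h1 := hHlf μ R S hcop hR hS (fun u => zO u - eZ)
    (fun z _ => ⟨fun v => by simp only [zO, hper], by simp only [zO, heven]⟩)
  have h2 := hunit μ R hcop hR
  rw [h1, ← mul_pow] at h2
  have h3 := UP.of_pow (by norm_num : 0 < 2) h2
  have hlat : ∀ w : ℂ, Lat w → IZ Q w := fun w hw => ⟨hlatTor w hw, Or.inl hw⟩
  have hclaim : ∀ u ∈ S, (open Classical in (if IZ Q u then zO u else 1) : Om) ≠ 0 ∧
      UP Q ((zO u - eZ) / (open Classical in (if IZ Q u then zO u else 1))) := by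
    intro u hu
    obtain ⟨hμu, hul⟩ := hS.mem u hu
    by_cases hI : IZ Q u
    · rw [if_pos hI]
      have h4 : ¬ VP Q (zO u) := hI.2.resolve_left hul
      obtain ⟨h5, h6⟩ := VP.not_iff.1 h4
      refine ⟨h5, UP.congr UP.one ?_⟩
      have h7 : (zO u - eZ) / zO u - 1 = - (eZ * (zO u)⁻¹) := by
        field_simp
        ring
      rw [h7]
      exact (MP.mul_left heZ h6).neg
    · rw [if_neg hI]
      refine ⟨one_ne_zero, ?_⟩
      rw [div_one]
      have htu : Tor u := htor2 μ u hμ hμu
      have hv : VP Q (zO u) := by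
        by_contra h
        exact hI ⟨htu, Or.inr h⟩
      refine ⟨hv.sub heZ, fun hm => hI ?_⟩
      have h2u : IZ Q (2 * u) := by
        rcases hE u (1 / toC pbO) htu hT hI hTI hm with h | h
        · have h5 := hM 2 _ h
          have h6 := hA _ _ h5 (hlat _ (E.lat_neg h2T))
          have e : toC 2 * (u + 1 / toC pbO) + -(2 * (1 / toC pbO)) = 2 * u := by
            rw [map_ofNat]
            ring
          rwa [e] at h6
        · have h5 := hM 2 _ h
          have h6 := hA _ _ h5 (hlat _ h2T)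
          have e : toC 2 * (u - 1 / toC pbO) + (2 * (1 / toC pbO)) = 2 * u := by
            rw [map_ofNat]
            ring
          rwa [e] at h6
      obtain ⟨x, y, hxy⟩ := hcop
      have h8 := hA _ _ (hM x _ (hlat _ hμu)) (hM y _ h2u)
      have e : toC x * (toC μ * u) + toC y * (2 * u) = u := by
        have e1 := congrArg toC hxy
        rw [map_add, map_mul, map_mul, map_one, map_ofNat] at e1
        linear_combination u * e1
      rwa [e] at h8
  have h9 : ∏ u ∈ S, (zO u - eZ) = (∏ u ∈ S, (open Classical in (if IZ Q u then zO u else 1) : Om)) *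
      ∏ u ∈ S, ((zO u - eZ) / (open Classical in (if IZ Q u then zO u else 1))) := by
    rw [← Finset.prod_mul_distrib]
    refine Finset.prod_congr rfl fun u hu => ?_
    rw [mul_div_cancel₀ _ (hclaim u hu).1]
  have h10 : UP Q (∏ u ∈ S, ((zO u - eZ) / (open Classical in (if IZ Q u then zO u else 1)))) :=
    UP.prod S _ fun u hu => (hclaim u hu).2
  have h11 := h3.div h10
  rw [h9, ← mul_assoc, mul_div_assoc, div_self h10.ne_zero, mul_one] at h11
  exact h11

end Pool.Agent.DI.DB
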