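import Pool.Agent.Lib.DI.D.SpecB

/-!
# Theorem DI, part D-B, module BPrF: the product formula for `Z`
-/

set_option autoImplicit false

open scoped Pointwise

noncomputable section

namespace Pool.Agent.DI.DB

open Pool.Agent.MuZ Pool.Agent.FW Pool.Agent.DI Pool.Agent.DI.E Pool.Agent.DI.D

private theorem BPrF_notLat (A : OO) (n : ℤ) (hn : 1 < n) (hA : Nm A = n) : ¬ Lat (1 / toC A) := by
  rintro ⟨v, hv⟩
  have hA0 : toC A ≠ 0 := toC_ne (by rintro rfl; simp [Nm] at hA; omega)
  have h1 : toC (A * v) = toC 1 := by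
    rw [map_mul, ← hv, map_one]
    field_simp
  have h2 := congrArg Nm (toC_inj h1)
  rw [Nm_mul, hA, Nm_one] at h2
  have h3 := Nm_nonneg v
  rcases h3.lt_or_eq with h4 | h4
  · nlinarith
  · rw [← h4, mul_zero] at h2
    omega

open Classical in
private theorem BPrF_one (α : OO) (R : Finset ℂ) (hR : IsSys α R) (g : ℂ → ℂ) (r : ℂ) :
    r * ∏ u ∈ R, (if Lat u then 1 else r * g u) =
      r ^ R.card * ∏ u ∈ R, (if Lat u then 1 else g u) := by
  obtain ⟨u0, hu0, hL⟩ := hR.ex 0 (by rw [mul_zero]; exact lat_zero)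
  have hL0 : Lat u0 := by
    have := lat_neg hL
    rwa [neg_sub, sub_zero] at this
  have h1 : ∀ u ∈ R.erase u0, ¬ Lat u := fun u hu h3 =>
    (Finset.ne_of_mem_erase hu) (hR.uni u (Finset.mem_of_mem_erase hu) u0 hu0 (lat_sub h3 hL0))
  rw [← Finset.mul_prod_erase R _ hu0, ← Finset.mul_prod_erase R (fun u => if Lat u then 1 else g u) hu0,
    if_pos hL0, if_pos hL0, one_mul, one_mul, ← Finset.card_erase_add_one hu0, pow_succ]
  have h2 : ∏ u ∈ R.erase u0, (if Lat u then 1 else r * g u) =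
      ∏ u ∈ R.erase u0, (r * if Lat u then 1 else g u) := by
    refine Finset.prod_congr rfl fun u hu => ?_
    rw [if_neg (h1 u hu), if_neg (h1 u hu)]
  rw [h2, Finset.prod_mul_distrib, Finset.prod_const]
  ring

theorem tPrF : S_PrF := by
  classical
  intro hB hA0 hNm hEx α R hα hR z hz hαz
  have hα0 : α ≠ 0 := by
    rintro rfl
    obtain ⟨x, y, hxy⟩ := hα
    have h1 : Nm (y * 2) = 1 := by
      have : y * 2 = 1 := by linear_combination hxy
      rw [this, Nm_one]
    have h2 : Nm (2 : OO) = 4 := by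
      have := Nm_nat 2
      push_cast at this
      rw [this]
    rw [Nm_mul, h2] at h1
    omega
  have hNb : Nm pbO = 2 := by simp [Nm, pbO]
  have hpp : toC pO * toC pbO = 2 := by
    rw [← map_mul]
    have : pO * pbO = ((2 : ℕ) : OO) := by
      apply OO.ext'
      · rw [re_mul, re_nat]
        simp [pO, pbO]
      · rw [im_mul, im_nat]
        simp [pO, pbO]
    rw [this, map_natCast]
    norm_num
  have hb0 : toC pbO ≠ 0 := by
    intro h
    rw [h, mul_zero] at hpp
    exact two_ne_zero hpp.symm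
  have hTn : ¬ Lat (1 / toC pbO) := BPrF_notLat pbO 2 (by norm_num) hNb
  have hT2' : 2 * (1 / toC pbO) = toC pO := by
    rw [mul_one_div, div_eq_iff hb0, hpp]
  have hT2 : Lat (2 * (1 / toC pbO)) := ⟨pO, hT2'⟩
  have hTt : Tor (1 / toC pbO) := ⟨pO, 2, by norm_num, by
    rw [← hT2']
    push_cast
    ring⟩
  have hr0 : toC s7 ≠ 0 := toC_ne (by
    intro h
    have := congrArg QuadraticAlgebra.im h
    simp [s7] at this)
  have hz' : ∀ y : ℂ, Tor y → toC s7 * io (zO y) = XC y - 1 / 4 := by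
    intro y hy
    unfold zO
    rw [map_div₀, map_sub, io_toO, (hA0 y hy).1, map_div₀, map_one, map_ofNat]
    field_simp
  have hzT : ∀ y : ℂ, Tor y → toC s7 * io (zO y - eZ) = XC y - XC (1 / toC pbO) := by
    intro y hy
    unfold eZ
    rw [map_sub, mul_sub, hz' y hy, hz' _ hTt]
    ring
  obtain ⟨c, hc0, hc, hce⟩ := hB α R hα hR (1 / toC pbO) hT2 hTn
  have hTR : ∀ u ∈ R, Tor u := fun u hu => hEx.2.2.2.2.2.2.2.1 α u hα0 (hR.mem u hu)
  have hL := hc z hαz
  have e1 : ∏ u ∈ R, (XC (z + u) - XC (1 / toC pbO)) =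
      toC s7 ^ R.card * io (∏ u ∈ R, (zO (z + u) - eZ)) := by
    rw [map_prod, ← Finset.prod_const, ← Finset.prod_mul_distrib]
    exact Finset.prod_congr rfl fun u hu => (hzT _ (tor_add hz (hTR u hu))).symm
  have e2 : toC s7 * ∏ u ∈ R, (if Lat u then 1 else XC u - XC (1 / toC pbO)) =
      toC s7 ^ R.card * io (∏ u ∈ R, (if Lat u then 1 else zO u - eZ)) := by
    have h1 : ∏ u ∈ R, (if Lat u then 1 else XC u - XC (1 / toC pbO)) =
        ∏ u ∈ R, (if Lat u then 1 else toC s7 * io (zO u - eZ)) := by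
      refine Finset.prod_congr rfl fun u hu => ?_
      rw [hzT u (hTR u hu)]
    have h2 : io (∏ u ∈ R, (if Lat u then 1 else zO u - eZ)) =
        ∏ u ∈ R, (if Lat u then 1 else io (zO u - eZ)) := by
      rw [map_prod]
      refine Finset.prod_congr rfl fun u _ => ?_
      split_ifs
      · exact map_one io
      · rfl
    rw [h1, h2]
    exact BPrF_one α R hR (fun u => io (zO u - eZ)) (toC s7)
  apply io_inj
  refine mul_left_cancel₀ (pow_ne_zero R.card hr0) ?_
  rw [← e1, hL, map_mul, map_mul, map_pow, io_toO, ← hzT _ (tor_mul α hz), hce]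
  linear_combination (toC α ^ 2 * io (zO (toC α * z) - eZ)) * e2

end Pool.Agent.DI.DB
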