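import Pool.Agent.Lib.DI.D.SpecB
import Pool.Agent.Lib.DI.Val
import Pool.Agent.Lib.DI.E.Base

/-!
# Theorem DI, part D-B: the filtration of the kernel of reduction (module `BRef`)
-/

set_option autoImplicit false

open scoped Pointwise

noncomputable section

namespace Pool.Agent.DI.DB

open Pool.Agent.MuZ Pool.Agent.FW Pool.Agent.DI Pool.Agent.DI.E Pool.Agent.DI.D

/-- From `s (t (y d)) = u` with a unit `u`. -/
private theorem BRef_aux {Q : Ideal ZZ} [hP : Q.IsPrime] {s t y d u : Om} (hy : VP Q y)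
    (hd : VP Q d) (hu : UP Q u) (h : s * (t * y * d) = u) : s ≠ 0 ∧ TP Q t s⁻¹ := by
  have hu0 := hu.ne_zero
  refine ⟨?_, y * d * u⁻¹, (hy.mul hd).mul hu.inv.1, ?_⟩
  · rintro rfl
    rw [zero_mul] at h
    exact hu0 h.symm
  · apply inv_eq_of_mul_eq_one_right
    calc s * (t * (y * d * u⁻¹)) = (s * (t * y * d)) * u⁻¹ := by ring
      _ = 1 := by rw [h, mul_inv_cancel₀ hu0]

/-- Duplication. -/
private theorem BRef_dbl {Q : Ideal ZZ} [hP : Q.IsPrime] {b2 b4 b6 b8 X s t : Om}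
    (v2 : VP Q b2) (v4 : VP Q b4) (v6 : VP Q b6) (v8 : VP Q b8) (ht : MP Q t) (hX : X ≠ 0)
    (hXt : TP Q t X⁻¹)
    (h : s * (4 * X ^ 3 + b2 * X ^ 2 + 2 * b4 * X + b6) =
      X ^ 4 - b4 * X ^ 2 - 2 * b6 * X - b8) : s ≠ 0 ∧ TP Q t s⁻¹ := by
  obtain ⟨y, hy, hay⟩ := hXt
  set a : Om := X⁻¹ with hadef
  have hXa : X * a = 1 := mul_inv_cancel₀ hX
  have ha : MP Q a := by
    rw [hay]
    exact MP.mul_right ht hy
  have hav := ha.vp
  have h4 : VP Q (4 : Om) := by exact_mod_cast VP.nat (P := Q) 4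
  have h2 : VP Q (2 : Om) := by exact_mod_cast VP.nat (P := Q) 2
  have hf : MP Q (a * (b4 * a + 2 * b6 * a ^ 2 + b8 * a ^ 3)) :=
    MP.mul_right ha (((v4.mul hav).add ((h2.mul v6).mul (hav.pow 2))).add (v8.mul (hav.pow 3)))
  refine BRef_aux (u := 1 - a * (b4 * a + 2 * b6 * a ^ 2 + b8 * a ^ 3)) hy
    (d := 4 + b2 * a + 2 * b4 * a ^ 2 + b6 * a ^ 3) ?_ ?_ ?_
  · exact (((h4.add (v2.mul hav)).add ((h2.mul v4).mul (hav.pow 2))).add (v6.mul (hav.pow 3)))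
  · refine UP.congr UP.one ?_
    have e : (1 : Om) - a * (b4 * a + 2 * b6 * a ^ 2 + b8 * a ^ 3) - 1 =
        -(a * (b4 * a + 2 * b6 * a ^ 2 + b8 * a ^ 3)) := by ring
    rw [e]
    exact hf.neg
  · rw [← hay]
    have e1 : X ^ 4 * a ^ 4 = 1 := by rw [← mul_pow, hXa, one_pow]
    have e2 : X ^ 3 * a ^ 4 = a := by
      calc X ^ 3 * a ^ 4 = (X * a) ^ 3 * a := by ring
        _ = a := by rw [hXa]; ring
    have e3 : X ^ 2 * a ^ 4 = a ^ 2 := by
      calc X ^ 2 * a ^ 4 = (X * a) ^ 2 * a ^ 2 := by ring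
        _ = a ^ 2 := by rw [hXa]; ring
    have e4 : X * a ^ 4 = a ^ 3 := by
      calc X * a ^ 4 = (X * a) * a ^ 3 := by ring
        _ = a ^ 3 := by rw [hXa]; ring
    have h5 := congrArg (fun t => t * a ^ 4) h
    linear_combination h5 + e1 - 4 * s * e2 - s * b2 * e3 - 2 * s * b4 * e4 - b4 * e3 -
      2 * b6 * e4

/-- Addition. -/
private theorem BRef_add {Q : Ideal ZZ} [hP : Q.IsPrime] {b2 b4 b6 b8 X X' s s' t : Om}
    (v2 : VP Q b2) (v4 : VP Q b4) (v6 : VP Q b6) (v8 : VP Q b8) (ht : MP Q t) (hX : X ≠ 0)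
    (hX' : X' ≠ 0) (hXt : TP Q t X⁻¹) (hXt' : TP Q t X'⁻¹)
    (h : (s + s') * (X - X') ^ 2 = 2 * X * X' * (X + X') + b2 * X * X' + b4 * (X + X') + b6)
    (h' : s * s' * (X - X') ^ 2 = X ^ 2 * X' ^ 2 - b4 * X * X' - b6 * (X + X') - b8) :
    s ≠ 0 ∧ TP Q t s⁻¹ := by
  obtain ⟨y, hy, hay⟩ := hXt
  obtain ⟨y', hy', hby⟩ := hXt'
  set a : Om := X⁻¹ with hadef
  set b : Om := X'⁻¹ with hbdef
  have hXa : X * a = 1 := mul_inv_cancel₀ hX
  have hXb : X' * b = 1 := mul_inv_cancel₀ hX'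
  have ha : MP Q a := by
    rw [hay]
    exact MP.mul_right ht hy
  have hb : MP Q b := by
    rw [hby]
    exact MP.mul_right ht hy'
  have hav := ha.vp
  have hbv := hb.vp
  have h2 : VP Q (2 : Om) := by exact_mod_cast VP.nat (P := Q) 2
  have ht0 : t ≠ 0 := by
    rintro rfl
    rw [zero_mul] at hay
    rw [hay, mul_zero] at hXa
    exact zero_ne_one hXa
  have e1 : (X - X') ^ 2 * (a ^ 2 * b ^ 2) = (b - a) ^ 2 := by
    calc (X - X') ^ 2 * (a ^ 2 * b ^ 2) = ((X * a) * b - (X' * b) * a) ^ 2 := by ring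
      _ = (b - a) ^ 2 := by rw [hXa, hXb]; ring
  have e2 : (s + s') * (b - a) ^ 2 = 2 * (a + b) + b2 * a * b + b4 * a * b * (a + b) +
      b6 * a ^ 2 * b ^ 2 := by
    calc (s + s') * (b - a) ^ 2 = ((s + s') * (X - X') ^ 2) * (a ^ 2 * b ^ 2) := by
          rw [← e1]; ring
      _ = 2 * (X * a) * (X' * b) * ((X * a) * b + (X' * b) * a) + b2 * (X * a) * (X' * b) * a * b
        + b4 * ((X * a) * b + (X' * b) * a) * a * b + b6 * a ^ 2 * b ^ 2 := by rw [h]; ring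
      _ = _ := by rw [hXa, hXb]; ring
  have e3 : s * s' * (b - a) ^ 2 = 1 - (b4 * a * b + b6 * a * b * (a + b) +
      b8 * a ^ 2 * b ^ 2) := by
    calc s * s' * (b - a) ^ 2 = (s * s' * (X - X') ^ 2) * (a ^ 2 * b ^ 2) := by
          rw [← e1]; ring
      _ = (X * a) ^ 2 * (X' * b) ^ 2 - b4 * (X * a) * (X' * b) * a * b
        - b6 * ((X * a) * b + (X' * b) * a) * a * b - b8 * a ^ 2 * b ^ 2 := by rw [h']; ring
      _ = _ := by rw [hXa, hXb]; ring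
  have hn' : MP Q (b4 * a * b + b6 * a * b * (a + b) + b8 * a ^ 2 * b ^ 2) := by
    refine MP.add (MP.add ?_ ?_) ?_
    · exact MP.mul_right (MP.mul_left v4 ha) hbv
    · exact MP.mul_right (MP.mul_right (MP.mul_left v6 ha) hbv) (hav.add hbv)
    · rw [pow_two a, show b8 * (a * a) * b ^ 2 = (b8 * a * b ^ 2) * a by ring]
      exact MP.mul_left ((v8.mul hav).mul (hbv.pow 2)) ha
  have hs0 : s ≠ 0 := by
    rintro rfl
    rw [zero_mul, zero_mul] at e3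
    apply MP.one_not (P := Q)
    have e4 : (1 : Om) = b4 * a * b + b6 * a * b * (a + b) + b8 * a ^ 2 * b ^ 2 := by
      linear_combination -e3
    rw [e4]
    exact hn'
  refine ⟨hs0, t⁻¹ * s⁻¹, ?_, ?_⟩
  swap
  · rw [← mul_assoc, mul_inv_cancel₀ ht0, one_mul]
  rcases VP.or_inv (P := Q) (t⁻¹ * s⁻¹) with hv | hm
  · exact hv
  exfalso
  have e5 : (t⁻¹ * s⁻¹)⁻¹ = s * t := by
    rw [mul_inv, inv_inv, inv_inv, mul_comm]
  rw [e5] at hm
  have hn1 : VP Q (2 * (y + y') + b2 * y * b + b4 * y * b * (a + b) + b6 * y * a * b ^ 2) :=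
    (((h2.mul (hy.add hy')).add ((v2.mul hy).mul hbv)).add
      (((v4.mul hy).mul hbv).mul (hav.add hbv))).add
      (((v6.mul hy).mul hav).mul (hbv.pow 2))
  have e6 : (1 : Om) = s * t * (2 * (y + y') + b2 * y * b + b4 * y * b * (a + b) +
      b6 * y * a * b ^ 2) - s * t * (s * t * (y' - y) ^ 2) +
      (b4 * a * b + b6 * a * b * (a + b) + b8 * a ^ 2 * b ^ 2) := by
    have e7 : (b - a) ^ 2 = t ^ 2 * (y' - y) ^ 2 := by
      rw [hay, hby]
      ring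
    have e8 : 2 * (a + b) + b2 * a * b + b4 * a * b * (a + b) + b6 * a ^ 2 * b ^ 2 =
        t * (2 * (y + y') + b2 * y * b + b4 * y * b * (a + b) + b6 * y * a * b ^ 2) := by
      linear_combination (2 + b2 * b + b4 * b * (a + b) + b6 * a * b ^ 2) * hay + 2 * hby
    rw [e8] at e2
    linear_combination s * e2 - e3 - s ^ 2 * e7
  apply MP.one_not (P := Q)
  rw [e6]
  exact MP.add (MP.sub (MP.mul_right hm hn1)
    (MP.mul_right hm (hm.vp.mul ((hy'.sub hy).pow 2)))) hn'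

private theorem BRef_perc {Q : Ideal ZZ} {x : ℂ → Om} {b2 b4 b6 b8 t : Om}
    (K : KD Q x b2 b4 b6 b8) {z z' : ℂ} (hz : Lat z) (hz' : JK Q x t z') (ht : Tor (z + z')) :
    JK Q x t (z + z') := by
  refine ⟨ht, ?_⟩
  obtain ⟨v, rfl⟩ := hz
  rcases hz'.2 with h | h
  · exact Or.inl (lat_add (lat_toC v) h)
  · right
    rw [add_comm, K.per]
    exact h

private theorem BRef_plus {Q : Ideal ZZ} {x : ℂ → Om} {b2 b4 b6 b8 t : Om}
    (K : KD Q x b2 b4 b6 b8) (htm : MP Q t) {z z' : ℂ} (hz : JK Q x t z) (hz' : JK Q x t z') :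
    JK Q x t (z + z') := by
  have hP : Q.IsPrime := K.pr.1
  have ht : Tor (z + z') := tor_add hz.1 hz'.1
  by_cases hl : Lat z
  · exact BRef_perc K hl hz' ht
  by_cases hl' : Lat z'
  · rw [add_comm] at ht ⊢
    exact BRef_perc K hl' hz ht
  refine ⟨ht, ?_⟩
  by_cases hs : Lat (z + z')
  · exact Or.inl hs
  right
  obtain ⟨hX, hXt⟩ := hz.2.resolve_left hl
  obtain ⟨hX', hXt'⟩ := hz'.2.resolve_left hl'
  by_cases hd : Lat (z - z')
  · obtain ⟨v, hv⟩ := hd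
    have e : z + z' = 2 * z + toC (-v) := by
      rw [map_neg, ← hv]
      ring
    have h2 : ¬ Lat (2 * z) := by
      intro h
      apply hs
      rw [e]
      exact lat_add h (lat_toC _)
    rw [e, K.per]
    exact BRef_dbl K.v2 K.v4 K.v6 K.v8 htm hX hXt (K.dbl z hz.1 h2)
  · obtain ⟨h1, h2⟩ := K.add z z' hz.1 hz'.1 hl hl' hs hd
    exact BRef_add K.v2 K.v4 K.v6 K.v8 htm hX hX' hXt hXt' h1 h2

private theorem BRef_lat {Q : Ideal ZZ} {x : ℂ → Om} {t : Om} {z : ℂ} (hz : Lat z) :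
    JK Q x t z := by
  refine ⟨?_, Or.inl hz⟩
  obtain ⟨v, rfl⟩ := hz
  exact ⟨v, 1, one_pos, by simp⟩

private theorem BRef_neg {Q : Ideal ZZ} {x : ℂ → Om} {b2 b4 b6 b8 t : Om}
    (kd : KD Q x b2 b4 b6 b8) {z : ℂ} (hz : JK Q x t z) : JK Q x t (-z) := by
  obtain ⟨tz, h⟩ := hz
  refine ⟨tor_neg tz, ?_⟩
  rcases h with h | h
  · exact Or.inl (lat_neg h)
  · right
    rw [kd.neg]
    exact h

private theorem BRef_nat {Q : Ideal ZZ} {x : ℂ → Om} {b2 b4 b6 b8 t : Om}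
    (kd : KD Q x b2 b4 b6 b8) (htm : MP Q t) {z : ℂ} (hz : JK Q x t z) (n : ℕ) :
    JK Q x t ((n : ℂ) * z) := by
  induction n with
  | zero =>
    rw [Nat.cast_zero, zero_mul]
    exact BRef_lat lat_zero
  | succ n ih =>
    rw [Nat.cast_succ, add_mul, one_mul]
    exact BRef_plus kd htm ih hz

private theorem BRef_int {Q : Ideal ZZ} {x : ℂ → Om} {b2 b4 b6 b8 t : Om}
    (kd : KD Q x b2 b4 b6 b8) (htm : MP Q t) {z : ℂ} (hz : JK Q x t z) (m : ℤ) :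
    JK Q x t ((m : ℂ) * z) := by
  rcases Int.eq_nat_or_neg m with ⟨n, rfl | rfl⟩
  · rw [Int.cast_natCast]
    exact BRef_nat kd htm hz n
  · rw [Int.cast_neg, Int.cast_natCast, neg_mul]
    exact BRef_neg kd (BRef_nat kd htm hz n)

private theorem BRef_w {Q : Ideal ZZ} {x : ℂ → Om} {b2 b4 b6 b8 t : Om}
    (kd : KD Q x b2 b4 b6 b8) (htm : MP Q t) {z : ℂ} (hz : JK Q x t z) :
    JK Q x t (wC * z) := by
  have hP : Q.IsPrime := kd.pr.1
  obtain ⟨tz, h⟩ := hz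
  have tw : Tor (wC * z) := by
    rw [← toC_pO]
    exact tor_mul pO tz
  refine ⟨tw, ?_⟩
  by_cases lz : Lat z
  · left
    rw [← toC_pO]
    exact lat_mul pO lz
  by_cases lw : Lat (wC * z)
  · exact Or.inl lw
  right
  obtain ⟨hx0, y, hy, hay⟩ := h.resolve_left lz
  obtain ⟨c1, c2, c3, c4, v1, v2, v3, v4, hw⟩ := kd.mulw
  have h1 := hw z tz lz lw
  have e : x z * (x z)⁻¹ = 1 := mul_inv_cancel₀ hx0
  have hm : MP Q (x z)⁻¹ := by
    rw [hay]
    exact MP.mul_right htm hy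
  refine BRef_aux (u := 1 + (c3 + c4 * (x z)⁻¹) * (x z)⁻¹) hy (d := c1 + c2 * (x z)⁻¹) ?_ ?_ ?_
  · exact v1.add (v2.mul hm.vp)
  · refine UP.congr UP.one ?_
    rw [add_sub_cancel_left]
    exact MP.mul_left (v3.add (v4.mul hm.vp)) hm
  · rw [← hay]
    have e2 : x z ^ 2 * ((x z)⁻¹ * (x z)⁻¹) = 1 := by
      rw [pow_two]
      calc x z * x z * ((x z)⁻¹ * (x z)⁻¹) = (x z * (x z)⁻¹) * (x z * (x z)⁻¹) := by ring
        _ = 1 := by rw [e, one_mul]
    have e3 : x z * ((x z)⁻¹ * (x z)⁻¹) = (x z)⁻¹ := by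
      rw [← mul_assoc, e, one_mul]
    linear_combination ((x z)⁻¹ * (x z)⁻¹) * h1 + e2 - (x (wC * z) * c1 - c3) * e3

/-- **The filtration of the kernel of reduction.** -/
theorem tRef : S_Ref := by
  intro Q x b2 b4 b6 b8 kd t htm
  refine ⟨fun z z' hz hz' => BRef_plus kd htm hz hz', fun v z hz => ?_⟩
  have e : toC v * z = (v.re : ℂ) * z + (v.im : ℂ) * (wC * z) := by
    rw [toC_apply]
    ring
  rw [e]
  exact BRef_plus kd htm (BRef_int kd htm hz v.re) (BRef_int kd htm (BRef_w kd htm hz) v.im)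

end Pool.Agent.DI.DB
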