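import Pool.Agent.Lib.DI.D.SpecB
import Pool.Agent.Lib.DI.Val
import Pool.Agent.Lib.DI.E.Base

/-!
# Theorem DI, part D-B, module BThC: theta function, congruence I
-/

set_option autoImplicit false

open scoped Pointwise Topology

noncomputable section

namespace Pool.Agent.DI.DB

open Pool.Agent.MuZ Pool.Agent.DI Pool.Agent.DI.D

private theorem BThC_int : IsIntegral ℤ wO := by
  refine ⟨Polynomial.X ^ 2 - Polynomial.X + Polynomial.C 2, ?_, ?_⟩
  · monicity!
  · rw [Polynomial.eval₂_add, Polynomial.eval₂_sub, Polynomial.eval₂_pow, Polynomial.eval₂_X,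
      Polynomial.eval₂_C, wO_sq]
    simp

private theorem BThC_vp {Q : Ideal ZZ} [hP : Q.IsPrime] (v : OO) : VP Q (toO v) := by
  change VP Q (((v.re : ℤ) : Om) + ((v.im : ℤ) : Om) * wO)
  exact (VP.int _).add ((VP.int _).mul (VP.integral BThC_int))

/-- The inverses of congruent units are congruent. -/
private theorem BThC_inv {Q : Ideal ZZ} [hP : Q.IsPrime] {x y : Om} (hx : UP Q x) (hy : UP Q y)
    (h : MP Q (x - y)) : MP Q (x⁻¹ - y⁻¹) := by
  have h1 : x⁻¹ - y⁻¹ = (-(x - y)) * (x⁻¹ * y⁻¹) := by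
    have hx0 := hx.ne_zero
    have hy0 := hy.ne_zero
    field_simp
    ring
  rw [h1]
  exact h.neg.mul_right (hx.inv.1.mul hy.inv.1)

/-- Products of congruent elements. -/
private theorem BThC_prod {Q : Ideal ZZ} [hP : Q.IsPrime] (S : Finset ℂ) (f g : ℂ → Om)
    (hf : ∀ u ∈ S, VP Q (f u)) (hg : ∀ u ∈ S, VP Q (g u)) (h : ∀ u ∈ S, MP Q (f u - g u)) :
    MP Q (∏ u ∈ S, f u - ∏ u ∈ S, g u) := by
  classical
  induction S using Finset.induction_on with
  | empty =>
    rw [Finset.prod_empty, Finset.prod_empty, sub_self]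
    exact MP.zero
  | insert a T ha ih =>
    rw [Finset.prod_insert ha, Finset.prod_insert ha]
    have h1 := ih (fun u hu => hf u (Finset.mem_insert_of_mem hu))
      (fun u hu => hg u (Finset.mem_insert_of_mem hu))
      (fun u hu => h u (Finset.mem_insert_of_mem hu))
    have h2 : f a * ∏ u ∈ T, f u - g a * ∏ u ∈ T, g u =
        f a * (∏ u ∈ T, f u - ∏ u ∈ T, g u) + (f a - g a) * ∏ u ∈ T, g u := by ring
    rw [h2]
    refine (MP.mul_left (hf a (Finset.mem_insert_self a T)) h1).add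
      ((h a (Finset.mem_insert_self a T)).mul_right ?_)
    exact VP.prod T g fun u hu => hg u (Finset.mem_insert_of_mem hu)

theorem tThC : S_ThC := by
  intro hDif hD2 hUEx μ S _hμ2 hS Q hQ h2 hμQ z hz hzu z' hz'
  have hP : Q.IsPrime := hQ.1
  have hμ : μ ≠ 0 := by
    intro h0
    refine hμQ ?_
    rw [h0, map_zero]
    exact MP.zero
  obtain ⟨-, -, hQp, hcong, -⟩ := hD2 Q hQ h2
  obtain ⟨hIz, -, hDu⟩ := hDif Q hQ h2 μ hμ z hz hzu
  have hnot : ∀ u ∈ S, ¬ IZ Q u := by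
    intro u hu hI
    obtain ⟨h3, h4⟩ := hS.mem u hu
    refine h4 ?_
    have h5 := hQp u hI μ 1 hμQ (by rwa [mul_one])
    rwa [map_one, one_mul] at h5
  have hU : ∀ u ∈ S, UP Q (zO z - zO u) := fun u hu =>
    (hDu u (hS.mem u hu).1 (hS.mem u hu).2).1 (hnot u hu)
  have hc := hcong z z' hz hIz hz'
  have hM : ∀ u ∈ S, MP Q ((zO (z + z') - zO u) - (zO z - zO u)) := by
    intro u _
    have h3 : (zO (z + z') - zO u) - (zO z - zO u) = zO (z + z') - zO z := by ring
    rw [h3]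
    exact hc
  have hU' : ∀ u ∈ S, UP Q (zO (z + z') - zO u) := fun u hu => (hU u hu).congr (hM u hu)
  have hprod := BThC_prod (Q := Q) S (fun u => (zO (z + z') - zO u)⁻¹) (fun u => (zO z - zO u)⁻¹)
    (fun u hu => (hU' u hu).inv.1) (fun u hu => (hU u hu).inv.1)
    (fun u hu => BThC_inv (hU' u hu) (hU u hu) (hM u hu))
  have h4 : Theta μ S (z + z') - Theta μ S z = (toO μ)⁻¹ *
      (∏ u ∈ S, (zO (z + z') - zO u)⁻¹ - ∏ u ∈ S, (zO z - zO u)⁻¹) := by
    unfold Theta
    ring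
  rw [h4]
  exact MP.mul_left ((BThC_vp μ).inv hμQ) hprod

end Pool.Agent.DI.DB
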