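import Pool.Agent.Lib.DI.D.SpecB
import Pool.Agent.Lib.DI.Val
import Pool.Agent.Lib.DI.E.Base

/-!
# Theorem DI, part D-B, module BThF: theta function and Frobenius
-/

set_option autoImplicit false

open scoped Pointwise

noncomputable section

namespace Pool.Agent.DI.DB

open Pool.Agent.MuZ Pool.Agent.DI Pool.Agent.DI.D

private theorem ThF_int : IsIntegral ℤ wO := by
  refine ⟨Polynomial.X ^ 2 - Polynomial.X + Polynomial.C 2, ?_, ?_⟩
  · monicity!
  · rw [Polynomial.eval₂_add, Polynomial.eval₂_sub, Polynomial.eval₂_pow, Polynomial.eval₂_X,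
      Polynomial.eval₂_C, wO_sq]
    simp

private theorem ThF_toO {Q : Ideal ZZ} [hP : Q.IsPrime] (v : OO) : VP Q (toO v) := by
  change VP Q ((v.re : Om) + v.im * wO)
  exact (VP.int _).add ((VP.int _).mul (VP.integral ThF_int))

private theorem ThF_prod {Q : Ideal ZZ} [hP : Q.IsPrime] {ι : Type} (s : Finset ι) (f g : ι → Om)
    (hf : ∀ i ∈ s, VP Q (f i)) (hg : ∀ i ∈ s, VP Q (g i)) (h : ∀ i ∈ s, MP Q (f i - g i)) :
    MP Q (∏ i ∈ s, f i - ∏ i ∈ s, g i) := by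
  classical
  induction s using Finset.induction_on with
  | empty => rw [Finset.prod_empty, Finset.prod_empty, sub_self]; exact MP.zero
  | insert a s ha ih =>
    rw [Finset.prod_insert ha, Finset.prod_insert ha]
    have h1 : MP Q (∏ i ∈ s, f i - ∏ i ∈ s, g i) :=
      ih (fun i hi => hf i (Finset.mem_insert_of_mem hi))
        (fun i hi => hg i (Finset.mem_insert_of_mem hi))
        (fun i hi => h i (Finset.mem_insert_of_mem hi))
    have h2 : VP Q (∏ i ∈ s, g i) := VP.prod s g fun i hi => hg i (Finset.mem_insert_of_mem hi)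
    have h3 : f a * ∏ i ∈ s, f i - g a * ∏ i ∈ s, g i =
        f a * (∏ i ∈ s, f i - ∏ i ∈ s, g i) + (f a - g a) * ∏ i ∈ s, g i := by ring
    rw [h3]
    exact (MP.mul_left (hf a (Finset.mem_insert_self a s)) h1).add
      (MP.mul_right (h a (Finset.mem_insert_self a s)) h2)

theorem tThF : S_ThF := by
  intro hCop hFer hDif hLaS hD2 hD4 hD8 hUEx μ S hμ2 hS Q hQ hQ2 hQμ z hz hzQ la l hl hl2 hl7 hN hla
  have hP : Q.IsPrime := hQ.1
  obtain ⟨-, -, -, -, -, hTmul, -, hTor, -, -, -, -, -⟩ := hUEx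
  have hμ0 : μ ≠ 0 := by
    rintro rfl
    exact hQμ (by rw [map_zero]; exact MP.zero)
  obtain ⟨-, -, -, -, hlaCop, -⟩ := hCop la l hl hN
  obtain ⟨-, -, hF3, hF4⟩ := hFer la l hl hl2 hN Q hQ hla
  have hndvd : ¬ la ∣ μ := by
    rintro ⟨c, hc⟩
    apply hQμ
    rw [hc, map_mul]
    exact MP.mul_right hla (ThF_toO c)
  obtain ⟨hS', hinj⟩ := hLaS μ S hS la (hlaCop μ hndvd)
  obtain ⟨hIz, hVz, hfac⟩ := hDif Q hQ hQ2 μ hμ0 z hz hzQ
  obtain ⟨-, hMz⟩ := hD4 la l hl hl2 hl7 hN Q hQ hla z hz hIz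
  have hth : Theta μ S (toC la * z) =
      (toO μ)⁻¹ * ∏ u ∈ S, (zO (toC la * z) - zO (toC la * u))⁻¹ := by
    rw [← (hD8 μ S _ hS hS' (toC la * z) (hTmul la z hz)).1]
    unfold Theta
    rw [Finset.prod_image]
    intro u hu u' hu' h
    exact hinj u hu u' hu' h
  have key : ∀ u ∈ S, UP Q (zO z - zO u) ∧ UP Q (zO (toC la * z) - zO (toC la * u)) ∧
      MP Q ((zO (toC la * z) - zO (toC la * u))⁻¹ - ((zO z - zO u)⁻¹) ^ l) := by
    intro u hu
    obtain ⟨hLu, hnLu⟩ := hS.mem u hu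
    have hTu : Tor u := hTor μ u hμ0 hLu
    have hIu : ¬ IZ Q u := by
      intro h
      have h1 := (hD2 Q hQ hQ2).2.2.1 u h μ 1 hQμ (by rw [mul_one]; exact hLu)
      rw [map_one, one_mul] at h1
      exact hnLu h1
    have hVu : VP Q (zO u) := by
      by_contra h
      exact hIu ⟨hTu, Or.inr h⟩
    have hU : UP Q (zO z - zO u) := (hfac u hLu hnLu).1 hIu
    obtain ⟨-, hMu⟩ := hD4 la l hl hl2 hl7 hN Q hQ hla u hTu hIu
    have h4 := hF4 (zO z) (zO u) hVz hVu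
    have hM : MP Q ((zO (toC la * z) - zO (toC la * u)) - (zO z - zO u) ^ l) := by
      have e : (zO (toC la * z) - zO (toC la * u)) - (zO z - zO u) ^ l =
          ((zO (toC la * z) - zO z ^ l) - (zO (toC la * u) - zO u ^ l)) -
            ((zO z - zO u) ^ l - (zO z ^ l - zO u ^ l)) := by ring
      rw [e]
      exact (hMz.sub hMu).sub h4
    have hU' : UP Q (zO (toC la * z) - zO (toC la * u)) := (hU.pow l).congr hM
    refine ⟨hU, hU', ?_⟩
    have e : (zO (toC la * z) - zO (toC la * u))⁻¹ - ((zO z - zO u)⁻¹) ^ l =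
        -((zO (toC la * z) - zO (toC la * u)) - (zO z - zO u) ^ l) *
          ((zO (toC la * z) - zO (toC la * u))⁻¹ * ((zO z - zO u)⁻¹) ^ l) := by
      have h1 := hU'.ne_zero
      have h2 := hU.ne_zero
      rw [inv_pow]
      field_simp
      ring
    rw [e]
    exact MP.mul_right hM.neg (hU'.inv.1.mul (hU.inv.pow l).1)
  have hVμ : VP Q (toO μ)⁻¹ := (ThF_toO μ).inv hQμ
  have hμl : MP Q (((toO μ)⁻¹) ^ l - (toO μ)⁻¹) := by
    have h1 := hF3 1 μ hQμ
    rw [map_one, one_div] at h1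
    exact h1
  have hprod : MP Q (∏ u ∈ S, (zO (toC la * z) - zO (toC la * u))⁻¹ -
      ∏ u ∈ S, ((zO z - zO u)⁻¹) ^ l) :=
    ThF_prod S _ _ (fun u hu => (key u hu).2.1.inv.1) (fun u hu => ((key u hu).1.inv.pow l).1)
      (fun u hu => (key u hu).2.2)
  have hVP : VP Q (∏ u ∈ S, (zO (toC la * z) - zO (toC la * u))⁻¹) :=
    VP.prod S _ fun u hu => (key u hu).2.1.inv.1
  rw [hth]
  have e : (toO μ)⁻¹ * ∏ u ∈ S, (zO (toC la * z) - zO (toC la * u))⁻¹ - Theta μ S z ^ l =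
      -((((toO μ)⁻¹) ^ l - (toO μ)⁻¹) * ∏ u ∈ S, (zO (toC la * z) - zO (toC la * u))⁻¹) +
        ((toO μ)⁻¹) ^ l * (∏ u ∈ S, (zO (toC la * z) - zO (toC la * u))⁻¹ -
          ∏ u ∈ S, ((zO z - zO u)⁻¹) ^ l) := by
    unfold Theta
    rw [mul_pow, Finset.prod_pow]
    ring
  rw [e]
  exact (MP.mul_right hμl hVP).neg.add (MP.mul_left (hVμ.pow l) hprod)

end Pool.Agent.DI.DB
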