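import Pool.Agent.Lib.DI.D.AllA
import Pool.Agent.Lib.DI.D.AllC
import Pool.Agent.Lib.DI.D.BRef
import Pool.Agent.Lib.DI.D.BEun
import Pool.Agent.Lib.DI.D.BD4
import Pool.Agent.Lib.DI.D.BD3
import Pool.Agent.Lib.DI.D.BMuU
import Pool.Agent.Lib.DI.D.BD5
import Pool.Agent.Lib.DI.D.BThF
import Pool.Agent.Lib.DI.D.BFer
import Pool.Agent.Lib.DI.D.BPrF
import Pool.Agent.Lib.DI.D.BHlf
import Pool.Agent.Lib.DI.D.BThC
import Pool.Agent.Lib.DI.D.BCop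
import Pool.Agent.Lib.DI.D.BLaS
import Pool.Agent.Lib.DI.D.BDif
import Pool.Agent.Lib.DI.D.BCyc

/-!
# Theorem DI, part D-B: `tD3 : S_D3`, `tD4 : S_D4`, `tD5 : S_D5`, `tD6 : S_D6`
-/

set_option autoImplicit false

noncomputable section

namespace Pool.Agent.DI

open Pool.Agent.MuZ

namespace DB

theorem bCop : T_Cop := tCop

theorem bFer : T_Fer := tFer bCop

theorem bCyc : T_Cyc := tCyc bCop tUNm

theorem bRef : T_Ref := tRef

theorem bEun : T_Eun := tEun D.aXOm D.aXPr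

theorem bPrF : T_PrF := tPrF tB15 tA0 tUNm tUEx

theorem bD3 : S_D3 := tBD3 bCop bCyc bRef bEun D.aKDZ tD2 tUEx

theorem bD4 : S_D4 := tBD4 bCop bFer bEun bPrF D.aXOm tD2 bD3 tUCop tUEx

theorem bHlf : T_Hlf := tHlf tUEx

theorem bMuU : T_MuU := tMuU bHlf bEun D.aXOm tD2 tUEx

theorem bDif : T_Dif := tDif tD2 tUEx

theorem bD5 : S_D5 := tBD5 bMuU bDif tD1 tUEx

theorem bThC : T_ThC := tThC bDif tD2 tUEx

theorem bLaS : T_LaS := tLaS tUEx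

theorem bThF : T_ThF := tThF bCop bFer bDif bLaS tD2 bD4 tD8 tUEx

theorem bD6 : S_D6 := fun μ S hm hS Q hQ h2 hu z hz hq =>
  ⟨bThC μ S hm hS Q hQ h2 hu z hz hq, bThF μ S hm hS Q hQ h2 hu z hz hq⟩

end DB

/-- `S_D3`. -/
theorem tD3 : S_D3 := DB.bD3

/-- `S_D4`. -/
theorem tD4 : S_D4 := DB.bD4

/-- `S_D5`: theta units. -/
theorem tD5 : S_D5 := DB.bD5

/-- `S_D6`: theta units, congruences. -/
theorem tD6 : S_D6 := DB.bD6

end Pool.Agent.DI
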