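import Pool.Agent.Lib.DI.D.SpecA

/-!
# Theorem DI, part D-A: assembly of `S_D1`, `S_D2`
-/

set_option autoImplicit false

open scoped Pointwise

noncomputable section

namespace Pool.Agent.DI.D

open Pool.Agent.MuZ Pool.Agent.FW Pool.Agent.DI Pool.Agent.DI.E

theorem asmD1 (hSub : S_KSub) (hRed : S_KRed) (hSep : S_KSep) (hMul : S_KMul) (hQp : S_KQp)
    (hKDX : S_KDX) (hD1c : S_D1c) : S_D1 := by
  intro a b hab P hP ha
  have hK := hKDX a b hab P hP ha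
  obtain ⟨c1, c2, c3, c4, c5⟩ := hD1c a b hab P hP ha
  exact ⟨hSub P xO _ _ _ _ hK, fun v z hz => (hMul P xO _ _ _ _ hK).2 v z hz,
    hQp P xO _ _ _ _ hK, hRed P xO _ _ _ _ hK, hSep P xO _ _ _ _ hK, c1, c2, c3, c4, c5⟩

theorem asmD2 (hSub : S_KSub) (hRed : S_KRed) (hSep : S_KSep) (hMul : S_KMul) (hQp : S_KQp)
    (hKDZ : S_KDZ) : S_D2 := by
  intro Q hQ h2
  have hK := hKDZ Q hQ h2
  exact ⟨hSub Q zO _ _ _ _ hK, fun v z hz => (hMul Q zO _ _ _ _ hK).2 v z hz,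
    hQp Q zO _ _ _ _ hK, hRed Q zO _ _ _ _ hK, hSep Q zO _ _ _ _ hK⟩

end Pool.Agent.DI.D
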