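import Pool.Agent.Lib.DI.D.SpecB
import Pool.Agent.Lib.DI.Val
import Pool.Agent.Lib.DI.E.Base

/-!
# Theorem DI, part D-B: elements of prime norm
-/

set_option autoImplicit false

namespace Pool.Agent.DI.DB

open Pool.Agent.MuZ Pool.Agent.DI Pool.Agent.DI.D

/-- An integer prime to `l` is invertible modulo `l`. -/
private theorem inv_mod {l : ℕ} (hl : l.Prime) {n : ℤ} (h : ¬ (l : ℤ) ∣ n) :
    ∃ m k : ℤ, n * m = 1 + l * k := by
  have hp : Prime (l : ℤ) := Nat.prime_iff_prime_int.1 hl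
  have hc : IsCoprime (l : ℤ) n := (Prime.coprime_iff_not_dvd hp).2 h
  obtain ⟨a, b, hab⟩ := hc
  exact ⟨b, -a, by linarith⟩

theorem tCop : S_Cop := by
  intro la l hl hla
  have hl0 : (l : ℤ) ≠ 0 := by exact_mod_cast hl.ne_zero
  have hp : Prime (l : ℤ) := Nat.prime_iff_prime_int.1 hl
  have h1 : la ≠ 0 := by
    rintro rfl
    apply hl0
    rw [← hla]
    simp [Nm]
  have h2 : (l : OO) = la * cjO la := by
    rw [E.mul_cjO, hla]
    simp
  have h2' : la ∣ (l : OO) := ⟨cjO la, h2⟩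
  -- the imaginary part is prime to `l`
  have hy : ¬ (l : ℤ) ∣ la.im := by
    intro hy
    have hN : la.re ^ 2 + la.re * la.im + 2 * la.im ^ 2 = l := hla
    have hx2 : (l : ℤ) ∣ la.re ^ 2 := by
      obtain ⟨t, ht⟩ := hy
      refine ⟨1 - la.re * t - 2 * la.im * t, ?_⟩
      rw [ht] at hN ⊢
      linear_combination hN
    have hx : (l : ℤ) ∣ la.re := hp.dvd_of_dvd_pow hx2
    obtain ⟨s, hs⟩ := hx
    obtain ⟨t, ht⟩ := hy
    have : (l : ℤ) * (l * (s ^ 2 + s * t + 2 * t ^ 2)) = l * 1 := by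
      rw [hs, ht] at hN
      linear_combination hN
    have h3 := mul_left_cancel₀ hl0 this
    exact hp.not_isUnit (IsUnit.of_mul_eq_one _ h3)
  obtain ⟨y', k, hyk⟩ := inv_mod hl hy
  -- every element is an integer modulo `la`
  have h3 : ∀ v : OO, ∃ n : ℤ, la ∣ v - n := by
    intro v
    refine ⟨v.re - v.im * (la.re * y'), ?_⟩
    have h4 : la ∣ la * ((v.im * y' : ℤ) : OO) - (l : OO) * ((⟨0, v.im * k⟩ : OO)) :=
      dvd_sub (dvd_mul_right _ _) (Dvd.dvd.mul_right h2' _)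
    have h5 : la * ((v.im * y' : ℤ) : OO) - (l : OO) * ((⟨0, v.im * k⟩ : OO)) =
        v - ((v.re - v.im * (la.re * y') : ℤ) : OO) := by
      apply E.OO.ext'
      · rw [QuadraticAlgebra.re_sub, QuadraticAlgebra.re_sub, E.re_mul, E.re_mul, E.re_int, E.im_int,
          E.re_int, E.re_nat, E.im_nat]
        ring
      · rw [QuadraticAlgebra.im_sub, QuadraticAlgebra.im_sub, E.im_mul, E.im_mul, E.re_int, E.im_int,
          E.im_int, E.re_nat, E.im_nat]
        linear_combination v.im * hyk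
    rw [← h5]
    exact h4
  -- inverses modulo `la`
  have h4 : ∀ s : OO, ¬ la ∣ s → ∃ m : OO, la ∣ s * m - 1 := by
    intro s hs
    obtain ⟨n, hn⟩ := h3 s
    have hln : ¬ (l : ℤ) ∣ n := by
      rintro ⟨t, rfl⟩
      apply hs
      have h5 : la ∣ (((l : ℤ) * t : ℤ) : OO) := by
        rw [Int.cast_mul, Int.cast_natCast]
        exact Dvd.dvd.mul_right h2' _
      have h6 := dvd_add hn h5
      simpa using h6
    obtain ⟨m, k', hm⟩ := inv_mod hl hln
    refine ⟨(m : OO), ?_⟩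
    have h5 : s * (m : OO) - 1 = (s - (n : OO)) * m + (l : OO) * (k' : OO) := by
      have h6 : ((n * m : ℤ) : OO) = ((1 + l * k' : ℤ) : OO) := by rw [hm]
      push_cast at h6
      linear_combination h6
    rw [h5]
    exact dvd_add (Dvd.dvd.mul_right hn _) (Dvd.dvd.mul_right h2' _)
  refine ⟨h1, h2, h3, h4, ?_, ?_⟩
  · intro s hs
    obtain ⟨m, j, hj⟩ := h4 s hs
    exact ⟨-j, m, by linear_combination hj⟩
  · intro hl2
    obtain ⟨t, ht⟩ := hl.odd_of_ne_two hl2
    refine ⟨cjO la, -(t : OO), ?_⟩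
    have h5 : (l : OO) = 2 * (t : OO) + 1 := by
      rw [ht]
      push_cast
      ring
    linear_combination h5 - h2

end Pool.Agent.DI.DB
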