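import Pool.Agent.Lib.DI.D.SpecC

/-!
# Theorem DI, part D, module D8: `Theta` is well defined and even
-/

set_option autoImplicit false

open scoped Pointwise Topology

noncomputable section

namespace Pool.Agent.DI.DC

open Pool.Agent.MuZ Pool.Agent.DI

private theorem D8_symm
    (hL : ∀ z z' : ℂ, Lat z → Lat z' → Lat (z + z') ∧ Lat (z - z') ∧ Lat (-z)) {a b : ℂ}
    (h : Lat (a - b) ∨ Lat (a + b)) : Lat (b - a) ∨ Lat (b + a) := by
  rcases h with h | h
  · left
    have h1 := (hL _ _ h h).2.2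
    have e : -(a - b) = b - a := by ring
    rwa [e] at h1
  · right
    rwa [add_comm]

private theorem D8_trans
    (hL : ∀ z z' : ℂ, Lat z → Lat z' → Lat (z + z') ∧ Lat (z - z') ∧ Lat (-z)) {a b c : ℂ}
    (h : Lat (a - b) ∨ Lat (a + b)) (h' : Lat (b - c) ∨ Lat (b + c)) :
    Lat (a - c) ∨ Lat (a + c) := by
  rcases h with h | h <;> rcases h' with h' | h'
  · left
    have h1 := (hL _ _ h h').1
    have e : a - b + (b - c) = a - c := by ring
    rwa [e] at h1
  · right
    have h1 := (hL _ _ h h').1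
    have e : a - b + (b + c) = a + c := by ring
    rwa [e] at h1
  · right
    have h1 := (hL _ _ h h').2.1
    have e : a + b - (b - c) = a + c := by ring
    rwa [e] at h1
  · left
    have h1 := (hL _ _ h h').2.1
    have e : a + b - (b + c) = a - c := by ring
    rwa [e] at h1

theorem tD8 : S_D8' := by
  intro hB2 hB3 hA0 hNm hEx μ S S' hS hS' z hz
  obtain ⟨-, -, -, -, -, -, -, hTor, hL, hLm, hL0, -, -⟩ := hEx
  have hinj : Function.Injective toO := hNm.2.2.2.2.2.2.2.2.2.1
  have hz1 : ∀ (z : ℂ) (v : OO), zO (z + toC v) = zO z := by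
    intro z v
    unfold zO xO
    rw [(hB2.1 z v).1]
  have hz2 : ∀ z : ℂ, zO (-z) = zO z := by
    intro z
    unfold zO xO
    rw [(hB2.2 z).1]
  have hz3 : ∀ a b : ℂ, (Lat (a - b) ∨ Lat (a + b)) → zO a = zO b := by
    rintro a b (⟨v, hv⟩ | ⟨v, hv⟩)
    · have e : a = b + toC v := by rw [← hv]; ring
      rw [e, hz1]
    · have e : a = -b + toC v := by rw [← hv]; ring
      rw [e, hz1, hz2]
  refine ⟨?_, ?_, ?_, ?_⟩
  · unfold Theta
    congr 1
    have key : ∀ u' ∈ S', ∃ u, u ∈ S ∧ (Lat (u' - u) ∨ Lat (u' + u)) := fun u' h =>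
      hS.ex u' (hS'.mem u' h).1 (hS'.mem u' h).2
    choose i hi hi2 using key
    refine Finset.prod_bij i hi ?_ ?_ ?_
    · intro a ha b hb hab
      refine hS'.uni a ha b hb (D8_trans hL (hi2 a ha) ?_)
      rw [hab]
      exact D8_symm hL (hi2 b hb)
    · intro b hb
      obtain ⟨a, ha, h⟩ := hS'.ex b (hS.mem b hb).1 (hS.mem b hb).2
      refine ⟨a, ha, ?_⟩
      exact (hS.uni b hb (i a ha) (hi a ha) (D8_trans hL h (hi2 a ha))).symm
    · intro a ha
      rw [hz3 a (i a ha) (hi2 a ha)]
  · unfold Theta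
    rw [hz2]
  · intro v
    unfold Theta
    rw [hz1]
  · intro h
    have hμ : μ ≠ 0 := by
      rintro rfl
      rw [map_zero, zero_mul] at h
      exact h hL0
    have hμ' : toO μ ≠ 0 := by
      intro h0
      exact hμ (hinj (h0.trans (map_zero toO).symm))
    have hs7 : toO s7 ≠ 0 := by
      intro h0
      have h1 : s7 = 0 := hinj (h0.trans (map_zero toO).symm)
      have h2 : (-1 : ℤ) = 0 := congrArg QuadraticAlgebra.re h1
      omega
    unfold Theta
    refine mul_ne_zero (inv_ne_zero hμ') (Finset.prod_ne_zero_iff.2 fun u hu => ?_)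
    refine inv_ne_zero (sub_ne_zero.2 fun he => ?_)
    have h1 : xO z = xO u := by
      unfold zO at he
      rw [div_left_inj' hs7] at he
      linear_combination he
    obtain ⟨hu1, hu2⟩ := hS.mem u hu
    have h2 : XC z = XC u := by
      rw [← (hA0 z hz).1, ← (hA0 u (hTor μ u hμ hu1)).1, h1]
    have hzL : ¬ Lat z := fun h3 => h (hLm μ z h3)
    rcases (hB3.1 z u hzL hu2).1 h2 with h3 | h3
    · have h4 := (hL _ _ (hLm μ _ h3) hu1).1
      have e : toC μ * (z - u) + toC μ * u = toC μ * z := by ring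
      rw [e] at h4
      exact h h4
    · have h4 := (hL _ _ (hLm μ _ h3) hu1).2.1
      have e : toC μ * (z + u) - toC μ * u = toC μ * z := by ring
      rw [e] at h4
      exact h h4

end Pool.Agent.DI.DC
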