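import Pool.Agent.Lib.DI.E.Base
import Pool.Agent.Lib.DI.Util.Spec

/-!
# Theorem DI, part D-A: reduction on the Kummer line (note 4050, D0 - D5, D7); `S_D1`, `S_D2`

Author helper8. `Q` is a nonzero prime of `ZZ`, `V = {x | VP Q x}` its valuation ring in `Om`, `m = {x | MP Q x}` the maximal ideal, `UP Q x`: unit.
Facts on `VP`, `MP`, `UP`: `DI/Val.lean` (`VP.add`, `VP.mul`, `VP.neg`, `VP.sub`, `VP.pow`, `VP.inv`, `VP.or_inv`, `VP.not_iff`, `VP.of_pow`,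
`VP.of_integral`, `MP.add`, `MP.mul_left`, `MP.mul_right`, `MP.mul_cases`, `MP.of_pow`, `UP.iff`, `UP.mul`, `UP.inv`, `UP.of_pow`, `UP.congr`, ...). Facts on `Lat`,
`Tor`, `OO`, `toC`, `toO`: `DI/E/Base.lean` (namespace `Pool.Agent.DI.E`: `lat_add`, `lat_sub`, `lat_neg`, `lat_mul`, `lat_div_iff`, `tor_add`, `tor_neg`,
`tor_mul`, `toC_inj`, `toC_pO`, `toO_pO`, `Nm_mul`, `mul_cjO`, ...). The prime `Q` is used through `have hP : Q.IsPrime := ..` (instance argument of the lemmas).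

A KUMMER DATUM `KD Q x b2 b4 b6 b8` is a coordinate `x` on `(ℂ - O)/O` with values in `Om` at the torsion points and the usual formulas; the KERNEL OF REDUCTION is
`IK Q x z`. Notation: `G(t) = 4 t^3 + b2 t^2 + 2 b4 t + b6`, `F(t) = t^4 - b4 t^2 - 2 b6 t - b8`.

RULES: every `S_X : Prop` of this file is to be proved as `theorem tX : S_X` (`S_KSub` as `tKSub` etc.; the statements named after USES are explicit hypotheses in this
order) in `Pool/Agent/Lib/DI/D/X.lean` (`KSub.lean` etc.), in the namespace `Pool.Agent.DI.D`. Auxiliary declarations `private`.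
-/

open scoped Pointwise Topology nonZeroDivisors

noncomputable section

namespace Pool.Agent.DI.D

open Pool.Agent.MuZ Pool.Agent.FW Pool.Agent.DI Pool.Agent.DI.E

open Classical in
/-- A Kummer datum at `Q`. -/
structure KD (Q : Ideal ZZ) (x : ℂ → Om) (b2 b4 b6 b8 : Om) : Prop where
  pr : Npr Q
  v2 : VP Q b2
  v4 : VP Q b4
  v6 : VP Q b6
  v8 : VP Q b8
  per : ∀ (z : ℂ) (v : OO), x (z + toC v) = x z
  neg : ∀ z : ℂ, x (-z) = x z
  add : ∀ z z' : ℂ, Tor z → Tor z' → ¬ Lat z → ¬ Lat z' → ¬ Lat (z + z') → ¬ Lat (z - z') →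
    (x (z + z') + x (z - z')) * (x z - x z') ^ 2 =
      2 * x z * x z' * (x z + x z') + b2 * x z * x z' + b4 * (x z + x z') + b6 ∧
    x (z + z') * x (z - z') * (x z - x z') ^ 2 =
      x z ^ 2 * x z' ^ 2 - b4 * x z * x z' - b6 * (x z + x z') - b8
  dbl : ∀ z : ℂ, Tor z → ¬ Lat (2 * z) →
    x (2 * z) * (4 * x z ^ 3 + b2 * x z ^ 2 + 2 * b4 * x z + b6) =
      x z ^ 4 - b4 * x z ^ 2 - 2 * b6 * x z - b8
  bez : ∀ t : Om, VP Q t → MP Q (4 * t ^ 3 + b2 * t ^ 2 + 2 * b4 * t + b6) →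
    ¬ MP Q (t ^ 4 - b4 * t ^ 2 - 2 * b6 * t - b8)
  mulw : ∃ c1 c2 c3 c4 : Om, VP Q c1 ∧ VP Q c2 ∧ VP Q c3 ∧ VP Q c4 ∧
    ∀ z : ℂ, Tor z → ¬ Lat z → ¬ Lat (wC * z) →
      x (wC * z) * (c1 * x z + c2) = x z ^ 2 + c3 * x z + c4
  two : ∀ p : OO, p = pO ∨ p = pbO → ¬ MP Q (toO p) → VP Q (x (1 / toC p))
  prod : ∀ (α : OO) (R : Finset ℂ), IsCoprime α 2 → ¬ MP Q (toO α) → IsSys α R →
    ∃ e c : Om, VP Q e ∧ UP Q c ∧ c = toO α ^ 2 * ∏ u ∈ R, (if Lat u then 1 else x u - e)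

/-- The kernel of reduction. -/
def IK (Q : Ideal ZZ) (x : ℂ → Om) (z : ℂ) : Prop := Tor z ∧ (Lat z ∨ ¬ VP Q (x z))

/-- `I2 P = IK P xO` and `IZ Q = IK Q zO` by definition. -/
theorem I2_eq (P : Ideal ZZ) (z : ℂ) : I2 P z ↔ IK P xO z := Iff.rfl

theorem IZ_eq (Q : Ideal ZZ) (z : ℂ) : IZ Q z ↔ IK Q zO z := Iff.rfl

/-! ## The abstract part -/

/-- (module `KSub`, 120 lines) **The kernel is closed under addition.**
PROOF. `Tor (z + z')`: `tor_add`. If `Lat (z + z')` done. If `Lat z`: `z = toC v`, `x (z + z') = x z'` (`per`), and `Lat (z + z')` iff `Lat z'`: done; the same if `Lat z'`. So let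
`¬ Lat z`, `¬ Lat z'`, `¬ Lat (z + z')`; `X = x z`, `X' = x z'` are not in `V`, so `X, X' ≠ 0` and `a = X⁻¹`, `b = X'⁻¹` are in `m` (`VP.not_iff`). (1) `Lat (z - z')`: `z' = z - toC v`,
`z + z' = 2 z - toC v`, `x (z + z') = x (2 z) =: s`, `¬ Lat (2 z)`. `dbl` divided by `X ^ 4`: `s (4 a + b2 a^2 + 2 b4 a^3 + b6 a^4) = 1 - b4 a^2 - 2 b6 a^3 - b8 a^4`. If `s ∈ V` then the left side is in
`m` and `1 ∈ m`, a contradiction. (2) `¬ Lat (z - z')`: let `s = x (z + z')`, `t = x (z - z')`, suppose `s ∈ V`. `add` divided by `X^2 X'^2`: with `q = (b - a)^2` (`(X - X')^2 = q X^2 X'^2`):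
`(s + t) q = n` with `n = 2 (a + b) + b2 a b + b4 a b (a + b) + b6 a^2 b^2 ∈ m` and `s t q = 1 - n'`, `n' = b4 a b + b6 a b (a + b) + b8 a^2 b^2 ∈ m`. So `s (n - s q) = s t q = 1 - n'`; the left side is in `m`
(`q ∈ m`), so `1 ∈ m`: contradiction. -/
def S_KSub : Prop :=
  ∀ (Q : Ideal ZZ) (x : ℂ → Om) (b2 b4 b6 b8 : Om), KD Q x b2 b4 b6 b8 →
    ∀ z z' : ℂ, IK Q x z → IK Q x z' → IK Q x (z + z')

/-- (module `KRed`, 100 lines) **Translation by the kernel does not change the reduction.**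
PROOF. `¬ IK Q x z` and `Tor z`: `¬ Lat z`, `X = x z ∈ V`. If `Lat z'`: `x (z + z') = x z`. Otherwise `X' = x z' ∉ V`, `b = X'⁻¹ ∈ m`. `¬ Lat (z + z')` and `¬ Lat (z - z')` (otherwise `x z' = x z` by `per`, `neg`, but
`X ∈ V`, `X' ∉ V`). Let `s = x (z + z')`, `t = x (z - z')`, `d = (b X - 1)^2`, `d - 1 ∈ m`, so `d` is a unit (`UP.congr`). `add` multiplied by `b^2`: `(s + t) d = 2 X (b X + 1) + b2 X b + b4 (X b^2 + b) + b6 b^2`
and `s t d = X^2 - b4 X b - b6 (X b^2 + b) - b8 b^2`. So `S := s + t`, `Pr := s t` are in `V`, `S - 2 X ∈ m`, `Pr - X^2 ∈ m` (e.g. `(S - 2 X) d = (s + t) d - 2 X d ∈ m` and `d` is a unit). `s^2 = S s - Pr`, so `s ∈ V` (if not, `c = s⁻¹ ∈ m` and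
`1 = S c - Pr c^2 ∈ m`). `(s - X)^2 = (S - 2 X) s - (Pr - X^2) ∈ m`, so `s - X ∈ m` (`MP.of_pow`). -/
def S_KRed : Prop :=
  ∀ (Q : Ideal ZZ) (x : ℂ → Om) (b2 b4 b6 b8 : Om), KD Q x b2 b4 b6 b8 →
    ∀ z z' : ℂ, Tor z → ¬ IK Q x z → IK Q x z' → MP Q (x (z + z') - x z)

/-- (module `KSep`, 80 lines) **The reduction is injective modulo the sign and the kernel.**
PROOF. `X = x z`, `X' = x z'` are in `V`, `¬ Lat z`, `¬ Lat z'`. Suppose `¬ IK (z + z')` and `¬ IK (z - z')`: both are torsion points, so `¬ Lat (z + z')`, `¬ Lat (z - z')`, `s = x (z + z') ∈ V`, `t = x (z - z') ∈ V`. By `add`, and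
`X - X' ∈ m`: `2 X X' (X + X') + b2 X X' + b4 (X + X') + b6 ∈ m` and `X^2 X'^2 - b4 X X' - b6 (X + X') - b8 ∈ m`. Modulo `m` one may replace `X'` by `X` (the differences are multiples of `X - X'` with coefficients in `V`):
`G(X) ∈ m` and `F(X) ∈ m`, a contradiction to `bez`. -/
def S_KSep : Prop :=
  ∀ (Q : Ideal ZZ) (x : ℂ → Om) (b2 b4 b6 b8 : Om), KD Q x b2 b4 b6 b8 →
    ∀ z z' : ℂ, Tor z → Tor z' → ¬ IK Q x z → ¬ IK Q x z' → MP Q (x z - x z') →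
      IK Q x (z + z') ∨ IK Q x (z - z')

/-- (module `KMul`, 80 lines) **The kernel is an `O`-submodule.** USES `S_KSub`.
PROOF. `IK` contains the lattice points (`Lat z → Tor z`, e.g. `z = toC v / 1`), it is closed under `+` (`S_KSub`) and under negation (`neg`, `tor_neg`, `lat_neg`), hence under multiplication by natural numbers (induction) and integers. Multiplication by `w = wC`: let `IK z`. `Tor (wC * z)`
(`wC = toC pO`, `tor_mul`). If `Lat z` then `Lat (wC * z)`. Let `¬ Lat z`, so `x z ∉ V`; if `Lat (wC * z)` done; otherwise suppose `s = x (wC * z) ∈ V`: `mulw`: `(x z)^2 + (c3 - s c1) (x z) + (c4 - s c2) = 0` with coefficients in `V`; with `a = (x z)⁻¹ ∈ m`: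
`1 = - (c3 - s c1) a - (c4 - s c2) a^2 ∈ m`, a contradiction. Finally `toC v * z = v.re z + v.im (wC z)` (`toC_apply`). -/
def S_KMul : Prop :=
  ∀ (Q : Ideal ZZ) (x : ℂ → Om) (b2 b4 b6 b8 : Om), KD Q x b2 b4 b6 b8 →
    (∀ z : ℂ, Lat z → IK Q x z) ∧ ∀ (v : OO) (z : ℂ), IK Q x z → IK Q x (toC v * z)

/-- (module `KAnn`, 100 lines) **Annihilators.** USES `S_UPid`.
PROOF. The set `J = {β : OO | Lat (toC β * z)}` is an ideal of `OO`, not zero (`z = toC v / n`, `n ∈ J`, `n ≠ 0`), `J = (δ)` (`S_UPid`), `δ ≠ 0`. Let `toC δ * z = toC w`. CLAIM: `δ` and `w` are coprime: `OO` is a principal ideal domain, let `ρ` be a generator of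
`(δ, w)`, `δ = ρ δ'`, `w = ρ w'`; `toC δ' * z = toC w'` (cancel `toC ρ ≠ 0`), so `δ ∣ δ'`, `δ' = δ k = ρ δ' k`, `δ' ≠ 0`, so `ρ k = 1`, `ρ` is a unit. So `w p + δ q = 1` for some `p`, `q`. Let `toC δ * u = toC s`. `v = s p`: `toC δ * (u - toC v * z) = toC s - toC (s p w) = toC (s (1 - p w)) = toC δ * toC (s q)`,
so `u - toC v * z = toC (s q)`. -/
def S_KAnn : Prop :=
  ∀ z : ℂ, Tor z → ∃ δ : OO, δ ≠ 0 ∧ Lat (toC δ * z) ∧ (∀ β : OO, Lat (toC β * z) → δ ∣ β) ∧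
    ∀ u : ℂ, Lat (toC δ * u) → ∃ v : OO, Lat (u - toC v * z)

/-- (module `KQp`, 150 lines) **The kernel has only `Q`-primary torsion.** USES `S_KSub`, `S_KMul`, `S_KAnn`, `S_UCop`, `S_UEx`.
PROOF. Let `α`, `β` be as in the definition of `Qp`, `z' = toC β * z`: `IK z'` (`S_KMul`), `Lat (toC α * z')`; to show: `Lat z'`. Let `δ` be the annihilator of `z'` (`S_KAnn`), `δ ∣ α`, so `¬ MP Q (toO δ)` (otherwise `toO α = toO δ * toO γ ∈ m`; `toO γ` is an algebraic integer).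
(a) `δ` is a unit: `z' = toC δ⁻¹ (toC δ z')` is a lattice point. Let `δ` be not a unit. (b) `IsCoprime δ 2`: let `R` be a system for `δ` (`S_UEx` (1)), `e`, `c` from `KD.prod`. Every `u ∈ R` is in the kernel: `u = toC v * z' + (lattice point)` (`S_KAnn`, `S_KMul`, `S_KSub`). So for `u ∈ R`, `¬ Lat u`:
`x u ∉ V`, `x u - e ∉ V` (as `e ∈ V`), so `x u - e ≠ 0` and `(x u - e)⁻¹ ∈ m`. There is `u₀ ∈ R` with `¬ Lat u₀`: the element of `R` congruent to `1 / toC δ` (`IsSys.ex`; `1 / toC δ` is not a lattice point as `δ` is not a unit). So `c⁻¹ = (toO δ ^ 2)⁻¹ * ∏ (..)⁻¹` is in `m` (`toO δ` is a unit of `V`; the factors are in `V`,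
one of them in `m`), but `c` is a unit (`UP.inv`): contradiction. (c) `¬ IsCoprime δ 2`: by `S_UCop` `p ∣ δ` for `p = pO` or `p = pbO`, `δ = p δ'`, `¬ MP Q (toO p)`. `z'' = toC δ' * z'` is in the kernel, `Lat (toC p * z'')`, `¬ Lat z''` (otherwise `δ ∣ δ'`, `δ' = p δ' k`, so `p` is a unit, but `Nm p = 2`).
`toC p * z'' = toC s`; if `p ∣ s` then `z''` is a lattice point; so `p ∣ s - 1` (`O / p` has two elements: `pO ∣ v ↔ 2 ∣ v.re`, `pbO ∣ v ↔ 2 ∣ v.re + v.im` in `S_UCop`), and `z'' = 1 / toC p + (lattice point)`. So `x z'' = x (1 / toC p) ∈ V` (`KD.two`), `¬ Lat z''`: contradiction to `IK z''`. -/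
def S_KQp : Prop :=
  ∀ (Q : Ideal ZZ) (x : ℂ → Om) (b2 b4 b6 b8 : Om), KD Q x b2 b4 b6 b8 →
    ∀ z : ℂ, IK Q x z → Qp Q z

/-! ## The coordinates `X` and `Z` -/

/-- (module `XAdd`, 120 lines) **The formulas of the Kummer line for `X`, over `ℂ`.** USES `S_B1`, `S_B2`, `S_B3`, `S_B4`, `S_B5`.
PROOF. `X = XC z`, `X' = XC z'`, `Y`, `Y'`. `X ≠ X'` by `S_B3` (1). `S_B4` for `(z, z')`: `X(z + z') = l^2 + l + 1 - X - X'`, `l = (Y - Y')/(X - X')`. `S_B4` for `(z, -z')`: `XC (-z') = X'`, `YC (-z') = - X' - Y'` (`S_B2`), `X(z - z') = l'^2 + l' + 1 - X - X'`, `l' = (Y + X' + Y')/(X - X')`.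
With `Y^2 = - X Y + X^3 - X^2 - 2 X - 1` and the same for `X', Y'` (`S_B1`): clear denominators (`field_simp`) and `linear_combination` of the two curve equations (first formula: coefficient `2` for both... ; second formula: a polynomial combination; one may first compute `l + l' = (2 Y + X')/(X - X')`, `l l' = (Y - Y')(Y + X' + Y')/(X - X')^2 = (Y^2 + X' Y - Y'^2 - X' Y')/(X - X')^2`).
Duplication: `2 Y + X ≠ 0` (`S_B3` (2)), `(2 Y + X)^2 = 4 X^3 - 3 X^2 - 8 X - 4`, `S_B5`. -/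
def S_XAdd : Prop :=
  (∀ z z' : ℂ, ¬ Lat z → ¬ Lat z' → ¬ Lat (z + z') → ¬ Lat (z - z') →
    (XC (z + z') + XC (z - z')) * (XC z - XC z') ^ 2 =
      2 * XC z * XC z' * (XC z + XC z') - 3 * XC z * XC z' - 4 * (XC z + XC z') - 4 ∧
    XC (z + z') * XC (z - z') * (XC z - XC z') ^ 2 =
      XC z ^ 2 * XC z' ^ 2 + 4 * XC z * XC z' + 4 * (XC z + XC z') + 1) ∧
  ∀ z : ℂ, ¬ Lat (2 * z) →
    XC (2 * z) * (4 * XC z ^ 3 - 3 * XC z ^ 2 - 8 * XC z - 4) =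
      XC z ^ 4 + 4 * XC z ^ 2 + 8 * XC z + 1

/-- (module `XOm`, 100 lines) **The formulas in `Om`.** USES `S_A0`, `S_B2`, `S_B6`, `S_B7`, `S_XAdd`.
PROOF. `io` is injective (`io_inj`), `io (xO z) = XC z` for torsion points (`S_A0`); `io wO = wC`. The periodicity holds for all `z` since `xO z = ofC (XC z)`. `zO z = (xO z - 1 / 4) / toO s7`. The formula for `wC * z` is `S_B6` for `p = wC`, `pb = wbC = 1 - wC`. The last statement is `S_B7`
for `a = pO` or `a = pbO` (`toC pO = wC`, `toC pbO = wbC = 1 - wC`), and `XC (1 / 2) = 2`. -/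
def S_XOm : Prop :=
  (∀ (z : ℂ) (v : OO), xO (z + toC v) = xO z) ∧ (∀ z : ℂ, xO (-z) = xO z) ∧
  (∀ z z' : ℂ, Tor z → Tor z' → ¬ Lat z → ¬ Lat z' → ¬ Lat (z + z') → ¬ Lat (z - z') →
    (xO (z + z') + xO (z - z')) * (xO z - xO z') ^ 2 =
      2 * xO z * xO z' * (xO z + xO z') - 3 * xO z * xO z' - 4 * (xO z + xO z') - 4 ∧
    xO (z + z') * xO (z - z') * (xO z - xO z') ^ 2 =
      xO z ^ 2 * xO z' ^ 2 + 4 * xO z * xO z' + 4 * (xO z + xO z') + 1) ∧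
  (∀ z : ℂ, Tor z → ¬ Lat (2 * z) →
    xO (2 * z) * (4 * xO z ^ 3 - 3 * xO z ^ 2 - 8 * xO z - 4) =
      xO z ^ 4 + 4 * xO z ^ 2 + 8 * xO z + 1) ∧
  (∀ a b : OO, Pr2 a b → ∀ z : ℂ, Tor z → ¬ Lat z → ¬ Lat (toC a * z) →
    xO (toC a * z) * (toO a ^ 2 * xO z - toO b) = xO z ^ 2 - toO a) ∧
  (∀ a b : OO, Pr2 a b → xO (1 / toC a) = toO b / toO a ^ 2) ∧ xO (1 / 2) = 2

open Classical in
/-- (module `XPr`, 200 lines) **The constant of the product formula** (D6). USES `S_B1`, `S_B2`, `S_B3`, `S_B4`, `S_B7`, `S_B15`, `S_A0`.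
PROOF. Over `ℂ` (then apply `io`, `S_A0`; `io (toO v) = toC v`); write `a`, `b` for `toC a`, `toC b`: `a b = 2`, `a + b = 1`, `a^2 = a - 2`, `b^2 = b - 2`. The points `T = 1/b`, `T' = 1/a`, `T'' = 1/2` (`2 T ∈ O` etc., none is in `O`) have the values `e = a/b^2`, `e' = b/a^2`, `e'' = 2` (`S_B7`).
`e' - e = (a - b)/4`, `(e - e')(e - e'') = -7/b^4`. Let `c, c', c''` be the constants of `S_B15` for `T, T', T''`: `c = α^2 ∏ (if Lat u then 1 else X u - e)` etc., all `≠ 0`. Let `u ∈ R`, `¬ Lat u`; the order of `u` is odd (`toC α * u ∈ O`, `α` is prime to `2`), so `2 u`, `a u`, `b u` are not in `O` and `X u ≠ e, e', e''`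
(`S_B3` (1): `X u = X T` implies `Lat (u ± T)` and `Lat (2 u)`). (1) `S_B7` (translation by `1/a`, `z = u`): `X(u + 1/a) (a^2 X u - b) = b X u - a^3`, so `X(u + T') - e = (e' - e) (X u - 2)/(X u - e')` (clear denominators; `b X - a^3 - e (a^2 X - b) = (a - b)/b^2 * (X - 2)`). (2) `X(u + 1/2) = (2 X u + 3)/(X u - 2)` (`S_B4` for `u` and `1/2`, `Y(1/2) = -1`
because `2 Y + X = 0` there; or `1/2 = 1/a + 1/b` and (1) twice), so `X(u + T'') - e = (2 - e)(X u - e')/(X u - 2)` (`e + e' = -5/4`, `e e' = 1/2`). `R` contains exactly one lattice point `u₀` (`IsSys.ex` for `z = 0`, `uni`). (3) `S_B15` for `T` at `z = T'` (`α / a` is not in `O` since `α` is odd, and `X(α / a) = X(1/a) = e'`, as `α - 1 ∈ 2 O`: `S_UCop` or a direct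
argument with `IsCoprime α 2`): `∏ over u ∈ R of (X(T' + u) - e) = c (e' - e)`; the factor of `u₀` is `e' - e ≠ 0`, so `∏ over u ≠ u₀ of (e' - e)(X u - 2)/(X u - e') = c`, that is `c c' = κ c''` with `κ = ∏ over u ≠ u₀ of (e' - e)`. (4) the same at `z = T''`: `c c'' = κ' c'`, `κ' = ∏ over u ≠ u₀ of (2 - e)`. Multiply and cancel: `c^2 = κ κ' = ∏ over u ≠ u₀ of (e' - e)(2 - e)`. -/
def S_XPr : Prop :=
  ∀ a b : OO, Pr2 a b → ∀ (α : OO) (R : Finset ℂ), IsCoprime α 2 → IsSys α R →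
    (toO α ^ 2 * ∏ u ∈ R, (if Lat u then 1 else xO u - xO (1 / toC b))) ^ 2 =
      ∏ u ∈ R, (if Lat u then 1 else -7 / toO b ^ 4)

/-- (module `KDX`, 120 lines) **The Kummer datum of `X` above `2`.** USES `S_XOm`, `S_XPr`.
PROOF. `b2 = -3`, `b4 = b6 = -4`, `b8 = -1` are integers. `bez`: `(48 t^2 - 24 t - 137) F(t) - (12 t^3 + 3 t^2 + 40 t + 120) G(t) = 343`, so `343 ∈ m`, `7 ∈ m`, and `2 ∈ m` (`toO a * toO b = 2`): `1 ∈ m`, a contradiction. `mulw`: `S_XOm` for `(pO, pbO)`: `c1 = wO^2`, `c2 = -(1 - wO)`, `c3 = 0`, `c4 = -wO` (`wO` is integral: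
a root of `X^2 - X + 2`). `two`: if `¬ MP P (toO p)` then `p = b` (`MP P (toO a)`), `xO (1 / toC b) = toO a / toO b^2`, `toO b` is a unit of `V` (`toO a + toO b = 1`). `prod`: `e = xO (1 / toC b)`, `c` = the product; `c^2` is a product of the units `1` and `-7 / toO b^4` (`7` is a unit: `7 = 1 + 2 * 3`), so `c` is a unit (`UP.of_pow`). -/
def S_KDX : Prop :=
  ∀ a b : OO, Pr2 a b → ∀ P : Ideal ZZ, Npr P → MP P (toO a) → KD P xO (-3) (-4) (-4) (-1)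

/-- (module `KDZ`, 180 lines) **The Kummer datum of `Z` outside `2`.** USES `S_XOm`, `S_XPr`.
PROOF. `r = toO s7 = 2 wO - 1 = rO`, `r^2 = -7`, `r ≠ 0`; `xO z = r * zO z + 1/4`. `2` is a unit of `V` (`¬ MP Q 2`), `wO`, `r` are integral. `b2 = 0`, `b4 = 5/8`, `b6 = -r/8`, `b8 = -25/256`. `add`, `dbl`: substitute `xO = r zO + 1/4` in the formulas of `S_XOm` and divide by `r^3`, `r^4` (`linear_combination (coefficient) * (formula) + .. * (r^2 = -7)`;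
`4 X^3 - 3 X^2 - 8 X - 4 = r^3 G(Z)`, `X^4 + 4 X^2 + 8 X + 1 = r^4 F(Z) + (r^3/4) G(Z)`). `bez`: `(48 t^2 + 20) F(t) - (12 t^3 - (25/4) t + (27/8) r) G(t) = -1`. `mulw`: `Z(wz) (w^2 Z + (2 + w)/4) = Z^2 - (w/4) Z - (1 - 3 w)/16` (`w = wO`, `r = 2 w - 1`; from `X(wz) (w^2 X - (1 - w)) = X^2 - w`; `5 w - 6 = (2 + w) r`, `4 - w = - w r`).
`two`: `zO (1 / wC) = - (2 + w)/(4 w^2)`, `zO (1 / (1 - wC)) = (2 + wb)/(4 wb^2)`, `wb = 1 - wO`; `w` and `wb` are units of `V` (`w wb = 2`). `prod`: `e = zO (1 / toC pbO)`, `c = toO α^2 ∏ (if Lat u then 1 else zO u - e)`, `zO u - e = (xO u - xO (1 / toC pbO))/r`; by `S_XPr` for `(pO, pbO)`: `c^2 = ∏ (if Lat u then 1 else 1 / wb^4)`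
(`(-7)/r^2 = 1`), a unit, so `c` is a unit. -/
def S_KDZ : Prop :=
  ∀ Q : Ideal ZZ, Npr Q → ¬ MP Q 2 → KD Q zO 0 (5 / 8) (-toO s7 / 8) (-25 / 256)

/-- (module `D1c`, 120 lines) **Reduction above `2`: the additional facts.** USES `S_XOm`, `S_A0`, `S_B1`.
PROOF. `toO a * toO b = 2`, `toO a + toO b = 1`; so `2 ∈ m`, `toO b` is a unit, `toO b - 1 ∈ m`. (1) `xO (1 / toC a) = toO b / toO a^2` is not in `V` (otherwise `toO b = xO * toO a^2 ∈ m`); `1 / toC a` is a torsion point (`= toC b / 2`). `xO (1 / toC b) = toO a / toO b^2 ∈ V` and `1 / toC b` is not a lattice point (`b` is not a unit, `Nm b = 2`). `xO (1/2) = 2 ∈ V`,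
`1/2` is not a lattice point. (2) Let `Tor z`, `¬ IK z`: `¬ Lat z`, `X = xO z ∈ V`. `Y^2 + X Y = X^3 - X^2 - 2 X - 1` (`S_B1` through `io`, `S_A0`), so `Y ∈ V` (if not, `c = Y⁻¹ ∈ m`, `1 = - X c + (..) c^2 ∈ m`). (3) `¬ Lat (toC a * z)`: otherwise `toC a * z = toC s`; if `a ∣ s` then `z` is a lattice point; so `a ∣ s - 1` (`O / a` has two elements: `pO ∣ v ↔ 2 ∣ v.re`,
`pbO ∣ v ↔ 2 ∣ v.re + v.im`; direct, or add `S_UCop`), `z = 1 / toC a + (lattice point)`, `xO z = xO (1 / toC a) ∉ V`: contradiction. `D := toO a^2 X - toO b` is a unit (`UP.congr` with `- toO b`), `xO (toC a * z) = (X^2 - toO a)/D ∈ V`, and `(xO (toC a * z) - X^2) D = X^2 - toO a - X^2 (toO a^2 X - toO b) = X^2 (1 + toO b) - toO a - toO a^2 X^3 ∈ m` (`1 + toO b = 2 - toO a ∈ m`). -/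
def S_D1c : Prop :=
  ∀ a b : OO, Pr2 a b → ∀ P : Ideal ZZ, Npr P → MP P (toO a) →
    (∀ z : ℂ, Tor z → ¬ I2 P z → VP P (yO z)) ∧
    (∀ z : ℂ, Tor z → ¬ I2 P z → ¬ I2 P (toC a * z) ∧ MP P (xO (toC a * z) - xO z ^ 2)) ∧
    I2 P (1 / toC a) ∧ ¬ I2 P (1 / toC b) ∧ ¬ I2 P (1 / 2)

end Pool.Agent.DI.D
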