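import Pool.Agent.Lib.DI.D.SpecA

/-!
# Theorem DI, part D-B: `S_D3`, `S_D4`, `S_D5`, `S_D6` (note 4050, D6 - D11), statements

Author helper46. For every `X` below: `T_X` is a statement and `S_X : Prop` is `(hypotheses) → T_X`; the module
`DI/D/BX.lean` (`BCop.lean`, `BFer.lean`, ...) proves `theorem tX : S_X` in the namespace `Pool.Agent.DI.DB`; the
complete proof is in the docstring. The hypotheses are statements of `DI/Iface.lean` (`S_B15, S_A0, S_D1, S_D2, S_D3`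
`S_D4, S_D8`), of `DI/Util/Spec.lean` (`S_UEx` ...), of `DI/D/SpecA.lean` (`D.S_XOm, D.S_XPr, D.S_KDZ`) and other `T_..`
of this file. All modules are independent of each other.

Facts on `VP`, `MP`, `UP`: `DI/Val.lean` (`VP.add`, `VP.mul`, `VP.sub`, `VP.pow`, `VP.prod`, `VP.inv`, `VP.not_iff`,
`MP.vp`, `MP.add`, `MP.sub`, `MP.mul_left`, `MP.mul_right`, `MP.mul_cases`, `MP.of_pow`, `MP.one_not`, `UP.mul`,
`UP.inv`, `UP.div`, `UP.prod`, `UP.pow`, `UP.of_pow`, `UP.iff`, `UP.congr`, `UP.ne_zero`, ...), with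
`have hP : Q.IsPrime := ..` as an instance. Facts on `Lat`, `Tor`, `OO`: `DI/E/Base.lean` (namespace
`Pool.Agent.DI.E`) and `S_UEx`, `S_UNm`. `toO v` is integral over `ℤ`, so `VP Q (toO v)` (see `DI/D/KDZ.lean`,
`DI/D/XPr.lean` for examples). `r = toO s7`, `r ^ 2 = -7`; `w = toO pO`, `wb = toO pbO = 1 - w`, `w wb = 2`.
-/

set_option autoImplicit false

open scoped Pointwise Topology

noncomputable section

namespace Pool.Agent.DI.DB

open Pool.Agent.MuZ Pool.Agent.DI Pool.Agent.DI.D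

/-- The value `e = Z(1/π̄)`. -/
def eZ : Om := zO (1 / toC pbO)

/-! ## Elements of prime norm -/

/-- Elements of prime norm. -/
def T_Cop : Prop := ∀ (la : OO) (l : ℕ), l.Prime → Nm la = l →
  la ≠ 0 ∧ (l : OO) = la * cjO la ∧ (∀ v : OO, ∃ n : ℤ, la ∣ v - n) ∧
    (∀ s : OO, ¬ la ∣ s → ∃ k : OO, la ∣ s * k - 1) ∧ (∀ s : OO, ¬ la ∣ s → IsCoprime la s) ∧
    (l ≠ 2 → IsCoprime la 2)

/-- (module `BCop`, 60 lines) **Elements of prime norm.**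
Proof. `la ≠ 0` as `Nm 0 = 0`. `la * cjO la = Nm la = l` (`E.mul_cjO`). Let `la = x + y w`, `Nm la = x² + x y + 2 y² = l`. `l ∤ y`:
if `l ∣ y` then `l ∣ x²`, `l ∣ x`, `l² ∣ l`, a contradiction. So `y y' = 1 + l k` with integers. `la y' = x y' + (1 + l k) w`, so
`la ∣ w + x y'` (`la ∣ l`), and for `v = a + b w`: `la ∣ v - n`, `n = a - b x y'`. Let `¬ la ∣ s`, `la ∣ s - n`; `l ∤ n` (otherwise
`la ∣ l ∣ n` and `la ∣ s`), so `n m = 1 + l k'`, and `la ∣ s m - 1`: this is the fourth claim with `k = m` and gives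
`s m + la j = 1`, the fifth claim. Last: `l` is odd, `1 = l - 2 ((l - 1)/2) = la cjO(la) - 2 (..)`. -/
def S_Cop : Prop := T_Cop

/-- Fermat. -/
def T_Fer : Prop := ∀ (la : OO) (l : ℕ), l.Prime → l ≠ 2 → Nm la = l → ∀ Q : Ideal ZZ, Npr Q → MP Q (toO la) →
  MP Q (l : Om) ∧ (∀ n : ℤ, ¬ (l : ℤ) ∣ n → ¬ MP Q (n : Om)) ∧
    (∀ v u : OO, ¬ MP Q (toO u) → MP Q ((toO v / toO u) ^ l - toO v / toO u)) ∧
    ∀ x y : Om, VP Q x → VP Q y → MP Q ((x - y) ^ l - (x ^ l - y ^ l))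

/-- (module `BFer`, 100 lines) **Fermat's theorem modulo `Q`.**
Proof. (1) `l = toO la * toO (cjO la)` (`T_Cop`), so `l ∈ m`. (2) if `l ∤ n` then `x n + y l = 1` with integers; `n ∈ m` would give
`1 ∈ m`. (3) For `v ∈ OO` let `la ∣ v - n` (`T_Cop`), so `toO v - n ∈ m`, `toO v ^ l - n ^ l ∈ m` (`sub_dvd_pow_sub_pow`, the
cofactor is in `V`: or `toO v ^ l - n ^ l = toO (v ^ l - n ^ l)` and `la ∣ v ^ l - n ^ l`), `l ∣ n ^ l - n` (`ZMod.pow_card`,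
`ZMod.intCast_zmod_eq_zero_iff_dvd`), so `toO v ^ l - toO v ∈ m`. Quotients: `p = toO v`, `q = toO u`, `q` is a unit of `V`,
`p ^ l = p + d`, `q ^ l = q + d'` with `d, d' ∈ m`; `(p / q) ^ l - p / q = (d q - d' p) / (q q ^ l)` (`q, q ^ l` are units).
(4) `add_pow_prime_eq` (explicit binomial formula `(x + y) ^ l = x ^ l + y ^ l + l * ∑ ..`) for `x` and `-y`, `(-y) ^ l = - y ^ l` as
`l` is odd; the sum is in `V` (`VP.sum`, `VP.nat`). -/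
def S_Fer : Prop := T_Cop → T_Fer

/-- The group `la⁻¹ O / O` is generated by each of its elements `≠ 0`. -/
def T_Cyc : Prop := ∀ (la : OO) (l : ℕ), l.Prime → Nm la = l → ∀ u u' : ℂ, Lat (toC la * u) → ¬ Lat u →
  Lat (toC la * u') → ∃ v : OO, Lat (u' - toC v * u)

/-- (module `BCyc`, 30 lines) **Generators.**
Proof. `toC la * u = toC s`, `toC la * u' = toC s'`; `¬ la ∣ s` (otherwise `u = toC (s / la)`, `toC la ≠ 0`). `la ∣ s k - 1`
(`T_Cop`), say `s k - 1 = la j`. `v = s' k`: `toC la * (u' - toC v * u) = toC (s' - s' k s) = toC (- s' la j)`, so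
`u' - toC v * u = toC (- s' j)`. -/
def S_Cyc : Prop := T_Cop → S_UNm → T_Cyc

/-! ## The refined filtration -/

/-- The points with `1 / x(z)` in `t V`. -/
def JK (Q : Ideal ZZ) (x : ℂ → Om) (t : Om) (z : ℂ) : Prop :=
  Tor z ∧ (Lat z ∨ (x z ≠ 0 ∧ TP Q t (x z)⁻¹))

/-- The filtration of the kernel of reduction. -/
def T_Ref : Prop := ∀ (Q : Ideal ZZ) (x : ℂ → Om) (b2 b4 b6 b8 : Om), KD Q x b2 b4 b6 b8 → ∀ t : Om, MP Q t →
  (∀ z z' : ℂ, JK Q x t z → JK Q x t z' → JK Q x t (z + z')) ∧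
    ∀ (v : OO) (z : ℂ), JK Q x t z → JK Q x t (toC v * z)

/-- (module `BRef`, 180 lines) **The filtration of the kernel of reduction.** Read first the proofs of `D.S_KSub`, `D.S_KMul`
(`DI/D/KSub.lean`, `DI/D/KMul.lean`); this is the same with more precise conclusions.
Proof. ADDITION. `Tor (z + z')`. `Lat (z + z')`: done. `Lat z` or `Lat z'`: periodicity. Otherwise `X = x z`, `X' = x z'` are not
`0`, `a = X⁻¹ = t y`, `b = X'⁻¹ = t y'`, `y, y' ∈ V`; `t ≠ 0`, `a, b ∈ m`. (1) `Lat (z - z')`: `z + z' = 2 z - toC v`,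
`s = x (z + z') = x (2 z)`. `dbl` divided by `X ^ 4`: `s (4 a + b2 a^2 + 2 b4 a^3 + b6 a^4) = 1 - f`,
`f = b4 a^2 + 2 b6 a^3 + b8 a^4 ∈ m`, `1 - f` is a unit. So `s ≠ 0` and `s⁻¹ = t · y (4 + b2 a + 2 b4 a^2 + b6 a^3) (1 - f)⁻¹`.
(2) `¬ Lat (z - z')`: `s = x (z + z')`, `s' = x (z - z')`, `q = (b - a)^2`; `add` divided by `X^2 X'^2`
(`(X - X')^2 = q X^2 X'^2`): `(s + s') q = n`, `n = 2 (a + b) + b2 a b + b4 a b (a + b) + b6 a^2 b^2`, and `s s' q = 1 - n'`,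
`n' = b4 a b + b6 a b (a + b) + b8 a^2 b^2 ∈ m`, so `1 - n'` is a unit, `s, s', q ≠ 0`. Put `g = s⁻¹`; `g + s'⁻¹ = n (1 - n')⁻¹` and
`g s'⁻¹ = q (1 - n')⁻¹`, so `g² - n (1 - n')⁻¹ g + q (1 - n')⁻¹ = 0`. `n = t n₁`, `q = t² q₁` with `n₁, q₁ ∈ V` (`a = t y`,
`b = t y'`). With `h = g / t`: `h² - n₁ (1 - n')⁻¹ h + q₁ (1 - n')⁻¹ = 0`; so `h ∈ V` (if not: `h⁻¹ ∈ m` and
`1 = n₁ (1 - n')⁻¹ h⁻¹ - q₁ (1 - n')⁻¹ h⁻² ∈ m`), `g = t h`.
MULTIPLICATION. Lattice points: `JK`. Negation: `neg`. Natural numbers by induction, integers; `w = wC`: let `¬ Lat z`,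
`¬ Lat (wC * z)`, `X = x z`, `a = X⁻¹ = t y`, `s = x (wC * z)`; `mulw` divided by `X²`: `s (c1 a + c2 a²) = 1 + c3 a + c4 a²`, a unit, so
`s ≠ 0`, `s⁻¹ = t · y (c1 + c2 a) (1 + c3 a + c4 a²)⁻¹`. Finally `toC v * z = v.re z + v.im (wC z)`. -/
def S_Ref : Prop := T_Ref

/-! ## The product formula for `Z` -/

open Classical in
/-- The constant of the product formula is a unit outside `2`. -/
def T_Eun : Prop := ∀ Q : Ideal ZZ, Npr Q → ¬ MP Q 2 → VP Q eZ ∧ Tor (1 / toC pbO) ∧ ¬ Lat (1 / toC pbO) ∧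
  Lat (2 * (1 / toC pbO)) ∧ ¬ IZ Q (1 / toC pbO) ∧ Tor (1 / toC pO) ∧ ¬ IZ Q (1 / toC pO) ∧
  zO (1 / toC pO) - eZ = 1 / 4 ∧ eZ = toO (4 * pO - pbO ^ 2) / toO (4 * pbO ^ 2 * s7) ∧
  ∀ (α : OO) (R : Finset ℂ), IsCoprime α 2 → IsSys α R →
    UP Q (toO α ^ 2 * ∏ u ∈ R, (if Lat u then 1 else zO u - eZ))

/-- (module `BEun`, 150 lines) **The constant is a unit.** (Compare the part `prod`, `two` of `DI/D/KDZ.lean`.)
Proof. `w = toO pO`, `wb = toO pbO = 1 - w`, `w² = w - 2`, `w wb = 2` so both are units of `V`; `r = toO s7 = 2 w - 1`, `r² = -7`,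
`r ≠ 0`. `D.S_XOm` (6), for `(pbO, pO)` and `(pO, pbO)`: `xO (1 / toC pbO) = w / wb²`, `xO (1 / toC pO) = wb / w²`. So
`eZ = (w / wb² - 1/4) / r = (4 w - wb²) / (4 wb² r)` and `4 w - wb² = (5 + w... )` is `r (2 + wb)`: indeed `wb² = wb - 2`,
`4 w - wb² = 4 - 4 wb - wb + 2 = 6 - 5 wb = r (2 + wb)` (`r = 1 - 2 wb`), so `eZ = (2 + wb) / (4 wb²) ∈ V`; in the same way
`zO (1 / toC pO) = - (2 + w) / (4 w²) ∈ V`. `zO (1 / toC pO) - eZ = (wb / w² - w / wb²) / r = (wb³ - w³) / (4 r) = 1 / 4`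
(`w³ = - w - 2`, `wb³ = - wb - 2 = w - 3`). `1 / toC pbO = toC pO / 2`, `1 / toC pO = toC pbO / 2`: `Tor`, and `2 * ` it is in `Lat`; not
`Lat`: if `1 / toC pbO = toC v` then `1 = pbO v`, norms `1 = 2 Nm v`. `¬ IZ`: not `Lat` and the value is in `V`. THE UNIT: let `P` be
the expression; `zO u - eZ = (xO u - xO (1 / toC pbO)) / r`. `D.S_XPr` for `(pO, pbO)` and `P² = toO α ^ 4 ∏ (if Lat u then 1 else (zO u - eZ)²)`:
`P² ∏ (if Lat u then 1 else -7) = ∏ (if Lat u then 1 else -7 / wb⁴)` (multiply factor by factor, `Finset.prod_mul_distrib`), so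
`P² = ∏ (if Lat u then 1 else 1 / wb⁴)`, a unit (`UP.prod`), and `P` is a unit (`UP.of_pow`). -/
def S_Eun : Prop := S_XOm → S_XPr → T_Eun

open Classical in
/-- The product formula. -/
def T_PrF : Prop := ∀ (α : OO) (R : Finset ℂ), IsCoprime α 2 → IsSys α R → ∀ z : ℂ, Tor z → ¬ Lat (toC α * z) →
  ∏ u ∈ R, (zO (z + u) - eZ) =
    (toO α ^ 2 * ∏ u ∈ R, (if Lat u then 1 else zO u - eZ)) * (zO (toC α * z) - eZ)

/-- (module `BPrF`, 100 lines) **The product formula for `Z`.**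
Proof. `α ≠ 0` (`2` is not a unit). `T = 1 / toC pbO = toC pO / 2`: `Lat (2 * T)`, `Tor T`, `¬ Lat T` (norms: `1 = pbO v` gives
`1 = 2 Nm v`). All `u ∈ R`, `z + u`, `α z` are torsion points (`S_UEx`). `c` from `S_B15` for `α, R, T`. Let `r = toC s7 ≠ 0`; for a torsion
point `y`: `io (zO y) = (XC y - 1/4) / r` (`S_A0`, `io_toO`), so `io (zO y - eZ) = (XC y - XC T) / r`. Exactly one `u₀ ∈ R` is a lattice
point (`IsSys.ex` for `z = 0`, `uni`). So with `n = R.card`: `∏ u ∈ R, (XC (z + u) - XC T) = r ^ n io (∏ u ∈ R, (zO (z + u) - eZ))`, and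
`r ∏ u ∈ R, (if Lat u then 1 else XC u - XC T) = ∏ u ∈ R, r (if Lat u then 1 else io (zO u - eZ)) = r ^ n io (∏ ..)`
(the factor `r` in front is used for `u₀`: e.g. split off `u₀` with `Finset.mul_prod_erase`). Hence
`r ^ n io (LHS) = c (XC (α z) - XC T) = c r io (zO (α z) - eZ) = r ^ n io (RHS)`. `io_inj`. -/
def S_PrF : Prop := S_B15 → S_A0 → S_UNm → S_UEx → T_PrF

/-! ## `S_D3`, `S_D4` -/

/-- (module `BD3`, 150 lines) **`S_D3`.**
Proof. `IsCoprime la 2`, `la ≠ 0` (`T_Cop`). `MP Q 2` is false: `l ∈ m` (`l = la cjO(la)`), `l` odd, so `2 ∈ m` would give `1 ∈ m`. Let `R` be a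
system for `la` (`S_UEx` (1)), `R.card = l` (`S_UEx`, last claim), exactly one element of `R` is a lattice point. `c = toO la ^ 2 ∏ (..)` is a unit
(`T_Eun`). Let `K : KD Q zO 0 (5 / 8) (-toO s7 / 8) (-25 / 256)` (`S_KDZ`). (a) `IZ Q u`: `Tor u` (`S_UEx`); suppose `zO u ∈ V`. Then
`zO u' ∈ V` for all `u' ∈ R`, `¬ Lat u'`: otherwise `IZ Q u'`, `Lat (u - toC v * u')` (`T_Cyc`), `IZ Q (toC v * u')`, `IZ Q (lattice point)`, `IZ Q u`
(`S_D2` (2), (1)), a contradiction. So `c = la² · (element of V)` is in `m`, a contradiction. (b) So `zO u' ∉ V` for all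
`u'` with `Lat (la u')`, `¬ Lat u'`, in particular `zO u' ≠ 0`. Let `t = (zO u)⁻¹ ∈ m`. `JK Q zO t u` holds. For such `u'`: `Lat (u' - toC v * u)`
(`T_Cyc`), so `JK Q zO t u'` (`T_Ref`; a lattice point satisfies `JK`), so `(zO u')⁻¹ = t y`, `zO u / zO u' ∈ V`; by symmetry
`zO u' / zO u ∈ V`; so `zO u' / zO u` is a unit (`UP.iff`). And `(zO u' - eZ) / zO u' = 1 - eZ (zO u')⁻¹` is a unit (`eZ ∈ V`). So
`(zO u' - eZ) / zO u` is a unit for all non-lattice `u' ∈ R`. There are `l - 1` of them: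
`c = toO la ^ 2 (zO u) ^ (l - 1) ∏ (if Lat u' then 1 else (zO u' - eZ) / zO u)`, so `toO la ^ 2 (zO u) ^ (l - 1)` is a unit; it is the square of
`toO la * zO u ^ ((l - 1) / 2)` (`l - 1` is even), `UP.of_pow`. -/
def S_BD3 : Prop := T_Cop → T_Cyc → T_Ref → T_Eun → S_KDZ → S_D2 → S_UEx → S_D3

/-- (module `BD4`, 150 lines) **`S_D4`.**
Proof. `IsCoprime la 2`, `la ≠ 0` (`T_Cop`), `l ∈ m` and `¬ MP Q 2`, `¬ MP Q 4`, `¬ MP Q 7` (`T_Fer` (2): `l ∤ 2, 4, 7`). `R` a system for `la` (`S_UEx`),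
`R.card = l`; `c = toO la ^ 2 ∏ (..)` is a unit (`T_Eun`). Every `u ∈ R` satisfies `IZ Q u` (`S_D3`, or `Lat u`). Let `Tor z`, `¬ IZ Q z`: `zO z ∈ V`,
`¬ Lat z`, and `¬ Lat (la z)` (otherwise `IZ Q z` by `S_D3`). `zO (z + u) - zO z ∈ m` for `u ∈ R` (`S_D2` (4)), so
`∏ u ∈ R, (zO (z + u) - eZ) - (zO z - eZ) ^ l ∈ m` (induction on finsets, or `Finset.prod_induction`; all factors in `V`). With `T_PrF`:
(*) `(zO z - eZ) ^ l - c (zO (la z) - eZ) ∈ m`. (1) `c - 1 ∈ m`: take `z = T' = 1 / toC pO` (`T_Eun`: `Tor`, `¬ IZ`). `la - 1 ∈ 2 O`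
(`IsCoprime la 2`, `S_UCop`), so `la T' - T' ∈ O` (`2 T' = toC pbO`) and `zO (la T') = zO T'` (`S_XOm` (1)). `zO T' - eZ = 1 / 4`. So
`(1/4) ^ l - c / 4 ∈ m`, `(1/4) ^ l - 1/4 ∈ m` (`T_Fer` (3), `v = 1`, `u = 4`), `c / 4 - 1 / 4 ∈ m`, times `4`. (2) Let `z` be general,
`y = zO (la z)`. By (*) `c (y - eZ) ∈ V`, `c` a unit, so `y ∈ V`: `¬ IZ Q (la z)` (as `¬ Lat (la z)`). Modulo `m`: `y - eZ ≡ c (y - eZ) ≡
(zO z - eZ) ^ l ≡ zO z ^ l - eZ ^ l` (`T_Fer` (4)) `≡ zO z ^ l - eZ` (`T_Fer` (3) for `eZ = toO (..) / toO (4 * pbO ^ 2 * s7)`, the denominator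
is not in `m`: `MP.mul_cases`, `toO pbO` divides `2`, `toO s7 ^ 2 = -7`). So `y - zO z ^ l ∈ m`. -/
def S_BD4 : Prop := T_Cop → T_Fer → T_Eun → T_PrF → S_XOm → S_D2 → S_D3 → S_UCop → S_UEx → S_D4

/-! ## Half systems -/

open Classical in
/-- Products over a half system. -/
def T_Hlf : Prop := ∀ (μ : OO) (R S : Finset ℂ), IsCoprime μ 2 → IsSys μ R → IsHalf μ S → ∀ F : ℂ → Om,
  (∀ z : ℂ, Lat (toC μ * z) → (∀ v : OO, F (z + toC v) = F z) ∧ F (-z) = F z) →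
    ∏ u ∈ R, (if Lat u then 1 else F u) = (∏ u ∈ S, F u) ^ 2

/-- (module `BHlf`, 100 lines) **Products over a half system.**
Proof. `∏ u ∈ R, (if Lat u then 1 else F u) = ∏ u ∈ R', F u`, `R' = R.filter (¬ Lat ·)` (`Finset.prod_filter`, `Finset.prod_ite`). For `u ∈ S` choose
`r u ∈ R` with `Lat (u - r u)` and `r' u ∈ R` with `Lat (- u - r' u)` (`IsSys.ex`); `r u, r' u ∈ R'` (as `¬ Lat u`),
`F (r u) = F u`, `F (r' u) = F (-u) = F u`. `r` and `r'` are injective on `S` (`r u₁ = r u₂` gives `Lat (u₁ - u₂)`, `IsHalf.uni`), their images are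
disjoint: `r u₁ = r' u₂` gives `Lat (u₁ + u₂)`, so `u₁ = u₂ =: u` (`uni`), `Lat (2 u)`, `Lat (μ u)` and `1 = x μ + y 2` gives `Lat u`, a
contradiction; `R'` is the union of the images: `v ∈ R'` has `Lat (v - u)` or `Lat (v + u)` for some `u ∈ S` (`IsHalf.ex`), then `v = r u` or
`v = r' u` by `IsSys.uni`. (`Finset.prod_union`, `Finset.prod_image`.) -/
def S_Hlf : Prop := S_UEx → T_Hlf

open Classical in
/-- The kernel part of the theta function. -/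
def T_MuU : Prop := ∀ (μ : OO) (S : Finset ℂ), IsCoprime μ 2 → IsHalf μ S → ∀ Q : Ideal ZZ, Npr Q → ¬ MP Q 2 →
  UP Q (toO μ * ∏ u ∈ S, (if IZ Q u then zO u else 1))

/-- (module `BMuU`, 120 lines) **The kernel part.**
Proof. `μ ≠ 0` (`2` is not a unit). `R` a system for `μ` (`S_UEx`). `T_Hlf` with `F u = zO u - eZ` (periodic and even: `S_XOm` (1), (2);
`zO z = (xO z - 1 / 4) / toO s7`): `toO μ ^ 2 ∏ u ∈ R, (..) = (toO μ ∏ u ∈ S, (zO u - eZ)) ^ 2`, a unit by `T_Eun`; so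
`U = toO μ ∏ u ∈ S, (zO u - eZ)` is a unit (`UP.of_pow`), all factors are `≠ 0`. For `u ∈ S` put `g u = if IZ Q u then zO u else 1`. CLAIM: `(zO u - eZ) / g u` is a unit. Then
`toO μ ∏ g u = U ∏ ((zO u - eZ) / g u)⁻¹` is a unit. Proof of the claim: `Tor u`, `¬ Lat u`. (1) `IZ Q u`: `zO u ∉ V`, so `(zO u)⁻¹ ∈ m` and
`(zO u - eZ) / zO u = 1 - eZ (zO u)⁻¹` is a unit (`eZ ∈ V`, `UP.congr`). (2) `¬ IZ Q u`: `zO u ∈ V`, so `zO u - eZ ∈ V`; suppose it is in `m`. `T = 1 / toC pbO`: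
`Tor T`, `¬ IZ Q T`, `zO T = eZ` (`T_Eun`). `S_D2` (5): `IZ Q (u + T)` or `IZ Q (u - T)`; multiply by `2` (`S_D2` (2), `v = 2`): `IZ Q (2 u ± 2 T)` and `2 T` is a
lattice point, so `IZ Q (2 u)` (`S_D2` (1)). `1 = x μ + y 2`: `u = x (μ u) + y (2 u)`, so `IZ Q u`, a contradiction. -/
def S_MuU : Prop := T_Hlf → T_Eun → S_XOm → S_D2 → S_UEx → T_MuU

/-- The factors of the theta function. -/
def T_Dif : Prop := ∀ Q : Ideal ZZ, Npr Q → ¬ MP Q 2 → ∀ μ : OO, μ ≠ 0 → ∀ z : ℂ, Tor z →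
  (∀ u : ℂ, Lat (toC μ * u) → ¬ Qp Q (z + u)) → ¬ IZ Q z ∧ VP Q (zO z) ∧
    ∀ u : ℂ, Lat (toC μ * u) → ¬ Lat u →
      (¬ IZ Q u → UP Q (zO z - zO u)) ∧ (IZ Q u → zO u ≠ 0 ∧ UP Q ((zO z - zO u) / zO u))

/-- (module `BDif`, 50 lines) **The factors of the theta function.**
Proof. By `S_D2` (3) `¬ IZ Q (z + u)` for all `u` with `Lat (μ u)`, in particular `¬ IZ Q z` (`u = 0`) and `¬ IZ Q (z - u)` (`-u`). So
`zO z ∈ V`, `¬ Lat z`. Let `Lat (μ u)`, `¬ Lat u`; `Tor u` (`S_UEx`). If `¬ IZ Q u`: `zO u ∈ V`, `zO z - zO u ∈ V`; if it is in `m` then `IZ Q (z + u)` or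
`IZ Q (z - u)` by `S_D2` (5), a contradiction. If `IZ Q u`: `zO u ∉ V`, so `zO u ≠ 0`, `(zO u)⁻¹ ∈ m` (`VP.not_iff`) and
`(zO z - zO u) / zO u = zO z (zO u)⁻¹ - 1` is a unit (`UP.congr` with `-1`). -/
def S_Dif : Prop := S_D2 → S_UEx → T_Dif

/-! ## `S_D5`, `S_D6` -/

/-- (module `BD5`, 120 lines) **`S_D5`.**
Proof. `μ ≠ 0`. (1) `¬ MP Q 2`. With `g u = if IZ Q u then zO u else 1`: `Theta μ S z = (toO μ ∏ u ∈ S, g u)⁻¹ * ∏ u ∈ S, ((zO z - zO u) / g u)⁻¹`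
(`g u ≠ 0`), the first factor is a unit by `T_MuU`, the others by `T_Dif` (`IsHalf.mem`). (2) `MP Q 2`: `2 = toO pO * toO pbO`, so (`MP.mul_cases`)
`MP Q (toO a)` with `a = pO` or `a = pbO`; `Pr2 a b`. `μ` is a unit at `Q`: `1 = x μ + y 2` (`IsCoprime μ 2`) and `MP Q (toO μ)` would give `1 ∈ m`.
`toO s7` is a unit: `toO s7 ^ 2 = -7 = 1 - 2 * 4` (`MP.of_pow`). Use `S_D1` (1), (3), (5). For `Lat (μ u)`: `¬ I2 Q (z + u)`, so `¬ I2 Q z` and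
`¬ I2 Q (z - u)`. If moreover `¬ Lat u`: `¬ I2 Q u` (otherwise `Qp Q u` with `α = μ`, `β = 1` gives `Lat u`). So `xO z, xO u ∈ V` and
`xO z - xO u ∉ m` (by (5) otherwise `I2 Q (z + u)` or `I2 Q (z - u)`). So `zO z - zO u = (xO z - xO u) / toO s7` is a unit for `u ∈ S`, and `Theta μ S z`
is a product of inverses of units. -/
def S_BD5 : Prop := T_MuU → T_Dif → S_D1 → S_UEx → S_D5

/-- The first part of `S_D6`. -/
def T_ThC : Prop := ∀ (μ : OO) (S : Finset ℂ), IsCoprime μ 2 → IsHalf μ S → ∀ Q : Ideal ZZ, Npr Q → ¬ MP Q 2 →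
  ¬ MP Q (toO μ) → ∀ z : ℂ, Tor z → (∀ u : ℂ, Lat (toC μ * u) → ¬ Qp Q (z + u)) →
    ∀ z' : ℂ, IZ Q z' → MP Q (Theta μ S (z + z') - Theta μ S z)

/-- (module `BThC`, 80 lines) **Congruence I.**
Proof. `μ ≠ 0`. For `u ∈ S`: `¬ IZ Q u` (otherwise `Qp Q u` by `S_D2` (3), and `α = μ`, `β = 1` give `Lat u`). So `zO z - zO u` is a unit (`T_Dif`), and
`zO (z + z') - zO z ∈ m` (`S_D2` (4), `¬ IZ Q z` by `T_Dif`), so `zO (z + z') - zO u` is a unit with the same residue (`UP.congr`), and the inverses are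
congruent (`x⁻¹ - y⁻¹ = (y - x) x⁻¹ y⁻¹`). Products of congruent elements of `V` are congruent (induction on the finset), and `(toO μ)⁻¹ ∈ V`. -/
def S_ThC : Prop := T_Dif → S_D2 → S_UEx → T_ThC

/-- Half systems and multiplication. -/
def T_LaS : Prop := ∀ (μ : OO) (S : Finset ℂ), IsHalf μ S → ∀ la : OO, IsCoprime la μ →
  IsHalf μ (S.image fun u => toC la * u) ∧ ∀ u ∈ S, ∀ u' ∈ S, toC la * u = toC la * u' → u = u'

/-- (module `BLaS`, 60 lines) **Half systems and multiplication.**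
Proof. `x la + y μ = 1`; so for `Lat (μ u)`: `u - x (la u) = y (μ u)` is a lattice point (a). mem: `Lat (μ (la u))`, and `Lat (la u)` gives `Lat u` by (a). ex: let
`Lat (μ z)`, `¬ Lat z`. `z₁ = toC x * z`: `Lat (μ z₁)`, `¬ Lat z₁` (otherwise `Lat (la z₁)`, `la z₁ = x (la z)`, and (a)). So `Lat (z₁ ± u)` with `u ∈ S`,
`Lat (la z₁ ± la u)`, `z - la z₁ ∈ Lat` by (a), so `Lat (z ± la u)`. uni: `Lat (la u ± la u')` gives `Lat (x la u ± x la u')`, so `Lat (u ± u')` by (a), `u = u'`.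
The last claim is the case `la u - la u' = 0`. -/
def S_LaS : Prop := S_UEx → T_LaS

/-- The second part of `S_D6`. -/
def T_ThF : Prop := ∀ (μ : OO) (S : Finset ℂ), IsCoprime μ 2 → IsHalf μ S → ∀ Q : Ideal ZZ, Npr Q → ¬ MP Q 2 →
  ¬ MP Q (toO μ) → ∀ z : ℂ, Tor z → (∀ u : ℂ, Lat (toC μ * u) → ¬ Qp Q (z + u)) →
    ∀ (la : OO) (l : ℕ), l.Prime → l ≠ 2 → l ≠ 7 → Nm la = l → MP Q (toO la) →
      MP Q (Theta μ S (toC la * z) - Theta μ S z ^ l)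

/-- (module `BThF`, 110 lines) **Congruence II.**
Proof. `μ ≠ 0`. `¬ la ∣ μ` (otherwise `toO μ ∈ m`), so `IsCoprime la μ` (`T_Cop`). `S' = S.image (la ·)` is a half system (`T_LaS`) and `Theta μ S (la z) = Theta μ S' (la z)`
(`S_D8`, `Tor (la z)`) `= (toO μ)⁻¹ ∏ u ∈ S, (zO (la z) - zO (la u))⁻¹` (`Finset.prod_image`). `¬ IZ Q z` (`T_Dif`), for `u ∈ S`: `Tor u` and `¬ IZ Q u` (otherwise `Qp Q u`
by `S_D2` (3), `α = μ`, `β = 1`). `S_D4`: `zO (la z) ≡ zO z ^ l`, `zO (la u) ≡ zO u ^ l` modulo `m`; so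
`zO (la z) - zO (la u) ≡ zO z ^ l - zO u ^ l ≡ (zO z - zO u) ^ l` (`T_Fer` (4)), and `zO z - zO u` is a unit (`T_Dif`). So the inverses are congruent:
`(zO (la z) - zO (la u))⁻¹ ≡ ((zO z - zO u)⁻¹) ^ l`. `(toO μ)⁻¹ = toO 1 / toO μ ≡ ((toO μ)⁻¹) ^ l` (`T_Fer` (3)). Products of congruent elements of `V` are congruent. -/
def S_ThF : Prop := T_Cop → T_Fer → T_Dif → T_LaS → S_D2 → S_D4 → S_D8 → S_UEx → T_ThF

end Pool.Agent.DI.DB
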