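import Pool.Agent.Lib.DI.Util.Spec
import Pool.Agent.Lib.DI.Val

/-!
# Theorem DI, part D: the theta function (`S_D7`, `S_D8`), statements

Author helper58 (notes 4050 D10, D12). For every `X` below: `T_X` is a statement and `S_X : Prop` is
`(hypotheses) → T_X`; the module `DI/D/X.lean` proves `theorem tX : S_X`; the complete proof is in the
docstring. The hypotheses are statements of `DI/Iface.lean` (`S_B.., S_A0, S_D5, S_D8`), of
`DI/Util/Spec.lean` (`S_U..`) and other `T_..` of this file. All modules are independent of each other.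
-/

set_option autoImplicit false

open scoped Pointwise Topology

noncomputable section

namespace Pool.Agent.DI.DC

open Pool.Agent.MuZ Pool.Agent.DI

/-- (module `D8`, 100 lines) **`S_D8`.**
Proof. `Theta μ S z = (toO μ)⁻¹ ∏_(u ∈ S) (zO z - zO u)⁻¹`, `zO z = (xO z - 1/4) / toO s7`, `xO z = ofC (XC z)`; by `S_B2`:
`xO (z + toC v) = xO z`, `xO (-z) = xO z` for all `z` in `ℂ`, so the second and the third claim. If `Lat (u - u')` or
`Lat (u + u')` then `zO u = zO u'`. First claim: for `u' ∈ S'` (`Lat (μ u')`, `¬ Lat u'`) there is `u ∈ S` with `Lat (u' - u)` or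
`Lat (u' + u)` (`IsHalf.ex`); this map `S' → S` is injective (if `u` is attached to `u1'` and `u2'` then `Lat (u1' - u2')` or
`Lat (u1' + u2')`, `IsHalf.uni` for `S'`; four cases) and surjective (for `u ∈ S` take `u' ∈ S'` with `Lat (u ± u')`; if `u2 ∈ S` is
attached to `u'` then `Lat (u ± u2)`, `IsHalf.uni`), so the two products are equal (`Finset.prod_bij`). Fourth claim: `μ ≠ 0`
(otherwise `toC μ * z = 0` is in `Lat`), `toO μ ≠ 0`, `toO s7 ≠ 0` (`toO` is injective: `S_UNm`); if `zO z = zO u`, `u ∈ S`, then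
`xO z = xO u`, and `Tor z`, `Tor u` (`Lat (μ u)`, `μ ≠ 0`: `S_UEx`), so `XC z = XC u` (`S_A0`, apply `io`); `¬ Lat z` (else
`Lat (μ z)`), `¬ Lat u`, so `Lat (z - u)` or `Lat (z + u)` (`S_B3`), hence `Lat (μ z)`, a contradiction. -/
def S_D8' : Prop := S_B2 → S_B3 → S_A0 → S_UNm → S_UEx → S_D8

/-- Products over systems of representatives. -/
def T_PSy : Prop := ∀ (α : OO) (R R' : Finset ℂ) (F : ℂ → Om), IsSys α R → IsSys α R' →
  (∀ z : ℂ, Lat (toC α * z) → ∀ v : OO, F (z + toC v) = F z) → ∏ v ∈ R, F v = ∏ v ∈ R', F v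

/-- (module `PSy`, 50 lines) **Systems of representatives.**
Proof. For `v ∈ R`: `Lat (α v)`, so there is `v' ∈ R'` with `Lat (v - v')` (`IsSys.ex`), `v = v' + toC w` and `F v = F v'`. The map
`v ↦ v'` is injective (`Lat (v1 - v')`, `Lat (v2 - v')` give `Lat (v1 - v2)`, `IsSys.uni`) and surjective (for `v' ∈ R'` take
`v ∈ R` with `Lat (v' - v)`; the element `v''` attached to `v` has `Lat (v' - v'')`, so `v'' = v'`). `Finset.prod_bij`. -/
def S_PSy : Prop := T_PSy

/-- A torsion point of mixed order. -/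
def T_Zpt : Prop := ∀ α μ : OO, α ≠ 0 → μ ≠ 0 → ∃ z : ℂ, Tor z ∧ ¬ Lat (toC (α * μ) * z) ∧
  ∀ Q : Ideal ZZ, Npr Q →
    (∀ v u : ℂ, Lat (toC α * v) → Lat (toC μ * u) → ¬ Qp Q (z + v + u)) ∧
    ∀ u : ℂ, Lat (toC μ * u) → ¬ Qp Q (toC α * z + u)

/-- (module `Zpt`, 90 lines) **A torsion point.**
Proof. Let `N = Nm (α μ) > 0` (`S_UNm`), `p < p'` two primes larger than `N` (`Nat.exists_infinite_primes`), `z = toC 1 / (p p')`.
(0) For a prime `q > N`: `¬ (q : OO) ∣ α μ` (otherwise `q² = Nm q` divides `Nm (α μ) = N`, `0 < N < q`), so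
`¬ Lat (toC (α μ) / q)` (`S_UEx`). In particular `¬ Lat (toC (α μ) * z)` (multiply by `p'`). (1) `Q` a nonzero prime: not both
`p`, `p'` are in `Q`, that is `¬ MP Q p` or `¬ MP Q p'`: otherwise `MP Q 1` (`x p + y p' = 1` with integers; `MP.one_not`); note
`toO (p : OO) = (p : Om)`. (2) Say `¬ MP Q (toO p)` (the other case is the same with `p`, `p'` exchanged). Let `w = z + v + u`,
suppose `Qp Q w`. With `a = p`, `b = α μ p'`: `a b w = α μ + p p' (μ (α v) + α (μ u))` is in `Lat`, so `b w` is in `Lat`, and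
`b w = α μ / p + p' (μ (α v) + α (μ u))`, so `α μ / p` is in `Lat`, against (0). (3) `w = α z + u`: the same with
`a = p`, `b = μ p'`: `a b w = α μ + p p' μ u`, `b w = α μ / p + p' μ u`. -/
def S_Zpt : Prop := S_UNm → S_UEx → T_Zpt

/-- Distribution, for one system. -/
def T_Dst : Prop := ∀ (μ : OO) (S : Finset ℂ), IsCoprime μ 2 → IsHalf μ S → ∀ α : OO, α ≠ 0 → IsCoprime α μ →
  ∀ R : Finset ℂ, IsSys α R → ∃ c : Om, c ≠ 0 ∧ ∀ z : ℂ, Tor z → ¬ Lat (toC (α * μ) * z) →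
    ∏ v ∈ R, Theta μ S (z + v) = c * Theta μ S (toC α * z)

/-- (module `Dst`, 110 lines) **Distribution.**
Proof. `μ ≠ 0` (`IsCoprime 0 2` would make `2` a unit, norm `4`). (1) For `Tor z`: `io (Theta μ S z) = k ∏_(u ∈ S) (XC z - XC u)⁻¹`
with `k = (toC μ)⁻¹ (toC s7)^|S|`, which is not `0` (`io_toO`, `S_A0`, `Tor u` for `u ∈ S`: `S_UEx`; `zO z - zO u =
(xO z - xO u)/toO s7`; `Finset.prod_mul_distrib`, `Finset.prod_const`). (2) `c0` from `S_B16` (for `α, μ, R, S`). For `Tor z`,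
`¬ Lat (α μ z)`: all `z + v`, `v ∈ R`, and `α z` are torsion points (`S_UEx`), so
`io (∏_(v ∈ R) Theta (z + v)) = k^|R| c0 ∏_(u ∈ S) (XC (α z) - XC u)⁻¹ = C io (Theta (α z))`, `C = k^|R| c0 / k`, `C ≠ 0`.
(3) `z0` from `T_Zpt`. `Theta (α z0) ≠ 0` (`S_D8` (4): `¬ Lat (μ (α z0))`). Put `c = (∏_(v ∈ R) Theta (z0 + v)) / Theta (α z0)`; so
`io c = C` by (2) for `z0`. `c ≠ 0` as `C ≠ 0`, and (2) for `z` is `io (∏ ..) = io (c Theta (α z))`; `io_inj`. -/
def S_Dst : Prop := S_B16 → S_A0 → S_D8 → S_UNm → S_UEx → T_Zpt → T_Dst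

/-- (module `D7`, 70 lines) **`S_D7`.**
Proof. `R0` a system for `α` (`S_UEx`), `c` from `T_Dst` for `R0`. UNITS: let `Q` be a nonzero prime, `z` from `T_Zpt` (`μ ≠ 0` as
`μ` is prime to `2`). For `v ∈ R0`: `Tor v` (`Lat (α v)`, `S_UEx`), `Tor (z + v)`, and `¬ Qp Q (z + v + u)` for all `u` with
`Lat (μ u)`, so `UP Q (Theta μ S (z + v))` (`S_D5`); in the same way `UP Q (Theta μ S (α z))` (`Tor (α z)`). So
`c = (∏ Theta (z + v)) / Theta (α z)` is a unit (`UP.prod`, `UP.div`, `UP.ne_zero`). GENERAL `R`: `T_PSy` with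
`F v = Theta μ S (z + v)` (`z` the given point, `Tor z`): for `Lat (α v)` the point `z + v` is a torsion point and
`Theta μ S (z + v + toC w) = Theta μ S (z + v)` (`S_D8` (3)). -/
def S_D7' : Prop := S_D5 → S_D8 → S_UNm → S_UEx → T_PSy → T_Dst → T_Zpt → S_D7

end Pool.Agent.DI.DC
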